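import Pool.Agent.Lib.MP_b611b5_al.FreeCT

/-! Self-similar groups of tree automorphisms that are regular branch over themselves. -/

set_option autoImplicit false

namespace Pool.Agent.Lib.MP_b611b5_al

open Subgroup
open scoped commutatorElement

variable {X : Type}

open Classical in
/-- A permutation of the words acting below a fixed word. -/
noncomputable def atP (v : List X) : Equiv.Perm (List X) →* Equiv.Perm (List X) :=
  MonoidHom.toHomPerm
    { toFun := fun h w => if v <+: w then v ++ h (w.drop v.length) else w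
      map_one' := funext fun w => by
        change (if v <+: w then v ++ w.drop v.length else w) = w
        split_ifs with e
        · exact List.prefix_iff_eq_append.1 e
        · rfl
      map_mul' := fun h h' => funext fun w => by
        change (if v <+: w then v ++ h (h' (w.drop v.length)) else w) =
          (if v <+: (if v <+: w then v ++ h' (w.drop v.length) else w) then
            v ++ h ((if v <+: w then v ++ h' (w.drop v.length) else w).drop v.length)
          else (if v <+: w then v ++ h' (w.drop v.length) else w))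
        by_cases e : v <+: w
        · simp [e]
        · simp [e] }

open Classical in
lemma atP_def (v : List X) (h : Equiv.Perm (List X)) (w : List X) :
    atP v h w = if v <+: w then v ++ h (w.drop v.length) else w := rfl

lemma atP_append (v : List X) (h : Equiv.Perm (List X)) (w : List X) :
    atP v h (v ++ w) = v ++ h w := by simp [atP_def]

lemma atP_off {v w : List X} (e : ¬ v <+: w) (h : Equiv.Perm (List X)) : atP v h w = w := by
  simp [atP_def, e]

lemma atP_inj (v : List X) : Function.Injective (atP v) := fun h h' e => Equiv.ext fun w => by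
  have := atP_append v h w
  rw [e, atP_append] at this
  exact (List.append_cancel_left this).symm

/-- The hypotheses used below. -/
structure SSB (G : Subgroup (Equiv.Perm (List X))) : Prop where
  len : ∀ g ∈ G, ∀ v, (g v).length = v.length
  sec : ∀ g ∈ G, ∀ v, ∃ h ∈ G, ∀ w, g (v ++ w) = g v ++ h w
  trans : ∀ v w : List X, v.length = w.length → ∃ g ∈ G, g v = w
  br : ∀ v, ∀ h ∈ G, atP v h ∈ G

variable {G : Subgroup (Equiv.Perm (List X))}

lemma not_prefix_of_ne {u v w : List X} (h : u.length = v.length) (hne : u ≠ v) :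
    ¬ u <+: v ++ w := fun e =>
  hne ((List.prefix_of_prefix_length_le e (List.prefix_append v w) h.le).eq_of_length h)

lemma SSB.nil (hG : SSB G) {g : Equiv.Perm (List X)} (hg : g ∈ G) : g [] = [] :=
  List.length_eq_zero_iff.1 (hG.len g hg [])

lemma SSB.eq_one [Nonempty X] (hG : SSB G) {g : Equiv.Perm (List X)} (hg : g ∈ G) (k : ℕ)
    (h : ∀ v : List X, v.length = k → ∀ w, g (v ++ w) = v ++ w) : g = 1 := by
  obtain ⟨x⟩ := ‹Nonempty X›
  refine Equiv.ext fun u => ?_
  change g u = u
  rcases le_total k u.length with e | e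
  · have := h (u.take k) (by simp [e]) (u.drop k)
    rwa [List.take_append_drop] at this
  · obtain ⟨s, -, hs⟩ := hG.sec g hg u
    have := h (u ++ List.replicate (k - u.length) x) (by simp; omega) []
    rw [List.append_nil, hs] at this
    exact (List.append_inj this (hG.len g hg u)).1

/-- A subgroup containing the copies of the group below all words of a level contains the level
stabiliser. -/
theorem SSB.stab_le [Finite X] [Nonempty X] (hG : SSB G) (k : ℕ) (K : Subgroup G)
    (hK : ∀ v : List X, v.length = k → ∀ h (hh : h ∈ G), (⟨atP v h, hG.br v h hh⟩ : G) ∈ K)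
    (g : G) (hg : ∀ v : List X, v.length = k → g.1 v = v) : g ∈ K := by
  classical
  have key : ∀ T : Finset (List X), (∀ v ∈ T, v.length = k) → ∀ g : G,
      (∀ v : List X, v.length = k → g.1 v = v) →
      (∀ v : List X, v.length = k → v ∉ T → ∀ w, g.1 (v ++ w) = v ++ w) → g ∈ K := by
    intro T
    induction T using Finset.induction_on with
    | empty =>
      intro _ g _ h
      rw [show g = 1 from Subtype.ext (hG.eq_one g.2 k fun v hv => h v hv (by simp))]
      exact one_mem _
    | insert v T _ ih =>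
      intro hT g h1 h2
      have hv := hT v (Finset.mem_insert_self _ _)
      obtain ⟨s, hs, hs'⟩ := hG.sec g.1 g.2 v
      have m := hK v hv s⁻¹ (inv_mem hs)
      refine (K.mul_mem_cancel_left m).1 (ih (fun u hu => hT u (Finset.mem_insert_of_mem hu)) _
        (fun u hu => ?_) fun u hu hu' w => ?_)
      · change atP v s⁻¹ (g.1 u) = u
        rw [h1 u hu]
        by_cases e : v = u
        · subst e
          have := atP_append v s⁻¹ []
          rwa [hG.nil (inv_mem hs), List.append_nil] at this
        · exact atP_off (by simpa using not_prefix_of_ne (w := []) (hv.trans hu.symm) e) _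
      · change atP v s⁻¹ (g.1 (u ++ w)) = u ++ w
        by_cases e : v = u
        · subst e
          rw [hs', h1 v hv, atP_append]; simp
        · rw [h2 u hu (by simp [hu', Ne.symm e]), atP_off (not_prefix_of_ne (hv.trans hu.symm) e)]
  exact key (List.finite_length_eq X k).toFinset (by simp) g hg fun v hv h => absurd (by simp [hv]) h

/-- The copy of the group below a word. -/
noncomputable def SSB.atG (hG : SSB G) (v : List X) : G →* G :=
  ((atP v).comp G.subtype).codRestrict G fun h => hG.br v h.1 h.2

lemma SSB.atG_inj (hG : SSB G) (v : List X) : Function.Injective (hG.atG v) := fun _ _ e =>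
  Subtype.ext (atP_inj v (congrArg Subtype.val e))

lemma SSB.at_mem (hG : SSB G) (hp : commutator G = ⊤) {K : Subgroup G} (hK : K.Normal) {g : G}
    (hg : g ∈ K) {v : List X} (hv : g.1 v ≠ v) (h : G) : hG.atG v h ∈ K := by
  have hc : ∀ a b : G, Commute (g * hG.atG v a * g⁻¹) (hG.atG v b) := by
    intro a b
    refine Subtype.ext (Equiv.Perm.Disjoint.commute (f := g.1 * atP v a.1 * g.1⁻¹)
      (g := atP v b.1) fun w => ?_).eq
    by_cases e : v <+: w
    · left
      have : ¬ v <+: g.1⁻¹ w := by
        rintro ⟨y, hy⟩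
        obtain ⟨s, -, hs⟩ := hG.sec g.1 g.2 v
        have e2 : w = g.1 v ++ s y := by rw [← hs, hy]; simp
        exact not_prefix_of_ne (hG.len g.1 g.2 v).symm hv.symm (e2 ▸ e)
      rw [Equiv.Perm.mul_apply, Equiv.Perm.mul_apply, atP_off this]; simp
    · exact Or.inr (atP_off e _)
  have : commutator G ≤ K.comap (hG.atG v) := by
    rw [_root_.commutator_def, commutator_le]
    intro a _ b _
    rw [mem_comap, map_commutatorElement]
    have h1 := hc a⁻¹ b
    have h2 := hc a⁻¹ a
    rw [map_inv] at h1 h2
    generalize hG.atG v a = A at *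
    generalize hG.atG v b = B at *
    have m : A * (g * A⁻¹ * g⁻¹) ∈ K := by
      have := mul_mem (hK.conj_mem g hg A) (inv_mem hg)
      simpa only [mul_assoc] using this
    generalize g * A⁻¹ * g⁻¹ = C at *
    have e : ⁅A, B⁆ = A * C * (B * (A * C)⁻¹ * B⁻¹) := by
      rw [commutatorElement_def, mul_inv_rev]
      calc A * B * A⁻¹ * B⁻¹ = A * (B * C * C⁻¹) * A⁻¹ * B⁻¹ := by group
        _ = A * (C * B * C⁻¹) * A⁻¹ * B⁻¹ := by rw [h1.eq]
        _ = _ := by group
    rw [e]
    exact mul_mem m (hK.conj_mem _ (inv_mem m) B)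
  exact this (hp ▸ mem_top h)

/-- Every nontrivial normal subgroup contains all copies of the group at some level. -/
theorem SSB.normal_at (hG : SSB G) (hp : commutator G = ⊤) {K : Subgroup G} (hK : K.Normal)
    (h0 : K ≠ ⊥) : ∃ k, ∀ v : List X, v.length = k → ∀ h, hG.atG v h ∈ K := by
  obtain ⟨⟨g, hg⟩, hg1⟩ := (ne_bot_iff_exists_ne_one).1 h0
  have : ∃ v, g.1 v ≠ v := by
    by_contra h
    push Not at h
    exact hg1 (Subtype.ext (Subtype.ext (Equiv.ext h)))
  obtain ⟨v, hv⟩ := this
  refine ⟨v.length, fun u hu h => ?_⟩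
  obtain ⟨t, ht, rfl⟩ := hG.trans v u hu.symm
  refine hG.at_mem hp hK (hK.conj_mem g hg ⟨t, ht⟩) (fun e => hv (t.injective ?_)) h
  simpa using e

theorem SSB.congruence [Finite X] [Nonempty X] (hG : SSB G) (hp : commutator G = ⊤)
    {K : Subgroup G} (hK : K.Normal) (h0 : K ≠ ⊥) :
    ∃ k, ∀ g : G, (∀ v : List X, v.length = k → g.1 v = v) → g ∈ K := by
  obtain ⟨k, hk⟩ := hG.normal_at hp hK h0
  exact ⟨k, hG.stab_le k K fun v hv h hh => hk v hv ⟨h, hh⟩⟩

theorem SSB.finiteIndex [Finite X] (hG : SSB G) {F : Type} [Group F] (f : F →* G) (k : ℕ)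
    (K : Subgroup F) (h : ∀ g : F, (∀ v : List X, v.length = k → (f g).1 v = v) → g ∈ K) :
    K.FiniteIndex := by
  let φ : F →* Equiv.Perm {l : List X // l.length = k} :=
    MonoidHom.toHomPerm
      { toFun := fun w l => ⟨(f w).1 l.1, by rw [hG.len _ (f w).2, l.2]⟩
        map_one' := funext fun l => Subtype.ext (by simp; rfl)
        map_mul' := fun w w' => funext fun l => Subtype.ext (by simp; rfl) }
  have : Finite {l : List X // l.length = k} := (List.finite_length_eq X k).to_subtype
  have hle : φ.ker ≤ K := fun w hw => h w fun l hl => by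
    have := DFunLike.congr_fun (MonoidHom.mem_ker.1 hw) ⟨l, hl⟩
    exact congrArg Subtype.val this
  exact Subgroup.finiteIndex_of_le hle

theorem SSB.infinite [Nontrivial X] (hG : SSB G) : Infinite G := by
  by_contra h
  rw [not_infinite_iff_finite] at h
  obtain ⟨x, y, hxy⟩ := exists_pair_ne X
  obtain ⟨g, hg, e⟩ := hG.trans [y] [x] rfl
  obtain ⟨s, hs⟩ := Finite.surjective_of_injective (hG.atG_inj [x]) ⟨g, hg⟩
  have : atP [x] s.1 [y] = [x] := (congrArg (fun z : G => z.1 [y]) hs).trans e
  rw [atP_off (by simp [hxy])] at this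
  exact hxy (List.cons.inj this).1.symm

theorem SSB.not_solvable [Nontrivial X] (hG : SSB G) (hp : commutator G = ⊤) (H : Subgroup G)
    (hH : H.FiniteIndex) : ¬ Group.IsSolvable H := by
  intro hs
  have := hG.infinite
  have h0 : H.normalCore ≠ ⊥ := fun e => by
    have := (H.finiteIndex_normalCore).index_ne_zero
    rw [e, index_bot, Nat.card_eq_zero_of_infinite] at this
    exact this rfl
  obtain ⟨k, hk⟩ := hG.normal_at hp H.normalCore_normal h0
  obtain ⟨x, -⟩ := exists_pair_ne X
  have h1 : Group.IsSolvable G := Group.isSolvable_of_isSolvable_injective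
    (f := (hG.atG (List.replicate k x)).codRestrict H fun h =>
      H.normalCore_le (hk _ (by simp) h))
    fun a b e => hG.atG_inj _ (congrArg Subtype.val e)
  exact (Group.IsSolvable.commutator_lt_top_of_nontrivial G).ne hp

lemma exists_lin_lt_pow (A B : ℕ) : ∃ i, A * i + B < 2 ^ i := by
  refine ⟨2 * (2 * A + B + 1), ?_⟩
  have h : 2 * A + B + 1 < 2 ^ (2 * A + B + 1) := Nat.lt_two_pow_self
  rw [mul_comm 2 (2 * A + B + 1), pow_mul]
  generalize 2 ^ (2 * A + B + 1) = t at h
  nlinarith

/-- A group with logarithmic contraction depth has no free subgroup of rank two. -/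
theorem SSB.no_free [Finite X] [Nonempty X] (hG : SSB G) (L : ℕ → G → Prop) (L0 : L 0 1)
    (Lmul : ∀ n m g h, L n g → L m h → L (n + m) (g * h)) (Lmono : ∀ n m g, n ≤ m → L n g → L m g)
    (Lex : ∀ g, ∃ n, L n g) (N : Set (Equiv.Perm (List X))) (hN : N.Finite)
    (hL : ∀ j g, L (2 ^ j) g → ∀ v : List X, v.length = j + 1 →
      ∃ h ∈ N, ∀ w, g.1 (v ++ w) = g.1 v ++ h w)
    (f : FreeGroup (Fin 2) →* G) : ¬ Function.Injective f := by
  classical
  intro hf
  have := Fintype.ofFinite X
  have := hN.fintype
  obtain ⟨c0, h0⟩ := Lex (f (FreeGroup.of 0))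
  obtain ⟨c1, h1⟩ := Lex (f (FreeGroup.of 1))
  have hc : ∀ i, L (c0 + c1) (f (FreeGroup.of i)) := by
    intro i
    fin_cases i
    exacts [Lmono _ _ _ (by omega) h0, Lmono _ _ _ (by omega) h1]
  generalize c0 + c1 = c at hc
  have hw : ∀ l : List (Fin 2), L (c * l.length) (f (l.map FreeGroup.of).prod) := by
    intro l
    induction l with
    | nil => simpa using L0
    | cons i l ih =>
      rw [List.map_cons, List.prod_cons, map_mul, List.length_cons, mul_add, mul_one, add_comm]
      exact Lmul _ _ _ _ (hc i) ih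
  obtain ⟨i, hi⟩ := exists_lin_lt_pow (Fintype.card X)
    (Fintype.card X * (c + 1) + Fintype.card N)
  let S : Subgroup (FreeGroup (Fin 2)) :=
    { carrier := {x | ∀ v : List X, v.length = i + c + 1 → (f x).1 v = v}
      mul_mem' := fun {a b} ha hb v hv => by simp [hb v hv, ha v hv]
      one_mem' := fun v _ => by simp
      inv_mem' := fun {a} ha v hv => by
        rw [map_inv, Subgroup.coe_inv, Equiv.Perm.inv_eq_iff_eq, ha v hv] }
  have : S.FiniteIndex := hG.finiteIndex f (i + c + 1) S fun _ h => h
  let K : List.Vector X (i + c + 1) → Subgroup (FreeGroup (Fin 2)) := fun v =>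
    { carrier := {x | ∀ w, (f x).1 (v.1 ++ w) = v.1 ++ w}
      mul_mem' := fun {a b} ha hb w => by simp only [map_mul, Subgroup.coe_mul,
        Equiv.Perm.mul_apply, hb w, ha w]
      one_mem' := fun w => by simp
      inv_mem' := fun {a} ha w => by
        rw [map_inv, Subgroup.coe_inv, Equiv.Perm.inv_eq_iff_eq, ha w] }
  suffices H : ∃ y, y ≠ 1 ∧ ∀ v, y ∈ K v by
    obtain ⟨y, hy, hyK⟩ := H
    exact hy (hf (Subtype.ext ((hG.eq_one (f y).2 _ fun v hv => hyK ⟨v, hv⟩).trans (by simp))))
  refine fct_inter fct_not_comm S K (fun v s hs x hx w => ?_) fun v => ?_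
  · obtain ⟨t, -, ht⟩ := hG.sec _ (f s⁻¹).2 v.1
    have e : (f s⁻¹).1 (v.1 ++ w) = v.1 ++ t w := by rw [ht, S.inv_mem hs v.1 v.2]
    simp only [map_mul, Subgroup.coe_mul, Equiv.Perm.mul_apply]
    rw [e, hx, ← e]; simp
  · have hle : ∀ u : List.Vector (Fin 2) (2 ^ i), L (2 ^ (i + c)) (f (u.1.map FreeGroup.of).prod) :=
      fun u => Lmono _ _ _ (by
        rw [u.2, pow_add, mul_comm]
        exact Nat.mul_le_mul_left _ Nat.lt_two_pow_self.le) (hw u.1)
    choose s hs hs' using fun u => hL (i + c) _ (hle u) v.1 v.2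
    let φ : List.Vector (Fin 2) (2 ^ i) → List.Vector X (i + c + 1) × N := fun u =>
      (⟨(f (u.1.map FreeGroup.of).prod).1 v.1, (hG.len _ (f _).2 _).trans v.2⟩, ⟨s u, hs u⟩)
    obtain ⟨u, u', hne, e⟩ := Fintype.exists_ne_map_eq_of_card_lt φ (by
      rw [Fintype.card_prod, card_vector, card_vector, Fintype.card_fin]
      calc Fintype.card X ^ (i + c + 1) * Fintype.card N
          ≤ (2 ^ Fintype.card X) ^ (i + c + 1) * 2 ^ Fintype.card N :=
            Nat.mul_le_mul (Nat.pow_le_pow_left Nat.lt_two_pow_self.le _) Nat.lt_two_pow_self.le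
        _ = 2 ^ (Fintype.card X * i + (Fintype.card X * (c + 1) + Fintype.card N)) := by
            rw [← pow_mul, ← pow_add]; congr 1; ring
        _ < 2 ^ 2 ^ i := Nat.pow_lt_pow_right (by norm_num) hi)
    have e1 : (f (u.1.map FreeGroup.of).prod).1 v.1 = (f (u'.1.map FreeGroup.of).prod).1 v.1 :=
      congrArg (fun z => z.1.1) e
    have e2 : s u = s u' := congrArg (fun z => z.2.1) e
    refine ⟨((u'.1.map FreeGroup.of).prod)⁻¹ * (u.1.map FreeGroup.of).prod, fun w => ?_,
      fun e => hne (Subtype.ext (fct_pos_inj (inv_mul_eq_one.1 e).symm))⟩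
    rw [map_mul, map_inv, Subgroup.coe_mul, Subgroup.coe_inv, Equiv.Perm.mul_apply,
      Equiv.Perm.inv_eq_iff_eq, hs', hs', e1, e2]

end Pool.Agent.Lib.MP_b611b5_al
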