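import Pool.Agent.Lib.MP_b611b5_al.Kernel
import Pool.Agent.Lib.MP_b611b5_al.ContrGen

/-! The finitely presented branch group is contracting, perfect and regular branch over itself. -/

set_option autoImplicit false

namespace Pool.Agent.Lib.MP_b611b5_al

open Subgroup

noncomputable section

/-- The section at a word. -/
def secL : List XX → FF → FF
  | [], w => w
  | x :: v, w => secL v ((psi w).s x)

lemma act_append (v : List XX) (w : FF) (u : List XX) :
    act psi w (v ++ u) = act psi w v ++ act psi (secL v w) u := by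
  induction v generalizing w with
  | nil => rfl
  | cons x v ih => rw [List.cons_append, act_cons, act_cons, ih]; rfl

lemma atP_mem (v : List XX) (w : FF) : atP v (act psi w) ∈ (act psi).range := by
  induction v with
  | nil => exact ⟨w, Equiv.ext fun u => (atP_append [] _ u).symm⟩
  | cons x v ih =>
    obtain ⟨w', hw'⟩ := ih
    obtain ⟨g, hg⟩ := at_mem x w'
    refine ⟨g, Equiv.ext fun u => ?_⟩
    cases u with
    | nil => rw [atP_off (by simp)]; rfl
    | cons y u =>
      rw [act_cons', hg, Wr.at_p, one_smul, Wr.at_s]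
      split_ifs with e
      · subst e
        rw [hw']
        by_cases h : v <+: u
        · obtain ⟨t, rfl⟩ := h
          rw [atP_append, ← List.cons_append, ← List.cons_append, atP_append]
        · rw [atP_off h, atP_off fun e => h (List.cons_prefix_cons.1 e).2]
      · rw [atP_off fun h => e (List.cons_prefix_cons.1 h).1.symm]; rfl

theorem ssb : SSB (act psi).range where
  len := by rintro _ ⟨w, rfl⟩ v; exact act_length psi w v
  sec := by rintro _ ⟨w, rfl⟩ v; exact ⟨_, ⟨secL v w, rfl⟩, act_append v w⟩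
  trans v w h := by
    obtain ⟨g, hg⟩ := level_trans inl_mem at_mem v w h
    exact ⟨_, ⟨g, rfl⟩, hg⟩
  br := by rintro v _ ⟨w, rfl⟩; exact atP_mem v w

theorem range_perfect : commutator (act psi).range = ⊤ := by
  rw [eq_top_iff]
  rintro ⟨_, w, rfl⟩ -
  let f : FF →* Abelianization (act psi).range := Abelianization.of.comp (act psi).rangeRestrict
  have : f = 1 := FF_ext fun j k => K_perfect (f.comp (ofK j)) (fun _ _ => Commute.all _ _) k
  rw [← Abelianization.ker_of]
  exact DFunLike.congr_fun this w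

lemma Bl.mul {n m : ℕ} {w w' : FF} (h : Bl n w) (h' : Bl m w') : Bl (n + m) (w * w') := by
  induction h with
  | zero => simpa using h'
  | succ n k b w hb _ ih =>
    rw [mul_assoc, Nat.add_right_comm]
    exact Bl.succ _ k _ _ hb ih

lemma Bl.mono {n m : ℕ} {w : FF} (e : n ≤ m) (h : Bl n w) : Bl m w := by
  induction e with
  | refl => exact h
  | step _ ih => simpa using Bl.succ _ 0 1 w (one_mem _) ih

lemma Bl.half {n : ℕ} {w : FF} (h : Bl (2 * n) w) (x : XX) : Bl n ((psi w).s x) := by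
  induction n generalizing w x with
  | zero => exact h.sec x
  | succ n ih =>
    cases h with
    | succ _ m b w hb h =>
      cases h with
      | succ _ m' b' w hb' h =>
        rw [← mul_assoc, map_mul, Wr.mul_s]
        obtain ⟨m'', h'⟩ := merge hb hb' ((psi w).p • x)
        exact Bl.succ n m'' _ _ h' (ih h x)

/-- A finite set containing the nucleus. -/
def Nuc : Set (Equiv.Perm (List XX)) :=
  (⋃ z : Fin 3 × Nm, act psi '' (FE z.1 z.2 : Set FF)) ∪
    Set.range fun z : Fin 3 × KK => act psi (ofK z.1 z.2)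

lemma Nuc_finite : Nuc.Finite := by
  have h1 : (Set.range fun z : Fin 3 × KK => act psi (ofK z.1 z.2)).Finite := Set.finite_range _
  have h2 : (⋃ z : Fin 3 × Nm, act psi '' (FE z.1 z.2 : Set FF)).Finite :=
    Set.finite_iUnion fun z => finite_FE z.1 z.2
  exact h2.union h1

lemma Nuc_sub : Nuc ⊆ (act psi).range := by
  rintro g (h | ⟨z, rfl⟩)
  · obtain ⟨z, w, -, rfl⟩ := Set.mem_iUnion.1 h
    exact ⟨w, rfl⟩
  · exact ⟨_, rfl⟩

lemma block_nuc {m : Fin 3} (v : List XX) (x : XX) {b : FF} (hb : b ∈ BB m) :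
    act psi (secL (x :: v) b) ∈ Nuc := by
  induction v generalizing x b with
  | nil =>
    by_cases hz : ∃ ν, x = zpt (m + 1) ν
    · obtain ⟨ν, rfl⟩ := hz
      exact Or.inl (Set.mem_iUnion.2 ⟨(m + 1, ν), _, sec_edge (by rwa [fin3_12]) ν, rfl⟩)
    · push Not at hz
      obtain ⟨k, hk⟩ := (psi_BB hb).2.2 x hz
      exact Or.inr ⟨(_, k), congrArg (act psi) hk⟩
  | cons y v ih => exact ih y ((psi_BB hb).2.1 x)

lemma Bl.nuc {j : ℕ} {w : FF} (h : Bl (2 ^ j) w) {v : List XX} (hv : j + 1 ≤ v.length) :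
    act psi (secL v w) ∈ Nuc := by
  induction j generalizing w v with
  | zero =>
    cases v with
    | nil => simp at hv
    | cons x v =>
      cases h with
      | succ _ m b w hb h =>
        cases h
        exact block_nuc v x (by simpa using hb)
  | succ j ih =>
    cases v with
    | nil => simp at hv
    | cons x v => exact ih (Bl.half (by rwa [← pow_succ']) x) (by simpa using hv)

theorem exists_contracting : ∃ (X : Type) (_ : Finite X) (_ : Nontrivial X)
    (G : Subgroup (Equiv.Perm (List X))), Group.IsFinitelyPresented G ∧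
      (∀ g ∈ G, ∀ v, (g v).length = v.length) ∧
      (∀ g ∈ G, ∀ v, ∃ h ∈ G, ∀ w, g (v ++ w) = g v ++ h w) ∧
      (∀ v w : List X, v.length = w.length → ∃ g ∈ G, g v = w) ∧
      (∀ k : ℕ, (closure {g : G | ∃ v : List X, v.length = k ∧
        ∀ w, ¬ v <+: w → g.1 w = w}).index ≠ 0) ∧
      (∃ N : Set (Equiv.Perm (List X)), N.Finite ∧ N ⊆ G ∧ ∀ g ∈ G, ∃ n : ℕ, ∀ v : List X,
        n ≤ v.length → ∃ h ∈ N, ∀ w, g (v ++ w) = g v ++ h w) ∧
      (∀ v : List X, ∀ h ∈ G, ∃ g ∈ G, (∀ w, g (v ++ w) = v ++ h w) ∧ ∀ w, ¬ v <+: w → g w = w) ∧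
      commutator G = ⊤ ∧ Infinite G ∧
      (∀ K : Subgroup G, K.Normal → K ≠ ⊥ → K.FiniteIndex ∧
        ∃ k : ℕ, ∀ g : G, (∀ v : List X, v.length = k → g.1 v = v) → g ∈ K) ∧
      (∀ H : Subgroup G, H.FiniteIndex → ¬ Group.IsSolvable H) ∧
      ∀ f : FreeGroup (Fin 2) →* G, ¬ Function.Injective f := by
  have hX : Nontrivial XX := ⟨bv (.inl 0), bv (.inl 1), bv_inj.ne (by simp)⟩
  refine ⟨XX, inferInstance, hX, (act psi).range, ?_, ssb.len, ssb.sec, ssb.trans, fun k => ?_,
    ⟨Nuc, Nuc_finite, Nuc_sub, ?_⟩,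
    fun v h hh => ⟨atP v h, ssb.br v h hh, atP_append v h, fun w e => atP_off e h⟩,
    range_perfect, ssb.infinite, fun K hK h0 => ?_, ssb.not_solvable range_perfect, ?_⟩
  · have : Group.IsFinitelyPresented (FF ⧸ (act psi).ker) :=
      Group.IsFinitelyPresented.quotient _ NN_fin
    exact Group.IsFinitelyPresented.equiv (QuotientGroup.quotientKerEquivRange (act psi))
  · refine (ssb.finiteIndex (MonoidHom.id _) k _
      (ssb.stab_le k _ fun v hv h _ => Subgroup.subset_closure ?_)).index_ne_zero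
    exact ⟨v, hv, fun w e => atP_off e h⟩
  · rintro _ ⟨w, rfl⟩
    obtain ⟨n, hn⟩ := exists_Bl w
    exact ⟨n + 1, fun v hv => ⟨_, (hn.mono Nat.lt_two_pow_self.le).nuc hv, act_append v w⟩⟩
  · obtain ⟨k, hk⟩ := ssb.congruence range_perfect hK h0
    exact ⟨ssb.finiteIndex (MonoidHom.id _) k K hk, k, hk⟩
  · refine ssb.no_free (fun n g => ∃ w, Bl n w ∧ act psi w = g.1) ⟨1, Bl.zero, map_one _⟩ ?_ ?_ ?_
      Nuc Nuc_finite ?_
    · rintro n m g h ⟨w, h1, h2⟩ ⟨w', h3, h4⟩
      exact ⟨w * w', h1.mul h3, by rw [map_mul, h2, h4]; rfl⟩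
    · rintro n m g e ⟨w, h1, h2⟩
      exact ⟨w, h1.mono e, h2⟩
    · rintro ⟨_, w, rfl⟩
      obtain ⟨n, hn⟩ := exists_Bl w
      exact ⟨n, w, hn, rfl⟩
    · rintro j g ⟨w, h1, h2⟩ v hv
      exact ⟨_, h1.nuc hv.ge, h2 ▸ act_append v w⟩

end

end Pool.Agent.Lib.MP_b611b5_al
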