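import Mathlib

/-! Permutational wreath products, wreath recursions and their actions on words. -/

set_option autoImplicit false
set_option linter.unusedSectionVars false

namespace Pool.Agent.Lib.MP_b611b5_al

open Subgroup

/-- Permutational wreath product: a root element and a section at each letter. -/
@[ext] structure Wr (P X H : Type) where
  p : P
  s : X → H

section wr

variable {P X H H' Γ : Type} [Group P] [MulAction P X] [Group H] [Group H'] [Group Γ]

instance : Mul (Wr P X H) := ⟨fun g h => ⟨g.p * h.p, fun x => g.s (h.p • x) * h.s x⟩⟩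
instance : One (Wr P X H) := ⟨⟨1, 1⟩⟩
instance : Inv (Wr P X H) := ⟨fun g => ⟨g.p⁻¹, fun x => (g.s (g.p⁻¹ • x))⁻¹⟩⟩

@[simp] lemma Wr.mul_p (g h : Wr P X H) : (g * h).p = g.p * h.p := rfl
@[simp] lemma Wr.mul_s (g h : Wr P X H) (x : X) : (g * h).s x = g.s (h.p • x) * h.s x := rfl
@[simp] lemma Wr.one_p : (1 : Wr P X H).p = 1 := rfl
@[simp] lemma Wr.one_s (x : X) : (1 : Wr P X H).s x = 1 := rfl
@[simp] lemma Wr.inv_p (g : Wr P X H) : (g⁻¹).p = g.p⁻¹ := rfl
@[simp] lemma Wr.inv_s (g : Wr P X H) (x : X) : (g⁻¹).s x = (g.s (g.p⁻¹ • x))⁻¹ := rfl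

instance : Group (Wr P X H) := Group.ofLeftAxioms
  (fun a b c => by ext <;> simp [mul_assoc, mul_smul])
  (fun a => by ext <;> simp)
  (fun a => by ext <;> simp)

/-- Functoriality in the sections. -/
def Wr.map (f : H →* H') : Wr P X H →* Wr P X H' where
  toFun g := ⟨g.p, fun x => f (g.s x)⟩
  map_one' := by ext <;> simp
  map_mul' a b := by ext <;> simp

@[simp] lemma Wr.map_p (f : H →* H') (g : Wr P X H) : (Wr.map f g).p = g.p := rfl
@[simp] lemma Wr.map_s (f : H →* H') (g : Wr P X H) (x : X) : (Wr.map f g).s x = f (g.s x) := rfl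

/-- Root elements. -/
def Wr.inl : P →* Wr P X H where
  toFun p := ⟨p, 1⟩
  map_one' := rfl
  map_mul' a b := by ext <;> simp

/-- Base elements. -/
def Wr.inr : (X → H) →* Wr P X H where
  toFun s := ⟨1, s⟩
  map_one' := rfl
  map_mul' a b := by ext <;> simp

/-- The root part. -/
def Wr.fst : Wr P X H →* P where
  toFun g := g.p
  map_one' := rfl
  map_mul' _ _ := rfl

@[simp] lemma Wr.inl_p (p : P) : (Wr.inl p : Wr P X H).p = p := rfl
@[simp] lemma Wr.inl_s (p : P) (x : X) : (Wr.inl p : Wr P X H).s x = 1 := rfl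
@[simp] lemma Wr.inr_p (s : X → H) : (Wr.inr s : Wr P X H).p = 1 := rfl
@[simp] lemma Wr.inr_s (s : X → H) (x : X) : (Wr.inr s : Wr P X H).s x = s x := rfl

/-- An element with a single section. -/
def Wr.at [DecidableEq X] (y : X) : H →* Wr P X H :=
  Wr.inr.comp (MonoidHom.mulSingle (fun _ : X => H) y)

@[simp] lemma Wr.at_p [DecidableEq X] (y : X) (h : H) : (Wr.at y h : Wr P X H).p = 1 := rfl
lemma Wr.at_s [DecidableEq X] (y : X) (h : H) (x : X) :
    (Wr.at y h : Wr P X H).s x = if x = y then h else 1 := by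
  simp [Wr.at, Pi.mulSingle_apply]

lemma Wr.conj_at [DecidableEq X] (p : P) (y : X) (h : H) :
    (Wr.inl p * Wr.at y h * (Wr.inl p)⁻¹ : Wr P X H) = Wr.at (p • y) h := by
  ext x
  · simp
  · simp [Wr.at_s, inv_smul_eq_iff]

lemma Wr.at_commute [DecidableEq X] {y y' : X} (hy : y ≠ y') (h h' : H) :
    Commute (Wr.at y h : Wr P X H) (Wr.at y' h') := by
  ext x
  · simp
  · simp only [Wr.mul_s, Wr.at_p, one_smul, Wr.at_s]
    by_cases h1 : x = y
    · subst h1; simp [hy]
    · simp [h1]

lemma Wr.inr_mem [DecidableEq X] [Finite X] {K : Subgroup (Wr P X H)} (s : X → H)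
    (h : ∀ y, Wr.at y (s y) ∈ K) : Wr.inr s ∈ K :=
  Subgroup.pi_mem_of_mulSingle_mem (H := K.comap Wr.inr) s h

lemma Wr.eq_inr {g : Wr P X H} (h : g.p = 1) : g = Wr.inr g.s := by
  ext <;> simp [h]

theorem Wr.exists_lift [DecidableEq X] [Finite X] (ρ : P →* Γ) (τ : X → H →* Γ)
    (hc : ∀ y y', y ≠ y' → ∀ h h', Commute (τ y h) (τ y' h'))
    (he : ∀ p y h, ρ p * τ y h * (ρ p)⁻¹ = τ (p • y) h) :
    ∃ Φ : Wr P X H →* Γ, (∀ p, Φ (Wr.inl p) = ρ p) ∧ ∀ y h, Φ (Wr.at y h) = τ y h := by
  have := Fintype.ofFinite X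
  let Θ : (X → H) →* Γ := MonoidHom.noncommPiCoprod τ hc
  have hΘ : ∀ y h, Θ (Pi.mulSingle y h) = τ y h := fun y h =>
    MonoidHom.noncommPiCoprod_mulSingle τ y h
  have key : ∀ (p : P) (s : X → H), Θ s * ρ p = ρ p * Θ (fun x => s (p • x)) := by
    intro p s
    let f : (X → H) →* (X → H) := MonoidHom.pi fun x => Pi.evalMonoidHom (fun _ => H) (p • x)
    have : ((MulAut.conj (ρ p)).toMonoidHom.comp Θ).comp f = Θ := by
      refine MonoidHom.pi_ext fun y h => ?_
      have e : f (Pi.mulSingle y h) = Pi.mulSingle (p⁻¹ • y) h := by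
        funext x
        simp [f, Pi.mulSingle_apply, eq_inv_smul_iff]
      simp [e, hΘ, he]
    have h2 := DFunLike.congr_fun this s
    simp only [MonoidHom.comp_apply, MulEquiv.coe_toMonoidHom, MulAut.conj_apply] at h2
    rw [← h2]
    have e : f s = fun x => s (p • x) := rfl
    rw [e]; group
  refine ⟨MonoidHom.mk' (fun g => ρ g.p * Θ g.s) fun g h => ?_, fun p => ?_, fun y h => ?_⟩
  · have e : (g * h).s = (fun x => g.s (h.p • x)) * h.s := rfl
    rw [e, map_mul Θ, Wr.mul_p, map_mul, mul_assoc, mul_assoc, ← mul_assoc (ρ h.p), ← key,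
      mul_assoc]
  · change ρ p * Θ 1 = ρ p
    simp
  · change ρ 1 * Θ (Pi.mulSingle y h) = _
    simp [hΘ]

end wr

section act

variable {P X F : Type} [Group P] [MulAction P X] [Group F] (ψ : F →* Wr P X F)

/-- Action on words. -/
def actL : List X → F → List X
  | [], _ => []
  | x :: l, w => ((ψ w).p • x) :: actL l ((ψ w).s x)

lemma actL_one (l : List X) : actL ψ l 1 = l := by
  induction l with
  | nil => rfl
  | cons x l ih => simp [actL, ih]

lemma actL_mul (l : List X) (w w' : F) : actL ψ l (w * w') = actL ψ (actL ψ l w') w := by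
  induction l generalizing w w' with
  | nil => rfl
  | cons x l ih => simp [actL, ih, mul_smul]

/-- The action on words as a homomorphism. -/
def act : F →* Equiv.Perm (List X) :=
  MonoidHom.toHomPerm
    { toFun := fun w l => actL ψ l w
      map_one' := funext fun l => actL_one ψ l
      map_mul' := fun w w' => funext fun l => actL_mul ψ l w w' }

lemma act_nil (w : F) : act ψ w [] = [] := rfl

lemma act_cons (w : F) (x : X) (l : List X) :
    act ψ w (x :: l) = ((ψ w).p • x) :: act ψ ((ψ w).s x) l := rfl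

lemma act_length (w : F) (l : List X) : (act ψ w l).length = l.length := by
  induction l generalizing w with
  | nil => rfl
  | cons x l ih => simp [act_cons, ih]

lemma act_isPrefix (w : F) {l l' : List X} (h : l <+: l') : act ψ w l <+: act ψ w l' := by
  induction l generalizing w l' with
  | nil => exact List.nil_prefix
  | cons x l ih =>
    cases l' with
    | nil => simp at h
    | cons y l' =>
      rw [List.cons_prefix_cons] at h
      obtain ⟨rfl, h⟩ := h
      rw [act_cons, act_cons, List.cons_prefix_cons]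
      exact ⟨rfl, ih _ h⟩

variable {ψ}

lemma ker_smul {w : F} (h : w ∈ (act ψ).ker) (x : X) : (ψ w).p • x = x := by
  have : act ψ w [x] = [x] := by rw [MonoidHom.mem_ker.1 h]; rfl
  rw [act_cons] at this
  exact (List.cons.inj this).1

lemma ker_sec {w : F} (h : w ∈ (act ψ).ker) (x : X) : (ψ w).s x ∈ (act ψ).ker := by
  rw [MonoidHom.mem_ker]
  ext1 l
  have : act ψ w (x :: l) = x :: l := by rw [MonoidHom.mem_ker.1 h]; rfl
  rw [act_cons] at this
  exact (List.cons.inj this).2

lemma ker_coind (T : F → Prop) (h : ∀ w, T w → (ψ w).p = 1 ∧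
    ∀ x, T ((ψ w).s x) ∨ (ψ w).s x ∈ (act ψ).ker) {w : F} (hw : T w) : w ∈ (act ψ).ker := by
  rw [MonoidHom.mem_ker]
  ext1 l
  change act ψ w l = l
  induction l generalizing w with
  | nil => rfl
  | cons x l ih =>
    rw [act_cons, (h w hw).1, one_smul]
    rcases (h w hw).2 x with h1 | h1
    · rw [ih h1]
    · rw [MonoidHom.mem_ker.1 h1]; rfl

lemma ker_of_psi {w : F} (h : ψ w = 1) : w ∈ (act ψ).ker :=
  ker_coind (fun w => ψ w = 1) (fun w hw => ⟨by rw [hw]; rfl, fun x => Or.inr (by
    rw [hw]; exact one_mem _)⟩) h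

variable (ψ)

/-- The recursion with sections read as tree automorphisms. -/
def psiBar : F →* Wr P X (Equiv.Perm (List X)) := (Wr.map (act ψ)).comp ψ

lemma act_cons' (w : F) (x : X) (l : List X) :
    act ψ w (x :: l) = ((psiBar ψ w).p • x) :: (psiBar ψ w).s x l := rfl

lemma act_eq_of_psiBar {w w' : F} (h : psiBar ψ w = psiBar ψ w') : act ψ w = act ψ w' := by
  ext1 l
  cases l with
  | nil => rfl
  | cons x l => rw [act_cons', act_cons', h]

/-- Generated rigid level stabiliser. -/
def rist (k : ℕ) : Subgroup F :=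
  closure {w | ∃ v : List X, v.length = k ∧ ∀ u, ¬ v <+: u → act ψ w u = u}

variable {ψ} [DecidableEq X] [Finite X]

theorem level_trans [MulAction.IsPretransitive P X] (h1 : ∀ p, Wr.inl p ∈ (psiBar ψ).range)
    (h2 : ∀ y w, Wr.at y (act ψ w) ∈ (psiBar ψ).range) (v w : List X)
    (h : v.length = w.length) : ∃ g, act ψ g v = w := by
  induction v generalizing w with
  | nil => exact ⟨1, by rw [List.length_eq_zero_iff.1 h.symm]; rfl⟩
  | cons x v ih =>
    cases w with
    | nil => simp at h
    | cons y w =>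
      obtain ⟨u, rfl⟩ := ih w (by simpa using h)
      obtain ⟨p, rfl⟩ := MulAction.exists_smul_eq P x y
      obtain ⟨g₀, hg₀⟩ := h1 p
      obtain ⟨g₁, hg₁⟩ := h2 (p • x) u
      refine ⟨g₁ * g₀, ?_⟩
      rw [act_cons', map_mul, hg₀, hg₁]
      simp [Wr.at_s]

theorem rist_finiteIndex [Nonempty X] [FaithfulSMul P X]
    (h2 : ∀ y w, Wr.at y (act ψ w) ∈ (psiBar ψ).range) (k : ℕ) : (rist ψ k).FiniteIndex := by
  have key : ∀ k, ∀ w, (∀ l : List X, l.length = k → act ψ w l = l) → w ∈ rist ψ k := by
    intro k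
    induction k with
    | zero => exact fun w _ => subset_closure ⟨[], rfl, fun u hu => absurd List.nil_prefix hu⟩
    | succ k ih =>
      intro w hw
      obtain ⟨x₀⟩ := ‹Nonempty X›
      have hp : (ψ w).p = 1 := by
        refine eq_of_smul_eq_smul (α := X) fun x => ?_
        have := hw (x :: List.replicate k x₀) (by simp)
        rw [act_cons] at this
        rw [(List.cons.inj this).1, one_smul]
      have hs : ∀ x, (ψ w).s x ∈ rist ψ k := fun x => ih _ fun l hl => by
        have := hw (x :: l) (by simp [hl])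
        rw [act_cons] at this
        exact (List.cons.inj this).2
      have hat : ∀ y, rist ψ k ≤
          ((rist ψ (k + 1)).map (psiBar ψ)).comap ((Wr.at y).comp (act ψ)) := by
        intro y
        refine (closure_le _).2 ?_
        rintro u ⟨v, hv, hu⟩
        obtain ⟨g, hg⟩ := h2 y u
        refine ⟨g, subset_closure ⟨y :: v, by simp [hv], fun l hl => ?_⟩, hg⟩
        cases l with
        | nil => rfl
        | cons x l =>
          rw [act_cons', hg, Wr.at_p, one_smul, Wr.at_s]
          split_ifs with e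
          · subst e
            rw [hu l fun e' => hl (List.cons_prefix_cons.2 ⟨rfl, e'⟩)]
          · rfl
      have hmem : psiBar ψ w ∈ (rist ψ (k + 1)).map (psiBar ψ) := by
        rw [Wr.eq_inr (g := psiBar ψ w) hp]
        exact Wr.inr_mem _ fun y => hat y (hs y)
      obtain ⟨g, hg, e⟩ := hmem
      have e2 := act_eq_of_psiBar ψ e
      have : g⁻¹ * w ∈ rist ψ (k + 1) :=
        subset_closure ⟨List.replicate (k + 1) x₀, by simp, fun u _ => by
          rw [map_mul, map_inv, e2, inv_mul_cancel]; rfl⟩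
      simpa using mul_mem hg this
  let f : F →* Equiv.Perm {l : List X // l.length = k} :=
    MonoidHom.toHomPerm
      { toFun := fun w l => ⟨act ψ w l.1, by rw [act_length, l.2]⟩
        map_one' := funext fun l => Subtype.ext (actL_one ψ l.1)
        map_mul' := fun w w' => funext fun l => Subtype.ext (actL_mul ψ l.1 w w') }
  have : Finite {l : List X // l.length = k} := (List.finite_length_eq X k).to_subtype
  have hle : f.ker ≤ rist ψ k := fun w hw => key k w fun l hl => by
    have := DFunLike.congr_fun (MonoidHom.mem_ker.1 hw) ⟨l, hl⟩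
    exact congrArg Subtype.val this
  exact Subgroup.finiteIndex_of_le hle

end act

end Pool.Agent.Lib.MP_b611b5_al
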