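import Pool.Agent.Lib.MP_b611b5_al.Ring
import Pool.Agent.Lib.MP_b611b5_al.Tree

/-! The concrete self-similar group: alphabet, finite groups and wreath recursion. -/

set_option autoImplicit false
set_option linter.unusedSectionVars false

namespace Pool.Agent.Lib.MP_b611b5_al

open Subgroup
open scoped commutatorElement

noncomputable section

abbrev Slot := Fin 4
abbrev Item := Option Slot

/-- A loader: the side that is not masked, and the load. -/
structure Ldr : Type where
  o : Bool
  t : Slot → Item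

instance : Finite Ldr :=
  Finite.of_surjective (fun z : Bool × (Slot → Item) => Ldr.mk z.1 z.2) fun l => ⟨(l.o, l.t), rfl⟩

instance : DecidableEq Ldr := Classical.decEq _

abbrev Nm := Ldr × Bool

/-- Live cells of a type. -/
inductive Cell : Type
  | edge (σ : Bool) (ν : Nm) : Cell
  | wire (ν : Nm) (I : Item) : Cell

instance : Finite Cell :=
  Finite.of_surjective (fun z : (Bool × Nm) ⊕ (Nm × Item) =>
    z.elim (fun p => Cell.edge p.1 p.2) (fun p => Cell.wire p.1 p.2)) (by
      rintro (⟨σ, ν⟩ | ⟨ν, I⟩)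
      exacts [⟨Sum.inl (σ, ν), rfl⟩, ⟨Sum.inr (ν, I), rfl⟩])

abbrev Dig := Option Cell
abbrev Lab := Item → Dig

/-- The load of anchors and wires. -/
def ancL (I : Item) : Slot → Item := ![none, I, none, none]

/-- Which item each slot of a cell reads. -/
def load : Cell → Slot → Item
  | .edge _ (l, false) => l.t
  | .edge _ (_, true) => some
  | .wire _ I => ancL I

/-- Which digits a cell accepts. -/
def mask : Cell → Dig → Prop
  | .edge σ (l, false) => fun D => l.o = σ ∨ ∀ ν, D ≠ some (.edge σ ν)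
  | .edge σ (l, true) => fun D => ∃ δ, D = some (.edge σ (l, δ))
  | .wire _ _ => fun _ => True

/-- The label one level up. -/
def push (d : Cell) (l : Lab) : Lab
  | none => some d
  | some s => l (load d s)

/-- Occurring labels. -/
inductive Occ : Lab → Prop
  | top : Occ (fun _ => none)
  | step (d : Cell) (l : Lab) : Occ l → mask d (l none) → Occ (push d l)

abbrev OL := {l : Lab // Occ l}

lemma occ_none {l : Lab} (h : Occ l) (h0 : l none = none) : l = fun _ => none := by
  cases h with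
  | top => rfl
  | step d l _ _ => cases h0

lemma occ_some {l : Lab} (h : Occ l) {d : Cell} (h0 : l none = some d) :
    ∃ l', Occ l' ∧ mask d (l' none) ∧ l = push d l' := by
  cases h with
  | top => cases h0
  | step d' l h1 h2 =>
    have : d' = d := Option.some.inj h0
    subst this
    exact ⟨l, h1, h2, rfl⟩

abbrev IA := Fin 5 ⊕ (Bool × Nm)
abbrev NP := Fin 5 ⊕ (Fin 3 × Nm)

lemma fresh5 {β : Type} (a b c d : Fin 5 ⊕ β) : ∃ o : Fin 5,
    Sum.inl o ≠ a ∧ Sum.inl o ≠ b ∧ Sum.inl o ≠ c ∧ Sum.inl o ≠ d := by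
  classical
  by_contra h
  push Not at h
  have h1 : (Finset.univ.image (Sum.inl : Fin 5 → Fin 5 ⊕ β)) ⊆ {a, b, c, d} := by
    intro z hz
    obtain ⟨o, -, rfl⟩ := Finset.mem_image.1 hz
    have := h o
    simp only [Finset.mem_insert, Finset.mem_singleton]
    tauto
  have h2 := Finset.card_le_card h1
  rw [Finset.card_image_of_injective _ Sum.inl_injective] at h2
  have h3 : ({a, b, c, d} : Finset (Fin 5 ⊕ β)).card ≤ 4 := Finset.card_le_four
  simp at h2
  omega

/-- The shape of the small group. -/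
def ShA : Sh IA where
  Row a := ∀ ν, a ≠ Sum.inr (false, ν)
  Col b := ∀ ν, b ≠ Sum.inr (true, ν)
  fresh a b c d := by
    obtain ⟨o, h⟩ := fresh5 a b c d
    exact ⟨Sum.inl o, fun _ => Sum.inl_ne_inr, fun _ => Sum.inl_ne_inr, h⟩

/-- The distinguished indices. -/
def IsO (a : NP) : Prop := ∃ o, a = Sum.inl o

lemma isO_fresh (a b c d : NP) : ∃ o, IsO o ∧ o ≠ a ∧ o ≠ b ∧ o ≠ c ∧ o ≠ d := by
  obtain ⟨o, h⟩ := fresh5 a b c d
  exact ⟨Sum.inl o, ⟨o, rfl⟩, h⟩

/-- The shape of the root group. -/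
def ShP : Sh NP := fullSh IsO isO_fresh

lemma rtP {a b : NP} (h : a ≠ b) : ShP.Rt a b := ⟨trivial, trivial, h⟩

abbrev GA := EG ShA
abbrev GP := EG ShP
abbrev VV := NP → ZMod 2
abbrev XX := {v : VV // v ≠ 0}
abbrev KK := OL → GA

instance : DecidableEq XX := Classical.decEq _

lemma gp_zero (g : GP) : (g : Equiv.Perm VV) 0 = 0 :=
  fix_inv (π := MonoidHom.id _) (S := ShP) (fun _ _ _ => rfl) (fun _ h => h) (fun _ h => h) g.2
    fun _ _ => rfl

instance : MulAction GP XX where
  smul g x := ⟨(g : Equiv.Perm VV) x.1, fun h => x.2 ((g : Equiv.Perm VV).injective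
    (h.trans (gp_zero g).symm))⟩
  one_smul _ := rfl
  mul_smul _ _ _ := rfl

lemma smul_val (g : GP) (x : XX) : (g • x).1 = (g : Equiv.Perm VV) x.1 := rfl

instance : FaithfulSMul GP XX where
  eq_of_smul_eq_smul {g h} e := by
    refine Subtype.ext (Equiv.ext fun v => ?_)
    by_cases hv : v = 0
    · rw [hv, gp_zero, gp_zero]
    · exact congrArg Subtype.val (e ⟨v, hv⟩)

/-- Embedding of the indices of the small group for each type. -/
def emb (j : Fin 3) : IA → NP
  | .inl o => .inl o
  | .inr (true, ν) => .inr (j, ν)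
  | .inr (false, ν) => .inr (j + 1, ν)

lemma fin3_ne (j : Fin 3) : j ≠ j + 1 := by revert j; decide
lemma fin3_ne2 (j : Fin 3) : j ≠ j + 2 := by revert j; decide
lemma fin3_ne12 (j : Fin 3) : j + 1 ≠ j + 2 := by revert j; decide
lemma fin3_21 (j : Fin 3) : j + 2 + 1 = j := by revert j; decide
lemma fin3_12 (j : Fin 3) : j + 1 + 2 = j := by revert j; decide
lemma fin3_11 (j : Fin 3) : j + 1 + 1 = j + 2 := by revert j; decide
lemma fin3_22 (j : Fin 3) : j + 2 + 2 = j + 1 := by revert j; decide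
lemma fin3_cases (i j : Fin 3) : j = i ∨ j = i + 1 ∨ j = i + 2 := by revert i j; decide

lemma emb_inj (j : Fin 3) : Function.Injective (emb j) := by
  rintro (a | ⟨_ | _, a⟩) (b | ⟨_ | _, b⟩) h <;> simp_all [emb, fin3_ne, (fin3_ne j).symm]

lemma exists_r (j : Fin 3) : ∃ r : GA →* GP, ∀ a b, ShA.Rt a b →
    r (eg ShA a b) = eg ShP (emb j a) (emb j b) :=
  exists_hom
    { sq := fun a b h => eg_isSt.sq _ _ (rtP ((emb_inj j).ne h.2.2))
      comm := fun a b c d h h' h1 h2 => eg_isSt.comm _ _ _ _ (rtP ((emb_inj j).ne h.2.2))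
        (rtP ((emb_inj j).ne h'.2.2)) ((emb_inj j).ne h1) ((emb_inj j).ne h2)
      cm := fun a b c h h' h1 => eg_isSt.cm _ _ _ (rtP ((emb_inj j).ne h.2.2))
        (rtP ((emb_inj j).ne h'.2.2)) ((emb_inj j).ne h1) }

/-- Root action of each type. -/
def rr (j : Fin 3) : GA →* GP := (exists_r j).choose

lemma rr_eg (j : Fin 3) {a b : IA} (h : ShA.Rt a b) :
    rr j (eg ShA a b) = eg ShP (emb j a) (emb j b) := (exists_r j).choose_spec a b h

lemma rr_eg_val (j : Fin 3) {a b : IA} (h : ShA.Rt a b) :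
    (rr j (eg ShA a b) : Equiv.Perm VV) = tv (emb j a) (emb j b) := by
  rw [rr_eg j h, eg_val (rtP ((emb_inj j).ne h.2.2))]

lemma rr_restrict (j : Fin 3) (g : GA) (v : VV) :
    (rr j g : Equiv.Perm VV) v ∘ emb j = (g : Equiv.Perm (IA → ZMod 2)) (v ∘ emb j) := by
  induction g using EG_induction generalizing v with
  | mem a b h =>
    funext c
    rw [rr_eg_val j h, eg_val h, Function.comp_apply, tv_apply ((emb_inj j).ne h.2.2),
      tv_apply h.2.2]
    simp [(emb_inj j).eq_iff]
  | one => simp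
  | mul g h h1 h2 =>
    rw [map_mul, Subgroup.coe_mul, Subgroup.coe_mul, Equiv.Perm.mul_apply, Equiv.Perm.mul_apply,
      h1, h2]

lemma rr_inj (j : Fin 3) {g : GA} (h : rr j g = 1) : g = 1 := by
  refine Subtype.ext (Equiv.ext fun w => ?_)
  have := rr_restrict j g (Function.extend (emb j) w 0)
  rw [h, Function.extend_comp (emb_inj j)] at this
  rw [← this]
  exact Function.extend_comp (emb_inj j) w 0

lemma rr_fix (j : Fin 3) (g : GA) {v : VV} (h1 : ∀ o, v (.inl o) = 0)
    (h2 : ∀ ν, v (.inr (j + 1, ν)) = 0) : (rr j g : Equiv.Perm VV) v = v := by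
  induction g using EG_induction with
  | mem a b h =>
    rw [rr_eg_val j h]
    refine tv_fix _ ?_
    rcases b with b | ⟨_ | _, b⟩
    · exact h1 b
    · exact h2 b
    · exact absurd rfl (h.2.1 b)
  | one => simp
  | mul g h h1 h2 => rw [map_mul, Subgroup.coe_mul, Equiv.Perm.mul_apply, h2, h1]

lemma rr_coord (j : Fin 3) (g : GA) (v : VV) {i : Fin 3} (h : i ≠ j) (ν : Nm) :
    (rr j g : Equiv.Perm VV) v (.inr (i, ν)) = v (.inr (i, ν)) := by
  induction g using EG_induction generalizing v with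
  | mem a b hab =>
    rw [rr_eg_val j hab]
    refine tv_apply_ne ?_ _
    rcases a with a | ⟨_ | _, a⟩
    · simp [emb]
    · exact absurd rfl (hab.1 a)
    · simp [emb, h]
  | one => simp
  | mul g h h1 h2 => rw [map_mul, Subgroup.coe_mul, Equiv.Perm.mul_apply, h1, h2]

/-- Basis vectors as letters. -/
def bv (c : NP) : XX := ⟨Pi.single c 1, fun h => by simpa using congrFun h c⟩

lemma bv_inj : Function.Injective bv := fun c c' h => by
  by_contra e
  have := congrFun (congrArg Subtype.val h) c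
  simp [bv, e] at this

/-- Name of the anchor loader of an item. -/
def ancN (I : Item) : Nm := (⟨true, ancL I⟩, false)

/-- The letter of a cell of a given type. -/
def pt (j : Fin 3) : Cell → XX
  | .edge true ν => bv (.inr (j, ν))
  | .edge false ν => bv (.inr (j + 2, ν))
  | .wire ν I => ⟨Pi.single (.inr (j + 2, ν)) 1 + Pi.single (.inr (j, ancN I)) 1, fun h => by
      simpa [(fin3_ne2 j).symm] using congrFun h (.inr (j + 2, ν))⟩

lemma pt_O (j : Fin 3) (d : Cell) (o : Fin 5) : (pt j d).1 (.inl o) = 0 := by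
  rcases d with ⟨_ | _, ν⟩ | ⟨ν, I⟩ <;> simp [pt, bv]

lemma pt_blk (j : Fin 3) (d : Cell) (μ : Nm) : (pt j d).1 (.inr (j + 1, μ)) = 0 := by
  rcases d with ⟨_ | _, ν⟩ | ⟨ν, I⟩ <;> simp [pt, bv, fin3_ne12, (fin3_ne j).symm]

lemma rr_pt (j : Fin 3) (g : GA) (d : Cell) : rr j g • pt j d = pt j d :=
  Subtype.ext (rr_fix j g (pt_O j d) (pt_blk j d))

lemma ancN_inj : Function.Injective ancN := fun I I' h => by
  have := congrFun (congrArg (fun ν : Nm => ν.1.t) h) 1
  simpa [ancN, ancL] using this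

lemma pt_inj (j : Fin 3) : Function.Injective (pt j) := by
  have h2 := fin3_ne2 j
  have h2' := h2.symm
  rintro (⟨_ | _, ν⟩ | ⟨ν, I⟩) (⟨_ | _, μ⟩ | ⟨μ, J⟩) h
  · simpa using bv_inj h
  · simpa [h2'] using bv_inj h
  · simpa [pt, bv, h2, h2'] using congrFun (congrArg Subtype.val h) (.inr (j, ancN J))
  · simpa [h2] using bv_inj h
  · simpa using bv_inj h
  · simpa [pt, bv, h2, h2'] using congrFun (congrArg Subtype.val h) (.inr (j + 2, μ))
  · simpa [pt, bv, h2, h2'] using congrFun (congrArg Subtype.val h) (.inr (j, ancN I))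
  · simpa [pt, bv, h2, h2'] using congrFun (congrArg Subtype.val h) (.inr (j + 2, ν))
  · have e1 := congrFun (congrArg Subtype.val h) (.inr (j + 2, ν))
    have e2 := congrFun (congrArg Subtype.val h) (.inr (j, ancN I))
    by_cases h3 : ν = μ
    · by_cases h4 : I = J
      · rw [h3, h4]
      · simp [pt, h2, h2', ancN_inj.ne h4] at e2
    · simp [pt, h2, h2', h3] at e1

open Classical in
/-- The section map of a cell. -/
def sec (d : Cell) : KK →* KK where
  toFun k := fun l => if h : mask d (l.1 none) then k ⟨push d l.1, Occ.step d l.1 l.2 h⟩ else 1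
  map_one' := by funext l; simp
  map_mul' a b := by funext l; simp only [Pi.mul_apply]; split_ifs <;> simp

lemma sec_pos {d : Cell} {l : OL} (h : mask d (l.1 none)) (k : KK) :
    sec d k l = k ⟨push d l.1, Occ.step d l.1 l.2 h⟩ := dif_pos h

lemma sec_neg {d : Cell} {l : OL} (h : ¬ mask d (l.1 none)) (k : KK) : sec d k l = 1 := dif_neg h

/-- Indicator elements for a predicate on labels. -/
def indL (E : Lab → Prop) : GA →* KK := ind fun l : OL => E l.1

lemma sec_indL (d : Cell) (E : Lab → Prop) (a : GA) :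
    sec d (indL E a) = indL (fun l => mask d (l none) ∧ E (push d l)) a := by
  funext l
  by_cases h : mask d (l.1 none)
  · rw [sec_pos h]
    by_cases h' : E (push d l.1)
    · exact (ind_pos h' a).trans (ind_pos (E := fun l : OL => mask d (l.1 none) ∧ E (push d l.1))
        ⟨h, h'⟩ a).symm
    · exact (ind_neg h' a).trans (ind_neg (E := fun l : OL => mask d (l.1 none) ∧ E (push d l.1))
        (fun e => h' e.2) a).symm
  · rw [sec_neg h]
    exact (ind_neg (E := fun l : OL => mask d (l.1 none) ∧ E (push d l.1)) (fun e => h e.1) a).symm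

lemma indL_congr {E E' : Lab → Prop} (h : ∀ l, Occ l → (E l ↔ E' l)) : indL E = indL E' :=
  ind_congr fun l => h l.1 l.2

open Classical in
/-- The section map at a letter. -/
def secpt (j : Fin 3) (x : XX) : KK →* KK :=
  if h : ∃ d, pt j d = x then sec h.choose else 1

lemma secpt_pt (j : Fin 3) (d : Cell) : secpt j (pt j d) = sec d := by
  have h : ∃ d', pt j d' = pt j d := ⟨d, rfl⟩
  rw [secpt, dif_pos h, pt_inj j h.choose_spec]

lemma secpt_neg {j : Fin 3} {x : XX} (h : ∀ d, pt j d ≠ x) : secpt j x = 1 :=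
  dif_neg fun ⟨d, e⟩ => h d e

lemma secpt_smul (j : Fin 3) (g : GA) (x : XX) : secpt j (rr j g • x) = secpt j x := by
  by_cases h : ∃ d, pt j d = x
  · obtain ⟨d, rfl⟩ := h
    rw [rr_pt]
  · push Not at h
    rw [secpt_neg h, secpt_neg]
    intro d e
    refine h d ?_
    rw [← inv_smul_eq_iff, ← map_inv, rr_pt] at e
    exact e

/-- The top label. -/
def topL : OL := ⟨fun _ => none, Occ.top⟩

/-- The recursion on one finite group. -/
def psiK (j : Fin 3) : KK →* Wr GP XX KK where
  toFun k := ⟨rr j (k topL), fun x => secpt j x k⟩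
  map_one' := by ext <;> simp
  map_mul' a b := by ext <;> simp [secpt_smul]

abbrev FF := Monoid.CoprodI fun _ : Fin 3 => KK

/-- Inclusion of the finite group of a type. -/
def ofK (j : Fin 3) : KK →* FF := Monoid.CoprodI.of (M := fun _ : Fin 3 => KK) (i := j)

/-- The homomorphism from the free product given by three homomorphisms. -/
def lf {Γ : Type} [Group Γ] (κ : Fin 3 → KK →* Γ) : FF →* Γ := Monoid.CoprodI.lift κ

@[simp] lemma lf_of {Γ : Type} [Group Γ] (κ : Fin 3 → KK →* Γ) (j : Fin 3) (k : KK) :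
    lf κ (ofK j k) = κ j k := Monoid.CoprodI.lift_of κ k

lemma FF_ext {Γ : Type} [Group Γ] {f g : FF →* Γ} (h : ∀ j k, f (ofK j k) = g (ofK j k)) : f = g :=
  Monoid.CoprodI.ext_hom f g fun j => MonoidHom.ext (h j)

/-- The wreath recursion. -/
def psi : FF →* Wr GP XX FF := lf fun j => (Wr.map (ofK j)).comp (psiK j)

lemma psi_p (j : Fin 3) (k : KK) : (psi (ofK j k)).p = rr j (k topL) := by
  rw [psi, lf_of]; rfl

lemma psi_s (j : Fin 3) (k : KK) (x : XX) : (psi (ofK j k)).s x = ofK j (secpt j x k) := by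
  rw [psi, lf_of]; rfl

/-- Elements acting at the root only. -/
def topE (j : Fin 3) : GA →* FF := (ofK j).comp (indL fun l => l none = none)

lemma psi_top (j : Fin 3) (a : GA) : psi (topE j a) = Wr.inl (rr j a) := by
  ext x
  · exact congrArg (fun g : GP => (g : Equiv.Perm VV) x _) ((psi_p j _).trans
      (congrArg (rr j) (ind_pos (E := fun l : OL => l.1 none = none) rfl a)))
  · refine (psi_s j _ x).trans ?_
    by_cases h : ∃ d, pt j d = x
    · obtain ⟨d, rfl⟩ := h
      rw [secpt_pt, sec_indL, indL, ind_false (fun l h => by cases h.2), map_one]; rfl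
    · push Not at h
      rw [secpt_neg h]; simp

lemma psi_cell (j : Fin 3) (d : Cell) (k : KK) (hk : ∀ l : OL, l.1 none ≠ some d → k l = 1) :
    psi (ofK j k) = Wr.at (pt j d) (ofK j (sec d k)) := by
  refine Wr.ext ?_ (funext fun x => ?_)
  · rw [psi_p, hk topL (by simp [topL]), map_one]; rfl
  · rw [psi_s, Wr.at_s]
    split_ifs with e
    · rw [e, secpt_pt]
    · by_cases h : ∃ d', pt j d' = x
      · obtain ⟨d', rfl⟩ := h
        have : sec d' k = 1 := by
          funext l
          by_cases hm : mask d' (l.1 none)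
          · rw [sec_pos hm]
            exact hk _ fun e' => e (congrArg (pt j) (Option.some.inj e'))
          · exact sec_neg hm k
        rw [secpt_pt, this, map_one]
      · push Not at h
        rw [secpt_neg h]; simp

/-- The kernel of the action. -/
def NN : Subgroup FF := (act psi).ker

theorem faithful (j : Fin 3) {k : KK} (h : ofK j k ∈ NN) : k = 1 := by
  funext ⟨l, hl⟩
  induction hl generalizing k with
  | top =>
    refine rr_inj j (eq_of_smul_eq_smul (α := XX) fun x => ?_)
    have := ker_smul h x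
    rw [psi_p] at this
    rw [one_smul]; exact this
  | step d l hl hm ih =>
    have := ker_sec h (pt j d)
    rw [psi_s, secpt_pt] at this
    have h2 := ih this
    rw [sec_pos (l := ⟨l, hl⟩) hm] at h2
    exact h2

/-- Moving one letter to another inside a subgroup. -/
lemma move {H : Subgroup GP} (x x' : XX) (o c c' : NP) (hoc : o ≠ c) (hoc' : o ≠ c')
    (hx : x.1 o = 0) (hx' : x'.1 o = 0) (h1 : x.1 c = 1) (h1' : x'.1 c' = 1)
    (hc : eg ShP o c ∈ H) (hc' : eg ShP o c' ∈ H)
    (hw : ∀ a, x.1 a ≠ x'.1 a → eg ShP a o ∈ H) : ∃ g ∈ H, g • x = x' := by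
  obtain ⟨g, hg, hg'⟩ := add_vec (S := ShP) (H := H) o trivial (x.1 + x'.1) (fun a ha => by
    refine ⟨trivial, ?_, hw a ?_⟩
    · rintro rfl; simp [hx, hx'] at ha
    · intro e; rw [Pi.add_apply, e, z2_add_self] at ha; exact ha rfl)
  refine ⟨eg ShP o c' * g * eg ShP o c, mul_mem (mul_mem hc' hg) hc, Subtype.ext ?_⟩
  rw [mul_smul, mul_smul, smul_val, smul_val, smul_val, hg', eg_val (rtP hoc), eg_val (rtP hoc')]
  funext a
  have e1 : tv o c x.1 o = 1 := by rw [tv_apply_self hoc, hx, h1, zero_add]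
  rw [tv_apply hoc', e1]
  simp only [one_smul, Pi.add_apply, tv_apply hoc, if_neg hoc'.symm, h1, h1']
  by_cases e : a = o
  · subst e
    simp only [if_true, hx, hx']
    generalize x.1 c' = z; revert z; decide
  · simp only [if_neg e]
    generalize x.1 a = z; generalize x'.1 a = z'; revert z z'; decide

lemma trans_aux (c c' : NP) (hcc : c ≠ c') (y : XX) (b : NP) (hb : b ≠ c) (hy : y.1 b ≠ 0) :
    ∃ g : GP, g • bv c = bv c ∧ g • bv c' = y := by
  have hy1 : ∀ z : ZMod 2, z ≠ 0 → z = 1 := by decide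
  obtain ⟨g, -, hg⟩ := add_vec (S := ShP) (H := ⊤) c' trivial (Function.update y.1 c' 0)
    (fun a ha => ⟨trivial, by rintro rfl; simp at ha, trivial⟩)
  have e1 : g • bv c = bv c := Subtype.ext (by rw [smul_val, hg]; simp [bv, hcc.symm])
  by_cases h : y.1 c' = 0
  · have hbc : c' ≠ b := by rintro rfl; exact hy h
    refine ⟨eg ShP c' b * g, ?_, Subtype.ext ?_⟩
    · rw [mul_smul, e1]
      exact Subtype.ext (by rw [smul_val, eg_val (rtP hbc)]; exact tv_fix _ (by simp [bv, hb]))
    · rw [mul_smul, smul_val, smul_val, hg, eg_val (rtP hbc)]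
      funext a
      rw [tv_apply hbc]
      by_cases e : a = c'
      · subst e; simp [bv, h, hbc.symm, hy1 _ hy, z2_add_self]
      · simp [bv, e]
  · refine ⟨g, e1, Subtype.ext ?_⟩
    rw [smul_val, hg]
    funext a
    by_cases e : a = c'
    · subst e; simp [bv, hy1 _ h]
    · simp [bv, e]

lemma trans_one (c : NP) (y : XX) : ∃ g : GP, g • bv c = y := by
  obtain ⟨b, hb⟩ := Function.ne_iff.1 y.2
  obtain ⟨o, -, h1, h2, -, -⟩ := isO_fresh b c b c
  obtain ⟨g, -, hg⟩ := trans_aux o c h2 y b h1.symm hb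
  exact ⟨g, hg⟩

instance : MulAction.IsPretransitive GP XX where
  exists_smul_eq x y := by
    obtain ⟨g, rfl⟩ := trans_one (.inl 0) x
    obtain ⟨h, rfl⟩ := trans_one (.inl 0) y
    exact ⟨h * g⁻¹, by simp [mul_smul]⟩

lemma trans_two {c c' : NP} (hcc : c ≠ c') {y y' : XX} (h : y ≠ y') :
    ∃ g : GP, g • bv c = y ∧ g • bv c' = y' := by
  obtain ⟨g, rfl⟩ := trans_one c y
  have h1 : g⁻¹ • y' ≠ bv c := fun e => h (by rw [← e, smul_inv_smul])
  have : ∃ b, b ≠ c ∧ (g⁻¹ • y').1 b ≠ 0 := by
    by_contra h2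
    push Not at h2
    have hy1 : ∀ z : ZMod 2, z ≠ 0 → z = 1 := by decide
    by_cases h3 : (g⁻¹ • y').1 c = 0
    · exact (g⁻¹ • y').2 (funext fun b => by
        by_cases e : b = c
        · rw [e, h3]; rfl
        · exact h2 b e)
    · exact h1 (Subtype.ext (funext fun b => by
        by_cases e : b = c
        · rw [e, hy1 _ h3]; simp [bv]
        · rw [h2 b e]; simp [bv, e]))
  obtain ⟨b, hb, hb'⟩ := this
  obtain ⟨g', h3, h4⟩ := trans_aux c c' hcc _ b hb hb'
  exact ⟨g * g', by rw [mul_smul, h3], by rw [mul_smul, h4, smul_inv_smul]⟩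

end

end Pool.Agent.Lib.MP_b611b5_al
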