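import Mathlib

/-! Elementary amenable groups. -/

set_option autoImplicit false

namespace Pool.Agent.Lib.MP_b611b5_al

/-- The class of elementary amenable groups: the smallest class containing the finite groups and
the abelian groups that is closed under subgroups, quotients, extensions and directed unions. -/
inductive ElemAmenable : (H : Type) → [Group H] → Prop
  | finite (H : Type) [Group H] : Finite H → ElemAmenable H
  | abelian (H : Type) [Group H] : (∀ a b : H, a * b = b * a) → ElemAmenable H
  | sub (H K : Type) [Group H] [Group K] (f : H →* K) :
      Function.Injective f → ElemAmenable K → ElemAmenable H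
  | quot (H K : Type) [Group H] [Group K] (f : H →* K) :
      Function.Surjective f → ElemAmenable H → ElemAmenable K
  | ext (H : Type) [Group H] (N : Subgroup H) [N.Normal] :
      ElemAmenable N → ElemAmenable (H ⧸ N) → ElemAmenable H
  | union (H : Type) [Group H] (S : Set (Subgroup H)) :
      DirectedOn (· ≤ ·) S → (∀ h : H, ∃ K ∈ S, h ∈ K) → (∀ K ∈ S, ElemAmenable K) →
        ElemAmenable H

end Pool.Agent.Lib.MP_b611b5_al
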