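import Mathlib

/-! Commutation in free groups: centralisers are cyclic, and finitely many nontrivial normal
subgroups of a finite index subgroup meet nontrivially. -/

set_option autoImplicit false

namespace Pool.Agent.Lib.MP_b611b5_al

open Subgroup
open scoped commutatorElement

lemma fct_center {ι : Type} {i j : ι} (hij : i ≠ j) {z : FreeGroup ι}
    (h : ∀ m, Commute (FreeGroup.of m) z) : z = 1 := by
  classical
  by_contra hz
  have hw : z.toWord ≠ [] := fun e => hz (FreeGroup.toWord_eq_nil_iff.1 e)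
  obtain ⟨c, L, hL⟩ := List.exists_cons_of_ne_nil hw
  obtain ⟨m, hm⟩ : ∃ m, m ≠ c.1 := by
    by_cases e : i = c.1
    · exact ⟨j, fun e' => hij (e.trans e'.symm)⟩
    · exact ⟨i, e⟩
  have hr : FreeGroup.IsReduced (c :: L) := by
    rw [← hL]; exact FreeGroup.IsReduced.of_reduce_eq (FreeGroup.reduce_toWord z)
  have h1 : (FreeGroup.of m * z).toWord = (m, true) :: c :: L := by
    have : FreeGroup.of m * z = FreeGroup.mk ((m, true) :: c :: L) := by
      conv_lhs => rw [← FreeGroup.mk_toWord (x := z), hL]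
      exact FreeGroup.mul_mk (L₁ := [(m, true)])
    rw [this, FreeGroup.toWord_mk]
    exact FreeGroup.IsReduced.reduce_eq
      (FreeGroup.isReduced_cons_cons.2 ⟨fun e => absurd e hm, hr⟩)
  have h2 := FreeGroup.toWord_mul_sublist z (FreeGroup.of m)
  rw [← (h m).eq, h1, hL, FreeGroup.toWord_of] at h2
  have h3 := h2.eq_of_length (by simp)
  exact hm (congrArg Prod.fst (List.cons.inj h3).1)

lemma fct_cyc {H : Type} [Group H] [IsFreeGroup H] {z : H} (hz : z ≠ 1)
    (h : ∀ g, Commute g z) : IsCyclic H := by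
  let e := IsFreeGroup.toFreeGroup H
  rcases subsingleton_or_nontrivial (IsFreeGroup.Generators H) with hs | hs
  · rcases isEmpty_or_nonempty (IsFreeGroup.Generators H) with h0 | ⟨⟨i⟩⟩
    · exact absurd (e.injective (Subsingleton.elim _ _)) hz
    · let _ : Unique (IsFreeGroup.Generators H) := uniqueOfSubsingleton i
      exact isCyclic_of_surjective e.symm e.symm.surjective
  · obtain ⟨i, j, hij⟩ := hs
    refine absurd (e.injective ((fct_center hij fun m => ?_).trans (map_one e).symm)) hz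
    have := (h (e.symm (FreeGroup.of m))).map e
    rwa [e.apply_symm_apply] at this

variable {F : Type} [Group F] [IsFreeGroup F]

lemma fct_cent {z : F} (hz : z ≠ 1) :
    ∃ c : F, Commute c z ∧ ∀ a, Commute a z → ∃ n : ℤ, a = c ^ n := by
  have hm : ∀ a, Commute a z → a ∈ centralizer ({z} : Set F) := fun a h =>
    mem_centralizer_singleton_iff.2 h.eq
  have : IsCyclic (centralizer ({z} : Set F)) :=
    fct_cyc (z := ⟨z, hm z (Commute.refl z)⟩) (fun e => hz (congrArg Subtype.val e))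
      fun g => Subtype.ext (mem_centralizer_singleton_iff.1 g.2)
  obtain ⟨c, hc⟩ := this.exists_generator
  refine ⟨c.1, mem_centralizer_singleton_iff.1 c.2, fun a h => ?_⟩
  obtain ⟨n, hn⟩ := hc ⟨a, hm a h⟩
  exact ⟨n, (congrArg Subtype.val hn).symm⟩

lemma fct_trans {z a b : F} (hz : z ≠ 1) (ha : Commute a z) (hb : Commute b z) : Commute a b := by
  obtain ⟨c, -, hc⟩ := fct_cent hz
  obtain ⟨n, rfl⟩ := hc a ha
  obtain ⟨m, rfl⟩ := hc b hb
  exact Commute.zpow_zpow_self c n m

lemma fct_maln [IsMulTorsionFree F] {x s : F} (hx : x ≠ 1) (h : Commute (s * x * s⁻¹) x) :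
    Commute s x := by
  by_cases hs : s = 1
  · rw [hs]; exact Commute.one_left _
  obtain ⟨c, hc, hc'⟩ := fct_cent hx
  have hx' : s * x * s⁻¹ ≠ 1 := by simpa [mul_inv_eq_one] using hx
  have hx'' : s⁻¹ * x * s ≠ 1 := fun e => hx (by
    have : x = s * (s⁻¹ * x * s) * s⁻¹ := by group
    rw [this, e]; simp)
  have h' : Commute x (s⁻¹ * x * s) := by
    have := h.map (MulAut.conj s⁻¹)
    simpa [mul_assoc] using this
  obtain ⟨m, hm⟩ := hc' (s * c * s⁻¹) (fct_trans hx' (hc.conj s) h.symm)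
  obtain ⟨k, hk⟩ := hc' (s⁻¹ * c * s) (fct_trans hx'' (by simpa using hc.conj s⁻¹) h')
  have hc1 : c ≠ 1 := by
    rintro rfl
    obtain ⟨n, hn⟩ := hc' x (Commute.refl x)
    exact hx (by simpa using hn)
  have e : c ^ (m * k) = c ^ (1 : ℤ) := by
    rw [zpow_mul, ← hm, conj_zpow, ← hk]; group
  have hmk : m * k = 1 := by
    have e2 : c ^ (m * k - 1) = 1 := by rw [zpow_sub, e, mul_inv_cancel]
    have := (IsMulTorsionFree.zpow_eq_one_iff_right hc1).1 e2
    omega
  have hss : Commute (s * s) c := by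
    have hm2 : m * m = 1 := by
      rcases Int.eq_one_or_neg_one_of_mul_eq_one hmk with r | r <;> rw [r] <;> rfl
    have : s * s * c * (s * s)⁻¹ = c := by
      calc s * s * c * (s * s)⁻¹ = s * (s * c * s⁻¹) * s⁻¹ := by group
        _ = (s * c * s⁻¹) ^ m := by rw [conj_zpow, ← hm]
        _ = c := by rw [hm, ← zpow_mul, hm2, zpow_one]
    exact mul_inv_eq_iff_eq_mul.1 this
  have hs2 : s * s ≠ 1 := fun e => hs (by rwa [← pow_two, pow_eq_one_iff_left two_ne_zero] at e)
  have h3 : Commute s c := fct_trans hs2 ((Commute.refl s).mul_right (Commute.refl s)) hss.symm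
  exact fct_trans hc1 h3 hc.symm

lemma fct_conj [IsMulTorsionFree F] {a b : F} (hab : ¬ Commute a b) {S : Subgroup F}
    [S.FiniteIndex] {x y : F} (hx : x ≠ 1) (hy : y ≠ 1) :
    ∃ s ∈ S, ¬ Commute y (s * x * s⁻¹) := by
  by_contra h
  push Not at h
  have h0 : Commute x y := by simpa using (h 1 (one_mem _)).symm
  have h1 : ∀ s ∈ S, Commute s x := fun s hs => fct_maln hx (fct_trans hy (h s hs).symm h0)
  have h2 : ∀ g : F, g ≠ 1 → Commute g x := by
    intro g hg
    obtain ⟨n, hn, -, hn'⟩ := Subgroup.exists_pow_mem_of_index_ne_zero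
      (FiniteIndex.index_ne_zero (H := S)) g
    exact fct_trans ((fun e => hg ((pow_eq_one_iff_left hn.ne').1 e))) (Commute.self_pow g n) (h1 _ hn').symm
  have ha : a ≠ 1 := by rintro rfl; exact hab (Commute.one_left _)
  have hb : b ≠ 1 := by rintro rfl; exact hab (Commute.one_right _)
  exact hab (fct_trans hx (h2 a ha) (h2 b hb))

/-- Finitely many subgroups normalised by a finite index subgroup meet nontrivially. -/
theorem fct_inter [IsMulTorsionFree F] {a b : F} (hab : ¬ Commute a b) (S : Subgroup F)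
    [S.FiniteIndex] {ι : Type} [Finite ι] (K : ι → Subgroup F)
    (hK : ∀ i, ∀ s ∈ S, ∀ x ∈ K i, s * x * s⁻¹ ∈ K i) (hne : ∀ i, ∃ x ∈ K i, x ≠ 1) :
    ∃ y, y ≠ 1 ∧ ∀ i, y ∈ K i := by
  classical
  have pw : ∀ g : F, g ≠ 1 → ∃ n : ℕ, g ^ n ≠ 1 ∧ g ^ n ∈ S := fun g hg => by
    obtain ⟨n, hn, -, hn'⟩ := Subgroup.exists_pow_mem_of_index_ne_zero
      (FiniteIndex.index_ne_zero (H := S)) g
    exact ⟨n, (fun e => hg ((pow_eq_one_iff_left hn.ne').1 e)), hn'⟩
  have key : ∀ T : Finset ι, ∃ y, y ≠ 1 ∧ y ∈ S ∧ ∀ i ∈ T, y ∈ K i := by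
    intro T
    induction T using Finset.induction_on with
    | empty =>
      obtain ⟨n, h1, h2⟩ := pw a (by rintro rfl; exact hab (Commute.one_left _))
      exact ⟨_, h1, h2, by simp⟩
    | insert i T _ ih =>
      obtain ⟨y, hy, hyS, hyK⟩ := ih
      obtain ⟨x₀, hx₀, hx₀'⟩ := hne i
      obtain ⟨n, h1, h2⟩ := pw x₀ hx₀'
      obtain ⟨s, hs, hc⟩ := fct_conj hab (S := S) h1 hy
      have m1 : s * x₀ ^ n * s⁻¹ ∈ S := mul_mem (mul_mem hs h2) (inv_mem hs)
      have m2 : s * x₀ ^ n * s⁻¹ ∈ K i := hK i s hs _ (pow_mem hx₀ n)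
      generalize s * x₀ ^ n * s⁻¹ = x at hc m1 m2
      refine ⟨y * x * y⁻¹ * x⁻¹, fun e => hc (commutatorElement_eq_one_iff_commute.1 e),
        mul_mem (mul_mem (mul_mem hyS m1) (inv_mem hyS)) (inv_mem m1), fun j hj => ?_⟩
      rcases Finset.mem_insert.1 hj with rfl | hj
      · exact mul_mem (hK _ y hyS x m2) (inv_mem m2)
      · have := mul_mem (hyK j hj) (hK j x m1 _ (inv_mem (hyK j hj)))
        simpa only [mul_assoc] using this
  have := Fintype.ofFinite ι
  obtain ⟨y, h1, -, h2⟩ := key Finset.univ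
  exact ⟨y, h1, fun i => h2 i (Finset.mem_univ i)⟩

lemma fct_pos_inj {ι : Type} {l l' : List ι}
    (h : (l.map FreeGroup.of).prod = (l'.map FreeGroup.of).prod) : l = l' := by
  classical
  have e : ∀ l : List ι, (l.map FreeGroup.of).prod = FreeGroup.mk (l.map fun i => (i, true)) := by
    intro l
    induction l with
    | nil => rfl
    | cons i l ih =>
      rw [List.map_cons, List.prod_cons, ih]
      exact FreeGroup.mul_mk (L₁ := [(i, true)])
  have r : ∀ l : List ι, FreeGroup.IsReduced (l.map fun i => (i, true)) := fun l => by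
    rw [FreeGroup.IsReduced, List.isChain_map]
    exact List.Pairwise.isChain (List.pairwise_of_forall fun _ _ _ => rfl)
  have := congrArg FreeGroup.toWord h
  rw [e, e, FreeGroup.toWord_mk, FreeGroup.toWord_mk, (r l).reduce_eq, (r l').reduce_eq] at this
  exact List.map_injective_iff.2 (fun i j e => (Prod.ext_iff.1 e).1) this

lemma fct_not_comm : ¬ Commute (FreeGroup.of (0 : Fin 2)) (FreeGroup.of 1) := fun h => by
  have : ([0, 1] : List (Fin 2)) = [1, 0] := fct_pos_inj (by simpa using h.eq)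
  simp at this

end Pool.Agent.Lib.MP_b611b5_al
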