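import Pool.Agent.Lib.MP_b611b5_al.Root

/-! Identification of the cell groups after transport by the root group. -/

set_option autoImplicit false
set_option linter.unusedSectionVars false

namespace Pool.Agent.Lib.MP_b611b5_al

open Subgroup
open scoped commutatorElement

noncomputable section

variable {Γ : Type} [Group Γ] {f : FF →* Γ} {ρ : GP →* Γ}

/-- The subgroup of the root group generated by two types. -/
def PP (j j' : Fin 3) : Subgroup GP := (rr j).range ⊔ (rr j').range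

/-- Transport of the group of a type. -/
def cj (f : FF →* Γ) (ρ : GP →* Γ) (j : Fin 3) (h : GP) : KK →* Γ :=
  ((MulAut.conj (ρ h)).toMonoidHom.comp f).comp (ofK j)

lemma cj_apply (j : Fin 3) (h : GP) (k : KK) : cj f ρ j h k = ρ h * f (ofK j k) * (ρ h)⁻¹ := rfl

lemma cj_mul (j : Fin 3) (g h : GP) (k : KK) :
    cj f ρ j (g * h) k = ρ g * cj f ρ j h k * (ρ g)⁻¹ := by
  simp only [cj_apply, map_mul]; group

lemma psi_ind (j : Fin 3) (d : Cell) {E : Lab → Prop} (hE : ∀ l, E l → l none = some d) (a : GA) :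
    psi (ofK j (indL E a)) = Wr.at (pt j d) (ofK j (sec d (indL E a))) :=
  psi_cell j d _ fun l hl => ind_neg (E := fun l : OL => E l.1) (fun e => hl (hE _ e)) a

lemma adj (hf : HypH f) (hρ : ∀ j a, ρ (rr j a) = f (topE j a)) {j j' : Fin 3} (hj : j ≠ j')
    (t : Slot → Item) (ht : ∃ s, t s = none) {d d' : Cell} {E E' : Lab → Prop} (h1 : Fac t E)
    (h2 : Fac t E') (hE : ∀ l, E l → l none = some d) (hE' : ∀ l, E' l → l none = some d')
    (hs : ∀ l, Occ l → (mask d (l none) ∧ E (push d l) ↔ mask d' (l none) ∧ E' (push d' l)))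
    {g : GP} (hg : g ∈ PP j j') (hp : g • pt j d = pt j d') (a : GA) :
    cj f ρ j g (indL E a) = f (ofK j (indL E' a)) := by
  obtain ⟨U, hU, m1, m2, -⟩ := exists_good hf hj t ht
  let H : Subgroup GP :=
    { carrier := {g | ∃ w ∈ U, psi w = Wr.inl g ∧ f w = ρ g}
      mul_mem' := by
        rintro g g' ⟨w, hw, e1, e2⟩ ⟨w', hw', e1', e2'⟩
        exact ⟨w * w', mul_mem hw hw', by simp [e1, e1'], by simp [e2, e2']⟩
      one_mem' := ⟨1, one_mem _, by simp, by simp⟩
      inv_mem' := by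
        rintro g ⟨w, hw, e1, e2⟩
        exact ⟨w⁻¹, inv_mem hw, by simp [e1], by simp [e2]⟩ }
  have hH : PP j j' ≤ H := by
    refine sup_le ?_ ?_
    · rintro _ ⟨a, rfl⟩
      exact ⟨topE j a, m1 _ (fac_top ht) a, psi_top j a, (hρ j a).symm⟩
    · rintro _ ⟨a, rfl⟩
      exact ⟨topE j' a, m2 a, psi_top j' a, (hρ j' a).symm⟩
  obtain ⟨w, hw, e1, e2⟩ := hH hg
  rw [cj_apply, ← e2]
  refine RLhom hU hw ((ofK j).comp (indL E)) ((ofK j).comp (indL E')) (m1 E h1) (m1 E' h2)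
    (fun a => ?_) a
  simp only [MonoidHom.comp_apply]
  rw [psi_ind j d hE, psi_ind j d' hE', e1, Wr.conj_at, hp, sec_indL, sec_indL, indL_congr hs]

lemma stab (hf : HypH f) (hρ : ∀ j a, ρ (rr j a) = f (topE j a)) {j : Fin 3}
    (t : Slot → Item) (ht : ∃ s, t s = none) {ν : Nm} {E : Lab → Prop} (h1 : Fac t E)
    (hE : ∀ l, E l → l none = some (.edge true ν)) {g : GP}
    (hp : g • pt j (.edge true ν) = pt j (.edge true ν)) (a : GA) :
    cj f ρ j g (indL E a) = f (ofK j (indL E a)) := by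
  have key : g ∈ (centralizer {f (ofK j (indL E a))}).comap ρ := by
    have k1 : ∀ A B, A ≠ B → B ≠ .inr (j, ν) → (IsO A ∨ IsO B) →
        eg ShP A B ∈ (centralizer {f (ofK j (indL E a))}).comap ρ := by
      intro A B hAB hB hO
      obtain ⟨eA, eB⟩ := emb_tyy hO
      rw [mem_comap, mem_centralizer_singleton_iff]
      by_cases hj : j = tyy A B
      · rw [← rr_of_emb eA eB hAB, hρ, ← hj, topE, MonoidHom.comp_apply, ← map_mul, ← map_mul,
          ← map_mul, ← map_mul]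
        congr 2
        exact ind_commute' (fun l h1 h2 => by simp [hE _ h2] at h1) _ _
      · refine mul_inv_eq_iff_eq_mul.1 (adj hf hρ hj t ht h1 h1 hE hE (fun _ _ => Iff.rfl)
          (g := eg ShP A B) (mem_sup_right ⟨_, rr_of_emb eA eB hAB⟩) (Subtype.ext ?_) a)
        rw [smul_val, eg_val (rtP hAB)]
        exact tv_fix _ (by simp [pt, bv, hB])
    have hp' : (g : Equiv.Perm VV) (Pi.single (.inr (j, ν)) 1) = Pi.single (.inr (j, ν)) 1 :=
      congrArg Subtype.val hp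
    refine stab_gen (S := ShP) (fun _ => ⟨trivial, trivial⟩) (.inr (j, ν)) (fun A B hAB hB => ?_) g
      hp'
    obtain ⟨o, hoA, hoB, -, -⟩ := fresh5 A B A B
    rw [← eg_isSt.cm _ _ _ (rtP hoA.symm) (rtP hoB) hAB, commutatorElement_def]
    have m1 := k1 A (.inl o) hoA.symm Sum.inl_ne_inr (Or.inr ⟨o, rfl⟩)
    have m2 := k1 (.inl o) B hoB hB (Or.inl ⟨o, rfl⟩)
    exact mul_mem (mul_mem (mul_mem m1 m2) (inv_mem m1)) (inv_mem m2)
  rw [mem_comap, mem_centralizer_singleton_iff] at key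
  rw [cj_apply, key, mul_inv_cancel_right]

lemma col_mem (j : Fin 3) (o : Fin 5) (ν : Nm) :
    eg ShP (.inl o) (.inr (j + 1, ν)) ∈ (rr j).range :=
  ⟨_, rr_of_emb (j := j) rfl rfl Sum.inl_ne_inr⟩

lemma row_mem (j : Fin 3) (o : Fin 5) (ν : Nm) :
    eg ShP (.inr (j, ν)) (.inl o) ∈ (rr j).range :=
  ⟨_, rr_of_emb (j := j) rfl rfl Sum.inr_ne_inl⟩

/-- The anchor cell of an item. -/
def anc (I : Item) : Cell := .edge true (ancN I)

lemma move_next (j : Fin 3) (d : Cell) (I : Item) (μ : Nm) (h : (pt j d).1 (.inr (j, μ)) = 1) :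
    ∃ g ∈ PP j (j + 2), g • pt j d = pt j (anc I) := by
  have hc : ∀ μ, eg ShP (.inl 0) (.inr (j, μ)) ∈ PP j (j + 2) := fun μ => by
    have := col_mem (j + 2) 0 μ
    rw [fin3_21] at this
    exact mem_sup_right this
  refine move _ _ (.inl 0) (.inr (j, μ)) (.inr (j, ancN I)) Sum.inl_ne_inr Sum.inl_ne_inr
    (pt_O _ _ _) (pt_O _ _ _) h (by simp [pt, anc, bv]) (hc _) (hc _) ?_
  rintro (o | ⟨i, ν⟩) hne
  · simp [pt_O] at hne
  · rcases fin3_cases j i with rfl | rfl | rfl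
    · exact mem_sup_left (row_mem _ _ _)
    · simp [pt_blk] at hne
    · exact mem_sup_right (row_mem _ _ _)

lemma move_prev (j : Fin 3) (ν : Nm) (I : Item) :
    ∃ g ∈ PP j (j + 1), g • pt j (.edge false ν) = pt j (.wire ν I) := by
  have hc : eg ShP (.inl 0) (.inr (j + 2, ν)) ∈ PP j (j + 1) := by
    have := col_mem (j + 1) 0 ν
    rw [fin3_11] at this
    exact mem_sup_right this
  have h2 := (fin3_ne2 j).symm
  refine move _ _ (.inl 0) (.inr (j + 2, ν)) (.inr (j + 2, ν)) Sum.inl_ne_inr Sum.inl_ne_inr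
    (pt_O _ _ _) (pt_O _ _ _) (by simp [pt, bv]) (by simp [pt, h2]) hc hc ?_
  rintro (o | ⟨i, μ⟩) hne
  · simp [pt_O] at hne
  · rcases fin3_cases j i with rfl | rfl | rfl
    · exact mem_sup_left (row_mem _ _ _)
    · simp [pt_blk] at hne
    · simp [pt, bv, h2] at hne

/-- One slot condition at a cell. -/
def Ec (d : Cell) (s : Slot) (Z : Dig → Prop) (l : Lab) : Prop := l none = some d ∧ Z (l (some s))

/-- A condition on the first two slots at a cell. -/
def E2 (d : Cell) (Y Z : Dig → Prop) (l : Lab) : Prop :=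
  l none = some d ∧ Y (l (some 0)) ∧ Z (l (some 1))

/-- The load used for identifications. -/
def tS (s : Slot) : Slot → Item := ![none, some s, some 0, some 1]

lemma tS_none (s : Slot) : ∃ s', tS s s' = none := ⟨0, rfl⟩

lemma fac_Ec (d : Cell) (s : Slot) (Z : Dig → Prop) : Fac (tS s) (Ec d s Z) := by
  intro l l' h e
  have h0 : l none = l' none := h 0
  have h1 : l (some s) = l' (some s) := h 1
  exact ⟨h0 ▸ e.1, h1 ▸ e.2⟩

lemma fac_E2 (d : Cell) (s : Slot) (Y Z : Dig → Prop) : Fac (tS s) (E2 d Y Z) := by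
  intro l l' h e
  have h0 : l none = l' none := h 0
  have h1 : l (some 0) = l' (some 0) := h 2
  have h2 : l (some 1) = l' (some 1) := h 3
  exact ⟨h0 ▸ e.1, h1 ▸ e.2.1, h2 ▸ e.2.2⟩

/-- The base letter. -/
def x0 : XX := bv (.inl 0)

/-- A root element moving a letter to the base letter. -/
def toB (x : XX) : GP := (MulAction.exists_smul_eq GP x x0).choose

lemma toB_smul (x : XX) : toB x • x = x0 := (MulAction.exists_smul_eq GP x x0).choose_spec

/-- Anchor elements at the base letter. -/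
def An (f : FF →* Γ) (ρ : GP →* Γ) (j : Fin 3) (I : Item) (Y Z : Dig → Prop) (a : GA) : Γ :=
  cj f ρ j (toB (pt j (anc I))) (indL (E2 (anc I) Y Z) a)

lemma id_anc (hf : HypH f) (hρ : ∀ j a, ρ (rr j a) = f (topE j a)) (j : Fin 3) (I : Item)
    (Y Z : Dig → Prop) {h : GP} (hh : h • pt j (anc I) = x0) (a : GA) :
    cj f ρ j h (indL (E2 (anc I) Y Z) a) = An f ρ j I Y Z a := by
  have := stab hf hρ (j := j) (tS 0) (tS_none 0) (fac_E2 (anc I) 0 Y Z) (fun l e => e.1)
    (g := (toB (pt j (anc I)))⁻¹ * h) (by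
      change _ • pt j (anc I) = pt j (anc I)
      rw [mul_smul, hh, inv_smul_eq_iff, toB_smul]) a
  rw [An, cj_apply j (toB _), ← this, ← cj_mul, mul_inv_cancel_left]

lemma mask_anc (I : Item) (D : Dig) : mask (anc I) D := Or.inl rfl

lemma id_next (hf : HypH f) (hρ : ∀ j a, ρ (rr j a) = f (topE j a)) (j : Fin 3) (d : Cell)
    (μ : Nm) (hμ : (pt j d).1 (.inr (j, μ)) = 1) (s : Slot) {E : Lab → Prop} (h1 : Fac (tS s) E)
    (hE : ∀ l, E l → l none = some d) (I : Item) (Y Z : Dig → Prop)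
    (hs : ∀ l, mask d (l none) ∧ E (push d l) ↔ Y (l none) ∧ Z (l I))
    {h : GP} (hh : h • pt j d = x0) (a : GA) : cj f ρ j h (indL E a) = An f ρ j I Y Z a := by
  obtain ⟨g, hg, hp⟩ := move_next j d I μ hμ
  have := adj hf hρ (fin3_ne2 j) (tS s) (tS_none s) h1 (fac_E2 (anc I) s Y Z) hE (fun l e => e.1)
    (fun l _ => (hs l).trans ⟨fun e => ⟨mask_anc _ _, rfl, e⟩, fun e => e.2.2⟩) hg hp a
  rw [← id_anc hf hρ j I Y Z (h := h * g⁻¹) (by rw [mul_smul, ← hp, inv_smul_smul, hh]),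
    cj_apply j (h * g⁻¹), ← this, ← cj_mul, inv_mul_cancel_right]

theorem id_cell (hf : HypH f) (hρ : ∀ j a, ρ (rr j a) = f (topE j a)) (j : Fin 3) (d : Cell)
    (s : Slot) (Z : Dig → Prop) {h : GP} (hh : h • pt j d = x0) (a : GA) :
    cj f ρ j h (indL (Ec d s Z) a) = An f ρ j (load d s) (mask d) Z a := by
  have h2 := fin3_ne2 j
  rcases d with ⟨_ | _, ν⟩ | ⟨ν, I⟩
  · obtain ⟨g, hg, hp⟩ := move_prev j ν (load (.edge false ν) s)
    have := adj hf hρ (fin3_ne j) (tS s) (tS_none s) (fac_Ec (.edge false ν) s Z)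
      (fac_E2 (.wire ν (load (.edge false ν) s)) s (mask (.edge false ν)) Z)
      (fun l e => e.1) (fun l e => e.1)
      (fun l _ => ⟨fun e => ⟨trivial, rfl, e.1, e.2.2⟩, fun e => ⟨e.2.2.1, rfl, e.2.2.2⟩⟩) hg hp a
    rw [← id_next hf hρ j (.wire ν (load (.edge false ν) s)) (ancN (load (.edge false ν) s))
      (by simp [pt, h2]) s
      (fac_E2 (.wire ν (load (.edge false ν) s)) s (mask (.edge false ν)) Z) (fun l e => e.1)
      (load (.edge false ν) s) (mask (.edge false ν)) Z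
      (fun l => ⟨fun e => e.2.2, fun e => ⟨trivial, rfl, e⟩⟩)
      (h := h * g⁻¹) (by rw [mul_smul, ← hp, inv_smul_smul, hh]),
      cj_apply j (h * g⁻¹), ← this, ← cj_mul, inv_mul_cancel_right]
  · exact id_next hf hρ j _ ν (by simp [pt, bv]) s (fac_Ec _ s Z) (fun l e => e.1) _ _ Z
      (fun l => ⟨fun e => ⟨e.1, e.2.2⟩, fun e => ⟨e.1, rfl, e.2⟩⟩) hh a
  · exact id_next hf hρ j _ (ancN I) (by simp [pt, h2]) s (fac_Ec _ s Z) (fun l e => e.1) _ _ Z
      (fun l => ⟨fun e => ⟨e.1, e.2.2⟩, fun e => ⟨e.1, rfl, e.2⟩⟩) hh a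

lemma An_congr (j : Fin 3) (I : Item) {Y Y' Z : Dig → Prop} (h : ∀ D, Y D ↔ Y' D) (a : GA) :
    An f ρ j I Y Z a = An f ρ j I Y' Z a := by
  rw [show Y = Y' from funext fun D => propext (h D)]

/-- Basic elements at the base letter. -/
def Bs (f : FF →* Γ) (ρ : GP →* Γ) (j : Fin 3) (I : Item) (Z : Dig → Prop) (a : GA) : Γ :=
  An f ρ j I (fun _ => True) Z a

lemma id_free (hf : HypH f) (hρ : ∀ j a, ρ (rr j a) = f (topE j a)) (j : Fin 3) (σ : Bool)
    (t : Slot → Item) (s : Slot) (Z : Dig → Prop) {h : GP}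
    (hh : h • pt j (.edge σ (⟨σ, t⟩, false)) = x0) (a : GA) :
    cj f ρ j h (indL (Ec (.edge σ (⟨σ, t⟩, false)) s Z) a) = Bs f ρ j (t s) Z a :=
  (id_cell hf hρ j _ s Z hh a).trans (An_congr j _ (fun _ => iff_true_intro (Or.inl rfl)) a)

lemma Bs_stab (hf : HypH f) (hρ : ∀ j a, ρ (rr j a) = f (topE j a)) (j : Fin 3) (I : Item)
    (Z : Dig → Prop) (a : GA) {g : GP} (hg : g • x0 = x0) : Commute (ρ g) (Bs f ρ j I Z a) := by
  have := id_anc hf hρ j I (fun _ => True) Z (h := g * toB (pt j (anc I)))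
    (by rw [mul_smul, toB_smul, hg]) a
  rw [cj_mul] at this
  exact mul_inv_eq_iff_eq_mul.1 this

lemma Bs_cross_aux (hf : HypH f) (hρ : ∀ j a, ρ (rr j a) = f (topE j a)) {j j' : Fin 3}
    (hj : j' = j ∨ j' = j + 1) (I J : Item) (Z Z' : Dig → Prop) (a b : GA) {g : GP}
    (hg : g • x0 ≠ x0) : Commute (Bs f ρ j I Z a) (ρ g * Bs f ρ j' J Z' b * (ρ g)⁻¹) := by
  rcases hj with rfl | rfl
  · obtain ⟨h, h1, h2⟩ := trans_two (c := .inr (j', ancN I))
      (c' := .inr (j' + 2, (⟨false, ancL J⟩, false))) (by simp [fin3_ne2]) hg.symm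
    have e1 := id_free hf hρ j' true (ancL I) 1 Z (h := h) h1 a
    have e2 := id_free hf hρ j' false (ancL J) 1 Z' (h := g⁻¹ * h)
      (by rw [mul_smul, inv_smul_eq_iff]; exact h2) b
    change _ = Bs f ρ j' I Z a at e1
    change _ = Bs f ρ j' J Z' b at e2
    rw [← e1, ← e2, ← cj_mul, mul_inv_cancel_left]
    exact (ind_commute' (fun l h1 h2 => by have := h1.1.symm.trans h2.1; simp at this) _ _).map _
  · obtain ⟨h, h1, h2⟩ := trans_two (c := .inr (j, ancN I))
      (c' := .inr (j + 1, ancN J)) (by simp [fin3_ne]) hg.symm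
    have e1 := id_free hf hρ j true (ancL I) 1 Z (h := h) h1 a
    have e2 := id_free hf hρ (j + 1) true (ancL J) 1 Z' (h := g⁻¹ * h)
      (by rw [mul_smul, inv_smul_eq_iff]; exact h2) b
    change _ = Bs f ρ j I Z a at e1
    change _ = Bs f ρ (j + 1) J Z' b at e2
    rw [← e1, ← e2, ← cj_mul, mul_inv_cancel_left, cj_apply, cj_apply]
    refine Commute.map ?_ (MulAut.conj (ρ h))
    obtain ⟨U, hU, m1, -, m3⟩ := exists_good hf (fin3_ne j) (tS 1) (tS_none 1)
    have := RLhom hU (m1 _ (fac_Ec (anc I) 1 Z) a) ((ofK (j + 1)).comp (indL (Ec (anc J) 1 Z')))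
      ((ofK (j + 1)).comp (indL (Ec (anc J) 1 Z')))
      (m3 rfl _ (fac_Ec (anc J) 1 Z') fun l e ν => by simp [e.1, anc])
      (m3 rfl _ (fac_Ec (anc J) 1 Z') fun l e ν => by simp [e.1, anc])
      (fun b => by
        simp only [MonoidHom.comp_apply]
        rw [psi_ind j (anc I) (fun l e => e.1), psi_ind (j + 1) (anc J) (fun l e => e.1)]
        exact conj_of_comm (Wr.at_commute (bv_inj.ne (a₁ := .inr (j, ancN I))
          (a₂ := .inr (j + 1, ancN J)) (by simp [fin3_ne])) _ _)) b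
    exact mul_inv_eq_iff_eq_mul.1 this

lemma Bs_cross (hf : HypH f) (hρ : ∀ j a, ρ (rr j a) = f (topE j a)) (j j' : Fin 3)
    (I J : Item) (Z Z' : Dig → Prop) (a b : GA) {g : GP}
    (hg : g • x0 ≠ x0) : Commute (Bs f ρ j I Z a) (ρ g * Bs f ρ j' J Z' b * (ρ g)⁻¹) := by
  rcases fin3_cases j j' with e | e | e
  · exact Bs_cross_aux hf hρ (Or.inl e) I J Z Z' a b hg
  · exact Bs_cross_aux hf hρ (Or.inr e) I J Z Z' a b hg
  · have := Bs_cross_aux hf hρ (j := j') (j' := j) (Or.inr (by rw [e, fin3_21])) J I Z' Z b a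
      (g := g⁻¹) (fun e => hg (inv_smul_eq_iff.1 e).symm)
    have h2 := this.map (MulAut.conj (ρ g))
    simp only [MulAut.conj_apply, map_inv, inv_inv] at h2
    convert h2.symm using 1
    group

end

end Pool.Agent.Lib.MP_b611b5_al
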