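import Pool.Agent.Lib.MP_b611b5_al.Main

/-! The kernel of the action is normally generated by the relations inside the edge groups. -/

set_option autoImplicit false
set_option linter.unusedSectionVars false

namespace Pool.Agent.Lib.MP_b611b5_al

open Subgroup
open scoped commutatorElement

noncomputable section

/-- Edge letters. -/
def zpt (i : Fin 3) (ν : Nm) : XX := bv (.inr (i, ν))

lemma pt_ty (i : Fin 3) (σ : Bool) (ν : Nm) : pt (ty i σ) (.edge σ ν) = zpt i ν := by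
  cases σ
  · simp only [pt, ty, fin3_12]; rfl
  · rfl

/-- Blocks: the groups generated by two types. -/
def BB (m : Fin 3) : Subgroup FF := closure {w | ∃ j k, j ≠ m ∧ w = ofK j k}

lemma ofK_mem_BB {j m : Fin 3} (h : j ≠ m) (k : KK) : ofK j k ∈ BB m :=
  subset_closure ⟨j, k, h, rfl⟩

lemma range_le_BB {j m : Fin 3} (h : j ≠ m) : (ofK j).range ≤ BB m := by
  rintro _ ⟨k, rfl⟩; exact ofK_mem_BB h k

open Classical in
/-- The type seen by a block at a letter off its edge. -/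
def tyB (m : Fin 3) (x : XX) : Fin 3 := if ∃ ν, x.1 (.inr (m, ν)) ≠ 0 then m + 1 else m + 2

/-- Root elements of a block. -/
def PB (m : Fin 3) : Subgroup GP where
  carrier := {p | (∀ ν, p • zpt (m + 1) ν = zpt (m + 1) ν) ∧
    ∀ (x : XX) ν, (p • x).1 (.inr (m, ν)) = x.1 (.inr (m, ν))}
  mul_mem' := by
    rintro p q ⟨h1, h2⟩ ⟨h3, h4⟩
    exact ⟨fun ν => by rw [mul_smul, h3, h1], fun x ν => by rw [mul_smul, h2, h4]⟩
  one_mem' := ⟨fun _ => one_smul _ _, fun _ _ => by rw [one_smul]⟩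
  inv_mem' := by
    rintro p ⟨h1, h2⟩
    exact ⟨fun ν => by rw [inv_smul_eq_iff, h1], fun x ν => by rw [← h2 (p⁻¹ • x), smul_inv_smul]⟩

lemma PB_tyB {m : Fin 3} {p : GP} (h : p ∈ PB m) (x : XX) : tyB m (p • x) = tyB m x := by
  have e : ∀ ν, (p • x).1 (.inr (m, ν)) = x.1 (.inr (m, ν)) := h.2 x
  unfold tyB
  rw [show (∃ ν, (p • x).1 (.inr (m, ν)) ≠ 0) = ∃ ν, x.1 (.inr (m, ν)) ≠ 0 by simp only [e]]

lemma PB_edge {m : Fin 3} {p : GP} (h : p ∈ PB m) {x : XX} (hx : ∀ ν, x ≠ zpt (m + 1) ν) (ν : Nm) :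
    p • x ≠ zpt (m + 1) ν := fun e => hx ν (by
  rw [← h.1 ν] at e; exact MulAction.injective p e)

/-- Wreath elements of a block. -/
def WB (m : Fin 3) : Subgroup (Wr GP XX FF) where
  carrier := {g | g.p ∈ PB m ∧ (∀ x, g.s x ∈ BB m) ∧
    ∀ x, (∀ ν, x ≠ zpt (m + 1) ν) → g.s x ∈ (ofK (tyB m x)).range}
  mul_mem' := by
    rintro g h ⟨h1, h2, h3⟩ ⟨h4, h5, h6⟩
    refine ⟨mul_mem h1 h4, fun x => mul_mem (h2 _) (h5 _), fun x hx => mul_mem ?_ (h6 x hx)⟩
    rw [← PB_tyB h4]; exact h3 _ (PB_edge h4 hx)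
  one_mem' := ⟨one_mem _, fun _ => one_mem _, fun _ _ => one_mem _⟩
  inv_mem' := by
    rintro g ⟨h1, h2, h3⟩
    refine ⟨inv_mem h1, fun x => inv_mem (h2 _), fun x hx => inv_mem ?_⟩
    rw [← PB_tyB (inv_mem h1)]; exact h3 _ (PB_edge (inv_mem h1) hx)

lemma tyB_pt {j m : Fin 3} (h : j ≠ m) (d : Cell) (hx : ∀ ν, pt j d ≠ zpt (m + 1) ν) :
    tyB m (pt j d) = j := by
  have h1 := fin3_ne m
  have h2 := fin3_ne2 m
  rcases fin3_cases m j with rfl | rfl | rfl
  · exact absurd rfl h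
  · rw [tyB, if_pos]
    rcases d with ⟨_ | _, ν⟩ | ⟨ν, I⟩
    · exact ⟨ν, by simp [pt, bv, fin3_12]⟩
    · exact absurd rfl (hx ν)
    · exact ⟨ν, by simp [pt, fin3_12, h1]⟩
  · rw [tyB, if_neg]
    rintro ⟨μ, hμ⟩
    rcases d with ⟨_ | _, ν⟩ | ⟨ν, I⟩
    · exact hx ν (by simp only [pt, fin3_22]; rfl)
    · simp [pt, bv, h2] at hμ
    · simp [pt, fin3_22, h1, h2] at hμ

lemma psi_BB {m : Fin 3} {w : FF} (hw : w ∈ BB m) : psi w ∈ WB m := by
  refine (closure_le ((WB m).comap psi)).2 ?_ hw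
  rintro _ ⟨j, k, hj, rfl⟩
  refine ⟨?_, fun x => ?_, fun x hx => ?_⟩
  · rw [psi_p]
    refine ⟨fun ν => ?_, fun x ν => rr_coord j _ _ hj.symm ν⟩
    rcases fin3_cases m j with rfl | rfl | rfl
    · exact absurd rfl hj
    · exact rr_pt _ _ (.edge true ν)
    · have := rr_pt (m + 2) (k topL) (.edge false ν)
      simp only [pt, fin3_22] at this
      exact this
  · rw [psi_s]; exact ofK_mem_BB hj _
  · rw [psi_s]
    by_cases h : ∃ d, pt j d = x
    · obtain ⟨d, rfl⟩ := h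
      rw [tyB_pt hj d hx]; exact ⟨_, rfl⟩
    · push Not at h
      rw [secpt_neg h]; simp

lemma tyB_zpt {m m' : Fin 3} (h : m ≠ m') (ν : Nm) : tyB m (zpt (m' + 1) ν) ≠ m' := by
  rcases fin3_cases m' m with rfl | rfl | rfl
  · exact absurd rfl h
  · rw [tyB, if_pos ⟨ν, by simp [zpt, bv]⟩, fin3_11]; exact (fin3_ne2 m').symm
  · rw [tyB, if_neg (by simp [zpt, bv, (fin3_ne12 m').symm]), fin3_22]; exact (fin3_ne m').symm

lemma zpt_ne {i i' : Fin 3} (h : i ≠ i') (ν ν' : Nm) : zpt i ν ≠ zpt i' ν' :=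
  bv_inj.ne (by simp [h])

lemma merge {m m' : Fin 3} {b b' : FF} (hb : b ∈ BB m) (hb' : b' ∈ BB m') (x : XX) :
    ∃ m'', (psi (b * b')).s x ∈ BB m'' := by
  by_cases hm : m = m'
  · subst hm; exact ⟨m, (psi_BB (mul_mem hb hb')).2.1 x⟩
  obtain ⟨h1, h2, h3⟩ := psi_BB hb
  obtain ⟨h4, h5, h6⟩ := psi_BB hb'
  rw [map_mul, Wr.mul_s]
  by_cases hx : ∃ ν, x = zpt (m' + 1) ν
  · obtain ⟨ν, rfl⟩ := hx
    refine ⟨m', mul_mem ?_ (h5 _)⟩
    rw [h4.1]
    exact range_le_BB (tyB_zpt hm ν) (h3 _ fun μ => zpt_ne (by simpa using Ne.symm hm) _ _)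
  push Not at hx
  by_cases hy : ∃ ν, (psi b').p • x = zpt (m + 1) ν
  · obtain ⟨ν, hν⟩ := hy
    refine ⟨m, mul_mem (h2 _) (range_le_BB ?_ (h6 x hx))⟩
    rw [← PB_tyB h4, hν]
    exact tyB_zpt (Ne.symm hm) ν
  push Not at hy
  have : ∀ j j' : Fin 3, ∃ n, j ≠ n ∧ j' ≠ n := by decide
  obtain ⟨n, hn, hn'⟩ := this (tyB m ((psi b').p • x)) (tyB m' x)
  exact ⟨n, mul_mem (range_le_BB hn (h3 _ hy)) (range_le_BB hn' (h6 x hx))⟩

lemma sec_closure {S : Set FF} {z : XX} {T : Subgroup FF}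
    (h : ∀ w ∈ S, (psi w).p • z = z ∧ (psi w).s z ∈ T) {w : FF} (hw : w ∈ closure S) :
    (psi w).p • z = z ∧ (psi w).s z ∈ T := by
  induction hw using closure_induction with
  | mem w hw => exact h w hw
  | one => simp
  | mul w w' _ _ h1 h2 =>
    rw [map_mul, Wr.mul_p, Wr.mul_s, mul_smul, h2.1]
    exact ⟨h1.1, mul_mem h1.2 h2.2⟩
  | inv w _ h1 =>
    have : (psi w).p⁻¹ • z = z := by rw [inv_smul_eq_iff, h1.1]
    rw [map_inv, Wr.inv_p, Wr.inv_s, this]
    exact ⟨rfl, inv_mem h1.2⟩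

lemma ty_ne (i : Fin 3) (σ : Bool) : ty i σ ≠ i + 2 := by
  cases σ
  · exact fin3_ne12 i
  · exact fin3_ne2 i

lemma FE_le_BB (i : Fin 3) (ν : Nm) : FE i ν ≤ BB (i + 2) := by
  refine (closure_le _).2 ?_
  rintro _ ⟨σ, k, rfl⟩
  exact ofK_mem_BB (ty_ne i σ) _

lemma sec_edge {i : Fin 3} {w : FF} (hw : w ∈ BB (i + 2)) (ν : Nm) :
    (psi w).s (zpt i ν) ∈ FE i ν := by
  refine (sec_closure ?_ hw).2
  rintro _ ⟨j, k, hj, rfl⟩
  have : ∃ σ, j = ty i σ := by
    rcases fin3_cases i j with rfl | rfl | rfl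
    exacts [⟨true, rfl⟩, ⟨false, rfl⟩, absurd rfl hj]
  obtain ⟨σ, rfl⟩ := this
  rw [← pt_ty i σ, psi_p, psi_s, secpt_pt]
  exact ⟨rr_pt _ _ _, subset_closure ⟨σ, k, rfl⟩⟩

lemma sec_sec_one {d d' : Cell} (h : ¬ mask d' (some d)) (k : KK) : sec d (sec d' k) = 1 := by
  funext l
  by_cases hm : mask d (l.1 none)
  · rw [sec_pos hm]; exact sec_neg h k
  · exact sec_neg hm _

lemma loader_sec {i : Fin 3} {L : Ldr} {w : FF} (hw : w ∈ FE i (L, false)) (x : XX) :
    ∃ j, (psi w).s x ∈ (ofK j).range := by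
  by_cases hx : ∃ ν, x = zpt i ν
  · obtain ⟨ν, rfl⟩ := hx
    refine ⟨ty i L.o, (sec_closure ?_ hw).2⟩
    rintro _ ⟨σ, k, rfl⟩
    rw [← pt_ty i σ, psi_p, psi_s, secpt_pt]
    refine ⟨rr_pt _ _ _, ?_⟩
    by_cases h : L.o = σ
    · rw [h]; exact ⟨_, rfl⟩
    · rw [sec_sec_one (d := .edge σ ν) (d' := .edge σ (L, false))
        (fun e => Or.elim e h fun e => e ν rfl), map_one]
      exact one_mem _
  · push Not at hx
    exact ⟨_, (psi_BB (FE_le_BB i _ hw)).2.2 x (by rwa [fin3_21])⟩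

lemma p_of_NN {w : FF} (h : w ∈ NN) : (psi w).p = 1 :=
  eq_of_smul_eq_smul (α := XX) fun x => by rw [ker_smul h x, one_smul]

lemma range_NN {j : Fin 3} {w : FF} (h : w ∈ (ofK j).range) (h' : w ∈ NN) : w = 1 := by
  obtain ⟨k, rfl⟩ := h
  rw [faithful j h', map_one]

lemma loader_psi {i : Fin 3} {L : Ldr} {w : FF} (hw : w ∈ FE i (L, false)) (h : w ∈ NN) :
    psi w = 1 := by
  refine Wr.ext (p_of_NN h) (funext fun x => ?_)
  obtain ⟨j, hj⟩ := loader_sec hw x
  exact range_NN hj (ker_sec h x)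

lemma sec_pers (σ : Bool) (L : Ldr) (k : KK) :
    sec (.edge σ (L, true)) (sec (.edge σ (L, true)) k) = sec (.edge σ (L, true)) k := by
  funext l
  by_cases hm : mask (.edge σ (L, true)) (l.1 none)
  · rw [sec_pos hm, sec_pos hm, sec_pos (d := .edge σ (L, true)) (Exists.intro true rfl)]
    congr 2
  · rw [sec_neg hm, sec_neg hm]

lemma sec_lift (σ : Bool) (L : Ldr) (k : KK) : ∃ k',
    sec (.edge σ (L, false)) (sec (.edge σ (L, true)) k') = sec (.edge σ (L, false)) k := by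
  classical
  refine ⟨fun m => if h : Occ (Function.update m.1 none (some (.edge σ (L, false)))) then
    k ⟨_, h⟩ else 1, funext fun l => ?_⟩
  by_cases hm : mask (.edge σ (L, false)) (l.1 none)
  · rw [sec_pos hm, sec_pos hm, sec_pos (d := .edge σ (L, true)) (Exists.intro false rfl)]
    have e : Function.update (push (.edge σ (L, true)) (push (.edge σ (L, false)) l.1)) none
        (some (.edge σ (L, false))) = push (.edge σ (L, false)) l.1 := by
      funext I
      cases I with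
      | none => rfl
      | some s => rw [Function.update_of_ne (by simp)]; rfl
    have h : Occ (Function.update (push (.edge σ (L, true)) (push (.edge σ (L, false)) l.1)) none
        (some (.edge σ (L, false)))) := by rw [e]; exact Occ.step _ _ l.2 hm
    rw [dif_pos h]
    congr 2
  · rw [sec_neg hm, sec_neg hm]

lemma bank_p {i : Fin 3} {L : Ldr} {q : FF} (hq : q ∈ FE i (L, true)) :
    (psi q).p = 1 ∧ (psi q).s (zpt i (L, true)) = q := by
  induction hq using closure_induction with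
  | mem w hw =>
    obtain ⟨σ, k, rfl⟩ := hw
    rw [psi_p, psi_s, ← pt_ty i σ, secpt_pt, sec_pers, sec_neg, map_one]
    · exact ⟨rfl, rfl⟩
    · rintro ⟨δ, h⟩; cases h
  | one => simp
  | mul w w' _ _ h1 h2 => simp [h1, h2]
  | inv w _ h1 => simp [h1]

lemma bank_other {i : Fin 3} {L : Ldr} {q : FF} (hq : q ∈ FE i (L, true)) {z : XX}
    (hz : ∀ δ, z ≠ zpt i (L, δ)) : (psi q).s z = 1 := by
  refine mem_bot.1 (sec_closure ?_ hq).2
  rintro _ ⟨σ, k, rfl⟩
  refine ⟨by rw [(bank_p (subset_closure ⟨σ, k, rfl⟩)).1, one_smul], ?_⟩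
  rw [psi_s]
  by_cases h : ∃ d, pt (ty i σ) d = z
  · obtain ⟨d, rfl⟩ := h
    rw [secpt_pt, sec_sec_one, map_one]
    · exact one_mem _
    · rintro ⟨δ, h⟩
      exact hz δ (by rw [Option.some.inj h, pt_ty])
  · push Not at h
    rw [secpt_neg h]; simp

lemma bank_lift {i : Fin 3} {L : Ldr} (δ : Bool) {w : FF} (hw : w ∈ FE i (L, δ)) :
    ∃ q ∈ FE i (L, true), (psi q).s (zpt i (L, δ)) = w := by
  cases δ
  swap
  · exact ⟨w, hw, (bank_p hw).2⟩
  induction hw using closure_induction with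
  | mem w hw =>
    obtain ⟨σ, k, rfl⟩ := hw
    obtain ⟨k', e⟩ := sec_lift σ L k
    exact ⟨_, subset_closure ⟨σ, k', rfl⟩, by rw [psi_s, ← pt_ty i σ, secpt_pt, e]⟩
  | one => exact ⟨1, one_mem _, by simp⟩
  | mul w w' _ _ h1 h2 =>
    obtain ⟨q, hq, rfl⟩ := h1
    obtain ⟨q', hq', rfl⟩ := h2
    exact ⟨q * q', mul_mem hq hq', by simp [(bank_p hq').1]⟩
  | inv w _ h1 =>
    obtain ⟨q, hq, rfl⟩ := h1
    exact ⟨q⁻¹, inv_mem hq, by simp [(bank_p hq).1]⟩

lemma bank_NN {i : Fin 3} {L : Ldr} {q : FF} (hq : q ∈ FE i (L, true))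
    (h : (psi q).s (zpt i (L, false)) ∈ NN) : q ∈ NN := by
  refine ker_coind (fun w => w = q) (fun w hw => ?_) rfl
  subst hw
  refine ⟨(bank_p hq).1, fun x => ?_⟩
  by_cases h0 : x = zpt i (L, false)
  · rw [h0]; exact Or.inr h
  by_cases h1 : x = zpt i (L, true)
  · rw [h1]; exact Or.inl (bank_p hq).2
  · rw [bank_other hq (by rintro (_ | _) <;> assumption)]; exact Or.inr (one_mem _)

lemma zpt_ft (i : Fin 3) (L : Ldr) : zpt i (L, false) ≠ zpt i (L, true) := bv_inj.ne (by simp)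

lemma bank_psi {i : Fin 3} {L : Ldr} {q : FF} (hq : q ∈ FE i (L, true)) :
    psi q = Wr.at (zpt i (L, false)) ((psi q).s (zpt i (L, false))) *
      Wr.at (zpt i (L, true)) ((psi q).s (zpt i (L, true))) := by
  refine Wr.ext (by simp [(bank_p hq).1]) (funext fun x => ?_)
  simp only [Wr.mul_s, Wr.at_p, one_smul, Wr.at_s]
  by_cases h0 : x = zpt i (L, false)
  · subst h0; simp [zpt_ft]
  by_cases h1 : x = zpt i (L, true)
  · subst h1; simp [h0]
  · rw [bank_other hq (by rintro (_ | _) <;> assumption)]; simp [h0, h1]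

/-- The section map on a bank. -/
def bankSec (i : Fin 3) (L : Ldr) (z : XX) : FE i (L, true) →* FF where
  toFun q := (psi q.1).s z
  map_one' := by simp
  map_mul' q q' := by simp [(bank_p q'.2).1]

variable {Γ : Type} [Group Γ]

lemma FE_perfect {i : Fin 3} {ν : Nm} (c : FE i ν →* Γ) (h : ∀ q q', Commute (c q) (c q'))
    (q : FE i ν) : c q = 1 := by
  obtain ⟨q, hq⟩ := q
  induction hq using closure_induction with
  | mem w hw =>
    obtain ⟨σ, k, rfl⟩ := hw
    exact K_perfect (c.comp (((ofK (ty i σ)).comp (sec (.edge σ ν))).codRestrict (FE i ν)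
      fun k => subset_closure ⟨σ, k, rfl⟩)) (fun _ _ => h _ _) k
  | one => exact map_one c
  | mul w w' hw hw' h1 h2 => exact (map_mul c ⟨w, hw⟩ ⟨w', hw'⟩).trans (by rw [h1, h2, one_mul])
  | inv w hw h1 => exact (map_inv c ⟨w, hw⟩).trans (by rw [h1, inv_one])

lemma split {Q : Type} [Group Q] (hQ : ∀ c : Q →* Γ, (∀ q q', Commute (c q) (c q')) → ∀ q, c q = 1)
    (F μ μ' : Q →* Γ) (hc : ∀ q q', Commute (μ q) (μ' q')) (hF : ∀ q, F q = μ q * μ' q) (r : Q)
    (h : ∀ g, Commute (F r) (F g)) (g : Q) : Commute (μ r) (μ g) := by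
  have k1 : ∀ g, μ ⁅r, g⁆ = μ' ⁅r, g⁆⁻¹ := fun g => by
    rw [map_inv, eq_inv_iff_mul_eq_one, ← hF, map_commutatorElement, (h g).commutator_eq]
  have k2 : ∀ g q, Commute (μ q) (μ ⁅r, g⁆) := fun g q => by rw [k1]; exact hc _ _
  let c : Q →* Γ := MonoidHom.mk' (fun g => μ ⁅r, g⁆) fun g g' => by
    rw [cm_mul_right, map_mul, map_mul, map_mul, map_inv, conj_of_comm (k2 g' g)]
  have := hQ c (fun q q' => k2 _ _) g
  rw [← commutatorElement_eq_one_iff_commute, ← map_commutatorElement]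
  exact this

variable {f : FF →* Γ} {Φ : Wr GP XX FF →* Γ}

lemma at_conj (Φ : Wr GP XX FF →* Γ) (y z : XX) : ∃ γ : Γ, ∀ w,
    Φ (Wr.at y w) = γ * Φ (Wr.at z w) * γ⁻¹ := by
  obtain ⟨p, rfl⟩ := MulAction.exists_smul_eq GP z y
  exact ⟨Φ (Wr.inl p), fun w => by rw [← Wr.conj_at]; simp⟩

theorem hypH_at (hf : HypH f) (hΦ : ∀ w, Φ (psi w) = f w) (y : XX) :
    HypH (Φ.comp (Wr.at y)) := by
  rintro i ⟨L, δ⟩ r' hr' hN g' hg'
  obtain ⟨γ, hγ⟩ := at_conj Φ y (zpt i (L, δ))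
  simp only [MonoidHom.comp_apply, hγ]
  refine Commute.conj ?_ γ
  obtain ⟨r, hr, rfl⟩ := bank_lift δ hr'
  obtain ⟨g, hg, rfl⟩ := bank_lift δ hg'
  have hrN : r ∈ NN := by
    cases δ
    · exact bank_NN hr hN
    · rwa [(bank_p hr).2] at hN
  let μ : Bool → FE i (L, true) →* Γ := fun δ =>
    (Φ.comp (Wr.at (zpt i (L, δ)))).comp (bankSec i L (zpt i (L, δ)))
  have hc : ∀ q q', Commute (μ false q) (μ true q') := fun q q' =>
    (Wr.at_commute (zpt_ft i L) _ _).map Φ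
  have hF : ∀ q : FE i (L, true), (f.comp (FE i (L, true)).subtype) q = μ false q * μ true q :=
    fun q => by
      change f q.1 = Φ _ * Φ _
      rw [← hΦ, bank_psi q.2, map_mul]; rfl
  have h : ∀ g : FE i (L, true), Commute ((f.comp (FE i (L, true)).subtype) ⟨r, hr⟩)
      ((f.comp (FE i (L, true)).subtype) g) := fun g => hf i _ r hr hrN g.1 g.2
  cases δ
  · exact split FE_perfect _ (μ false) (μ true) hc hF ⟨r, hr⟩ h ⟨g, hg⟩
  · exact split FE_perfect _ (μ true) (μ false) (fun q q' => (hc q' q).symm)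
      (fun q => (hF q).trans (hc q q).eq) ⟨r, hr⟩ h ⟨g, hg⟩

lemma loader_kill (hf : HypH f) {i : Fin 3} {L : Ldr} {w : FF} (hw : w ∈ FE i (L, false))
    (h : w ∈ NN) : f w = 1 := by
  obtain ⟨Φ, hΦ⟩ := main_factor hf
  rw [← hΦ, loader_psi hw h, map_one]

/-- True relations inside the edge groups hold. -/
def HypS (f : FF →* Γ) : Prop := ∀ i ν, ∀ r ∈ FE i ν, r ∈ NN → f r = 1

lemma HypS.hypH (hf : HypS f) : HypH f := fun i ν r hr hN g _ => by
  rw [hf i ν r hr hN]; exact Commute.one_left _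

theorem hypS_at (hf : HypS f) (hΦ : ∀ w, Φ (psi w) = f w) (y : XX) :
    HypS (Φ.comp (Wr.at y)) := by
  rintro i ⟨L, _ | _⟩ r hr hN
  · exact loader_kill (hypH_at hf.hypH hΦ y) hr hN
  obtain ⟨γ, hγ⟩ := at_conj Φ y (zpt i (L, true))
  have h1 := hf i _ r hr hN
  have h2 : Φ (Wr.at (zpt i (L, false)) ((psi r).s (zpt i (L, false)))) = 1 :=
    loader_kill (hypH_at hf.hypH hΦ _) (sec_edge (FE_le_BB i _ hr) _) (ker_sec hN _)
  rw [← hΦ, bank_psi hr, map_mul, h2, one_mul, (bank_p hr).2] at h1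
  rw [MonoidHom.comp_apply, hγ, h1]; simp

lemma phi_base {w : FF} (hN : w ∈ NN) (h : ∀ z, Φ (Wr.at z ((psi w).s z)) = 1) :
    Φ (psi w) = 1 := by
  rw [Wr.eq_inr (p_of_NN hN)]
  exact Wr.inr_mem (K := Φ.ker) _ h

lemma block_kill (hf : HypS f) {m : Fin 3} {w : FF} (hw : w ∈ BB m) (hN : w ∈ NN) : f w = 1 := by
  obtain ⟨Φ, hΦ⟩ := main_factor hf.hypH
  rw [← hΦ]
  refine phi_base hN fun z => ?_
  by_cases hz : ∃ ν, z = zpt (m + 1) ν
  · obtain ⟨ν, rfl⟩ := hz
    exact hypS_at hf hΦ _ (m + 1) ν _ (sec_edge (by rwa [fin3_12]) ν) (ker_sec hN _)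
  · push Not at hz
    rw [range_NN ((psi_BB hw).2.2 z hz) (ker_sec hN z), map_one, map_one]

/-- Products of a given number of blocks. -/
inductive Bl : ℕ → FF → Prop
  | zero : Bl 0 1
  | succ (n : ℕ) (m : Fin 3) (b w : FF) : b ∈ BB m → Bl n w → Bl (n + 1) (b * w)

lemma exists_Bl (w : FF) : ∃ n, Bl n w := by
  induction w using Monoid.CoprodI.induction_left with
  | one => exact ⟨0, Bl.zero⟩
  | mul k w ih =>
    obtain ⟨n, hn⟩ := ih
    exact ⟨n + 1, Bl.succ n _ _ _ (ofK_mem_BB (fin3_ne _) k) hn⟩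

lemma Bl.sec {n : ℕ} {w : FF} (h : Bl n w) (x : XX) : Bl n ((psi w).s x) := by
  induction h generalizing x with
  | zero => simpa using Bl.zero
  | succ n m b w hb _ ih =>
    rw [map_mul, Wr.mul_s]
    exact Bl.succ n m _ _ ((psi_BB hb).2.1 _) (ih x)

lemma Bl.sec' {n : ℕ} {w : FF} (h : Bl (n + 2) w) (x : XX) : Bl (n + 1) ((psi w).s x) := by
  cases h with
  | succ _ m b w hb h =>
    cases h with
    | succ _ m' b' w hb' h =>
      rw [← mul_assoc, map_mul, Wr.mul_s]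
      obtain ⟨m'', h'⟩ := merge hb hb' ((psi w).p • x)
      exact Bl.succ n m'' _ _ h' (h.sec x)

theorem kill (hf : HypS f) {w : FF} (hN : w ∈ NN) : f w = 1 := by
  obtain ⟨n, hn⟩ := exists_Bl w
  have key : ∀ n, ∀ f : FF →* Γ, HypS f → ∀ w ∈ NN, Bl (n + 1) w → f w = 1 := by
    intro n
    induction n with
    | zero =>
      intro f hf w hN h
      cases h with
      | succ _ m b w hb h =>
        cases h
        exact block_kill hf (by simpa using hb) hN
    | succ n ih =>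
      intro f hf w hN h
      obtain ⟨Φ, hΦ⟩ := main_factor hf.hypH
      rw [← hΦ]
      exact phi_base hN fun z => ih _ (hypS_at hf hΦ z) _ (ker_sec hN z) (h.sec' z)
  exact key n f hf w hN (by simpa using Bl.succ n 0 1 w (one_mem _) hn)

lemma finite_of_factor {α β γ : Type} {U : Set α} {g : α → β} {h : α → γ} (hg : (g '' U).Finite)
    (e : ∀ a ∈ U, ∀ b ∈ U, g a = g b → h a = h b) : (h '' U).Finite := by
  classical
  rcases U.eq_empty_or_nonempty with rfl | ⟨a₀, -⟩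
  · simp
  refine (hg.image fun y => if e : ∃ a ∈ U, g a = y then h e.choose else h a₀).subset ?_
  rintro _ ⟨a, ha, rfl⟩
  have e' : ∃ b ∈ U, g b = g a := ⟨a, ha, rfl⟩
  exact ⟨g a, ⟨a, ha, rfl⟩, (dif_pos e').trans (e _ e'.choose_spec.1 _ ha e'.choose_spec.2)⟩

lemma finite_loader (i : Fin 3) (L : Ldr) : (act psi '' (FE i (L, false) : Set FF)).Finite := by
  refine finite_of_factor (g := fun w => ((psi w).p, (psi w).s)) ?_ fun a _ b _ e => ?_
  · have h1 : (Set.range fun z : Fin 3 × KK => ofK z.1 z.2).Finite := Set.finite_range _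
    refine ((Set.finite_univ (α := GP)).prod (Set.Finite.pi' fun _ : XX => h1)).subset ?_
    rintro _ ⟨w, hw, rfl⟩
    refine ⟨trivial, fun x => ?_⟩
    obtain ⟨j, k, e⟩ := loader_sec hw x
    exact ⟨(j, k), e⟩
  · refine act_eq_of_psiBar psi ?_
    have : psi a = psi b := Wr.ext (Prod.ext_iff.1 e).1 (Prod.ext_iff.1 e).2
    simp only [psiBar, MonoidHom.comp_apply, this]

lemma finite_FE (i : Fin 3) (ν : Nm) : (act psi '' (FE i ν : Set FF)).Finite := by
  obtain ⟨L, _ | _⟩ := ν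
  · exact finite_loader i L
  refine finite_of_factor (g := fun w => act psi ((psi w).s (zpt i (L, false))))
    ((finite_loader i L).subset ?_) fun a ha b hb e => ?_
  · rintro _ ⟨w, hw, rfl⟩
    exact ⟨_, sec_edge (FE_le_BB i _ hw) _, rfl⟩
  · have h1 : a⁻¹ * b ∈ NN := bank_NN (mul_mem (inv_mem ha) hb) (by
      have := (bankSec i L (zpt i (L, false))).map_mul (⟨a, ha⟩⁻¹) ⟨b, hb⟩
      rw [map_inv] at this
      change (psi (a⁻¹ * b)).s _ = ((psi a).s _)⁻¹ * (psi b).s _ at this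
      rw [this, NN, MonoidHom.mem_ker, map_mul, map_inv, inv_mul_eq_one]
      exact e)
    rwa [NN, MonoidHom.mem_ker, map_mul, map_inv, inv_mul_eq_one] at h1

lemma fg_FE (i : Fin 3) (ν : Nm) : ∃ S : Set FF, S.Finite ∧ closure S = NN ⊓ FE i ν := by
  have h1 : Finite {w | ∃ σ k, w = ofK (ty i σ) (sec (.edge σ ν) k)} :=
    Set.Finite.to_subtype (Set.Finite.subset
      (Set.finite_range fun z : Bool × KK => ofK (ty i z.1) (sec (.edge z.1 ν) z.2))
      (by rintro _ ⟨σ, k, rfl⟩; exact ⟨(σ, k), rfl⟩))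
  have h2 : Group.FG (FE i ν) := Group.closure_finite_fg _
  have h3 : Finite ((act psi).comp (FE i ν).subtype).range :=
    Set.Finite.to_subtype (Set.Finite.subset (finite_FE i ν)
      (by rintro _ ⟨q, rfl⟩; exact ⟨q.1, q.2, rfl⟩))
  have h4 : Group.FG ((act psi).comp (FE i ν).subtype).ker := Subgroup.fg_of_index_ne_zero _
  obtain ⟨S, hS, hS'⟩ := (Subgroup.fg_iff _).1 ((Group.fg_iff_subgroup_fg _).1 h4)
  refine ⟨(FE i ν).subtype '' S, hS'.image _, ?_⟩
  rw [← MonoidHom.map_closure, hS, ← subgroupOf_map_subtype]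
  rfl

theorem NN_fin : NN.IsFinitelyNormallyGenerated := by
  choose S h1 h2 using fg_FE
  have : NN.Normal := MonoidHom.normal_ker _
  refine ⟨⋃ z : Fin 3 × Nm, S z.1 z.2, Set.finite_iUnion fun z => h1 _ _, le_antisymm ?_ ?_⟩
  · refine normalClosure_le_normal (Set.iUnion_subset fun z w hw => ?_)
    exact ((h2 z.1 z.2).le (subset_closure hw)).1
  · intro w hw
    rw [← QuotientGroup.eq_one_iff]
    refine kill (f := QuotientGroup.mk' _) (fun i ν r hr hN => ?_) hw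
    rw [QuotientGroup.mk'_apply, QuotientGroup.eq_one_iff]
    exact (closure_le _).2 ((Set.subset_iUnion (fun z : Fin 3 × Nm => S z.1 z.2) (i, ν)).trans
      subset_normalClosure) ((h2 i ν).ge ⟨hN, hr⟩)

theorem inl_mem (p : GP) : Wr.inl p ∈ (psiBar psi).range := by
  have k1 : ∀ A B, A ≠ B → (IsO A ∨ IsO B) → eg ShP A B ∈ (psiBar psi).range.comap Wr.inl := by
    intro A B h hO
    obtain ⟨eA, eB⟩ := emb_tyy hO
    refine ⟨topE (tyy A B) (eg ShA (rix A) (cix B)), ?_⟩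
    rw [psiBar, MonoidHom.comp_apply, psi_top, rr_of_emb eA eB h]
    exact Wr.ext rfl (funext fun x => map_one _)
  refine EG_mem_of_gens (H := (psiBar psi).range.comap Wr.inl) (fun A B h => ?_) p
  obtain ⟨o, hoA, hoB, -, -⟩ := fresh5 A B A B
  rw [← eg_isSt.cm _ _ _ (rtP hoA.symm) (rtP hoB) h.2.2, commutatorElement_def]
  have m1 := k1 A (.inl o) hoA.symm (Or.inr ⟨o, rfl⟩)
  have m2 := k1 (.inl o) B hoB (Or.inl ⟨o, rfl⟩)
  exact mul_mem (mul_mem (mul_mem m1 m2) (inv_mem m1)) (inv_mem m2)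

theorem at_mem (y : XX) (w : FF) : Wr.at y (act psi w) ∈ (psiBar psi).range := by
  let T : Subgroup FF := (psiBar psi).range.comap ((Wr.at y).comp (act psi))
  change w ∈ T
  have base : ∀ j I v a, ofK j (indL (fun l => l I = v) a) ∈ T := by
    intro j I v a
    obtain ⟨p, rfl⟩ := MulAction.exists_smul_eq GP (pt j (anc I)) y
    change Wr.at _ _ ∈ (psiBar psi).range
    rw [← Wr.conj_at]
    refine mul_mem (mul_mem (inl_mem p) ⟨ofK j (indL (Ec (anc I) 1 fun u => u = v) a), ?_⟩)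
      (inv_mem (inl_mem p))
    rw [psiBar, MonoidHom.comp_apply, psi_ind j (anc I) (fun l e => e.1), sec_indL,
      indL_congr (E' := fun l => l I = v) fun l _ =>
        ⟨fun e => e.2.2, fun e => ⟨mask_anc _ _, rfl, e⟩⟩]
    refine Wr.ext rfl (funext fun x => ?_)
    simp only [Wr.map_s, Wr.at_s]
    split_ifs <;> simp
  have mulE : ∀ j (E E' : Lab → Prop), (∀ a, ofK j (indL E a) ∈ T) → (∀ a, ofK j (indL E' a) ∈ T) →
      ∀ a, ofK j (indL (fun l => E l ∧ E' l) a) ∈ T := by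
    intro j E E' h h' a
    refine EG_mem_of_gens (H := T.comap ((ofK j).comp (indL _))) (fun a b hab => ?_) a
    obtain ⟨o, -, -, -, -, e⟩ := eg_cm hab a a
    rw [mem_comap, MonoidHom.comp_apply, e, ← indL_cm, map_commutatorElement, commutatorElement_def]
    exact mul_mem (mul_mem (mul_mem (h _) (h' _)) (inv_mem (h _))) (inv_mem (h' _))
  have all : ∀ j k, ofK j k ∈ T := by
    intro j k
    refine K_mem (H := T.comap (ofK j)) (fun l a b _ => ?_) k
    have := mulE j _ _ (mulE j _ _ (mulE j _ _ (mulE j _ _ (base j none (l.1 none))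
      (base j (some 0) (l.1 (some 0)))) (base j (some 1) (l.1 (some 1))))
      (base j (some 2) (l.1 (some 2)))) (base j (some 3) (l.1 (some 3))) (eg ShA a b)
    rw [mem_comap]
    convert this using 3
    refine ind_congr fun m => ⟨fun e => by simp [e], fun e => Subtype.ext (funext fun I => ?_)⟩
    cases I with
    | none => exact e.1.1.1.1
    | some s =>
      fin_cases s
      exacts [e.1.1.1.2, e.1.1.2, e.1.2, e.2]
  induction w using Monoid.CoprodI.induction_on with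
  | one => exact one_mem _
  | of j k => exact all j k
  | mul u v h1 h2 => exact mul_mem h1 h2

instance : Group.IsFinitelyPresented FF := by
  let e : Monoid.Coprod KK (Monoid.Coprod KK KK) ≃* FF := MonoidHom.toMulEquiv
    (Monoid.Coprod.lift (ofK 0) (Monoid.Coprod.lift (ofK 1) (ofK 2)))
    (lf (Γ := Monoid.Coprod KK (Monoid.Coprod KK KK)) ![Monoid.Coprod.inl, Monoid.Coprod.inr.comp Monoid.Coprod.inl,
      Monoid.Coprod.inr.comp Monoid.Coprod.inr])
    (by ext <;> simp)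
    (FF_ext fun j k => by fin_cases j <;> simp)
  have h0 : Finite KK := inferInstance
  have h1 : Group.IsFinitelyPresented KK := inferInstance
  have h2 : Group.IsFinitelyPresented (Monoid.Coprod KK KK) := inferInstance
  exact Group.IsFinitelyPresented.equiv (G := Monoid.Coprod KK (Monoid.Coprod KK KK)) e

theorem exists_branch : ∃ (G : Type) (_ : Group G) (X : Type) (_ : Finite X) (_ : Nontrivial X)
    (φ : G →* Equiv.Perm (List X)), Group.IsFinitelyPresented G ∧ Function.Injective φ ∧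
      (∀ g v, (φ g v).length = v.length) ∧ (∀ g v w, v <+: w → φ g v <+: φ g w) ∧
      (∀ v w : List X, v.length = w.length → ∃ g, φ g v = w) ∧
      ∀ k : ℕ, (closure {g : G | ∃ v : List X, v.length = k ∧
        ∀ w, ¬ v <+: w → φ g w = w}).index ≠ 0 := by
  have hX : Nontrivial XX := ⟨bv (.inl 0), bv (.inl 1), bv_inj.ne (by simp)⟩
  refine ⟨FF ⧸ (act psi).ker, inferInstance, XX, inferInstance, hX,
    QuotientGroup.kerLift (act psi), Group.IsFinitelyPresented.quotient _ NN_fin,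
    QuotientGroup.kerLift_injective _, ?_, ?_, ?_, fun k => ?_⟩
  · rintro ⟨g⟩ v; exact act_length psi g v
  · rintro ⟨g⟩ v w h; exact act_isPrefix psi g h
  · intro v w h
    obtain ⟨g, hg⟩ := level_trans inl_mem at_mem v w h
    exact ⟨QuotientGroup.mk g, hg⟩
  · rw [← index_comap_of_surjective _ (QuotientGroup.mk'_surjective _)]
    have := rist_finiteIndex (ψ := psi) at_mem k
    refine (finiteIndex_of_le (H := rist psi k) ((closure_le _).2 ?_)).index_ne_zero
    rintro g ⟨v, hv, h⟩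
    exact subset_closure ⟨v, hv, h⟩

end

end Pool.Agent.Lib.MP_b611b5_al
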