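import Pool.Agent.Lib.MP_b611b5_al.Ident

/-! Every homomorphism satisfying the robust relators factors through the wreath recursion. -/

set_option autoImplicit false
set_option linter.unusedSectionVars false

namespace Pool.Agent.Lib.MP_b611b5_al

open Subgroup
open scoped commutatorElement

noncomputable section

variable {Γ : Type} [Group Γ] {f : FF →* Γ} {ρ : GP →* Γ}

/-- The basic families of a type. -/
def fam (f : FF →* Γ) (ρ : GP →* Γ) (j : Fin 3) (i : Item × (Dig → Prop)) (a b : IA) : Γ :=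
  Bs f ρ j i.1 i.2 (eg ShA a b)

/-- The unit index. -/
def iU : Item × (Dig → Prop) := (none, fun _ => True)

lemma indL_cm (E E' : Lab → Prop) (a b : GA) :
    ⁅indL E a, indL E' b⁆ = indL (fun l => E l ∧ E' l) ⁅a, b⁆ := ind_cm _ _ a b

lemma common_cell (hf : HypH f) (hρ : ∀ j a, ρ (rr j a) = f (topE j a)) (j : Fin 3) (I J : Item) :
    ∃ (c : KK →* Γ) (d : Cell), (∀ Z a, Bs f ρ j I Z a = c (indL (Ec d 0 Z) a)) ∧
      (∀ Z a, Bs f ρ j J Z a = c (indL (Ec d 1 Z) a)) ∧
      ∀ a, Bs f ρ j none (fun _ => True) a = c (indL (Ec d 2 fun _ => True) a) :=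
  ⟨cj f ρ j (toB (pt j (.edge true (⟨true, ![I, J, none, none]⟩, false)))),
    .edge true (⟨true, ![I, J, none, none]⟩, false),
    fun Z a => (id_free hf hρ j true ![I, J, none, none] 0 Z (toB_smul _) a).symm,
    fun Z a => (id_free hf hρ j true ![I, J, none, none] 1 Z (toB_smul _) a).symm,
    fun a => (id_free hf hρ j true ![I, J, none, none] 2 _ (toB_smul _) a).symm⟩

lemma exists_ring (hf : HypH f) (hρ : ∀ j a, ρ (rr j a) = f (topE j a)) (j : Fin 3) :
    Nonempty (RingData ShA (fam f ρ j) iU) := by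
  have hA := eg_isSt (S := ShA)
  refine exists_ringData _ _ (fun a b h => ?_) (fun i i' a b c d h h' h1 h2 => ?_)
    (fun i a b c h h' h1 => ?_) (fun i i' a b c h h' h1 => ?_)
  · obtain ⟨c, d, -, -, e⟩ := common_cell hf hρ j none none
    rw [fam, iU, e, ← map_mul, ← map_mul, hA.sq a b h, map_one, map_one]
  · obtain ⟨c', d', e1, e2, -⟩ := common_cell hf hρ j i.1 i'.1
    rw [fam, fam, e1, e2]
    exact (ind_commute _ _ (hA.comm a b c d h h' h1 h2)).map _
  · obtain ⟨c', d', e1, -, e3⟩ := common_cell hf hρ j i.1 i.1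
    simp only [fam, iU, e1, e3, ← map_commutatorElement, indL_cm, hA.cm a b c h h' h1]
    constructor <;> congr 2 <;> exact indL_congr fun l _ => by simp only [Ec]; tauto
  · obtain ⟨c', d', e1, e2, -⟩ := common_cell hf hρ j i.1 i'.1
    simp only [fam]
    rw [e1, e2, e1, e2, ← map_commutatorElement, ← map_commutatorElement, indL_cm, indL_cm]
    congr 2
    exact indL_congr fun l _ => and_comm

section rep

variable {j : Fin 3} (D : RingData ShA (fam f ρ j) iU)

/-- A ring element is represented by an indicator family through `c`. -/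
def Rep (c : KK →* Γ) (α : D.R) (E : Lab → Prop) : Prop :=
  ∀ a b, ShA.Rt a b → D.val α a b = c (indL E (eg ShA a b))

variable {D}

lemma Rep.mul {c : KK →* Γ} {α β : D.R} {E E' : Lab → Prop} (h : Rep D c α E) (h' : Rep D c β E') :
    Rep D c (α * β) fun l => E l ∧ E' l := by
  intro a b hab
  obtain ⟨o, h1, h2, -, -, e⟩ := eg_cm hab a a
  rw [D.val_mul α β a o b h1 h2 hab.2.2, h a o h1, h' o b h2, ← map_commutatorElement, indL_cm,
    ← e]

lemma Rep.add {c : KK →* Γ} {α β : D.R} {E E' : Lab → Prop} (h : Rep D c α E) (h' : Rep D c β E')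
    (hd : ∀ l, E l → ¬ E' l) : Rep D c (α + β) fun l => E l ∨ E' l := by
  intro a b hab
  rw [D.val_add, h a b hab, h' a b hab, ← map_mul]
  congr 1
  exact (ind_or (fun l : OL => hd l.1) _).symm

lemma Rep.eq {c : KK →* Γ} {α β : D.R} {E E' : Lab → Prop} (h : Rep D c α E) (h' : Rep D c β E')
    (e : ∀ l, Occ l → (E l ↔ E' l)) : α = β :=
  D.inj _ _ fun a b hab => by rw [h a b hab, h' a b hab, indL_congr e]

lemma Rep.zero {c : KK →* Γ} {α : D.R} {E : Lab → Prop} (h : Rep D c α E)
    (e : ∀ l, Occ l → ¬ E l) : α = 0 :=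
  D.inj _ _ fun a b hab => by
    rw [h a b hab, D.val_zero, indL, ind_false (fun l : OL => e l.1 l.2), map_one]

lemma rep_anc (I : Item) (Z : Dig → Prop) :
    Rep D (cj f ρ j (toB (pt j (anc I)))) (D.el (I, Z)) (E2 (anc I) (fun _ => True) Z) :=
  fun a b hab => D.val_el (I, Z) a b hab

lemma el_mul (I : Item) (Z Z' : Dig → Prop) :
    D.el (I, Z) * D.el (I, Z') = D.el (I, fun v => Z v ∧ Z' v) :=
  ((rep_anc I Z).mul (rep_anc I Z')).eq (rep_anc I _) fun l _ => by simp only [E2]; tauto

lemma el_false (I : Item) {Z : Dig → Prop} (h : ∀ v, ¬ Z v) : D.el (I, Z) = 0 :=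
  (rep_anc I Z).zero fun _ _ e => h _ e.2.2

lemma el_congr (I : Item) {Z Z' : Dig → Prop} (h : ∀ v, Z v ↔ Z' v) :
    D.el (I, Z) = D.el (I, Z') := by
  rw [show Z = Z' from funext fun v => propext (h v)]

lemma el_add (I : Item) {Z Z' : Dig → Prop} (h : ∀ v, Z v → ¬ Z' v) :
    D.el (I, Z) + D.el (I, Z') = D.el (I, fun v => Z v ∨ Z' v) :=
  ((rep_anc I Z).add (rep_anc I Z') fun l e e' => h _ e.2.2 e'.2.2).eq (rep_anc I _)
    fun l _ => by simp only [E2]; tauto

lemma el_true (hf : HypH f) (hρ : ∀ j a, ρ (rr j a) = f (topE j a)) (I : Item) :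
    D.el (I, fun _ => True) = 1 := by
  obtain ⟨c, d, e1, -, e3⟩ := common_cell hf hρ j I I
  rw [← D.el_one]
  refine Rep.eq (c := c) (E := Ec d 0 fun _ => True) (E' := Ec d 2 fun _ => True)
    (fun a b hab => ?_) (fun a b hab => ?_) fun _ _ => Iff.rfl
  · rw [D.val_el _ a b hab, ← e1]; rfl
  · rw [D.val_el _ a b hab, ← e3]; rfl

lemma rep_cell (hf : HypH f) (hρ : ∀ j a, ρ (rr j a) = f (topE j a)) (d : Cell) {h : GP}
    (hh : h • pt j d = x0) (s : Slot) (Z : Dig → Prop) :
    Rep D (cj f ρ j h) (D.el (none, mask d) * D.el (load d s, Z)) (Ec d s Z) := by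
  intro a b hab
  have r0 : Rep D (cj f ρ j (toB (pt j (anc (load d s))))) (D.el (none, mask d))
      (Ec (anc (load d s)) 0 (mask d)) := fun a b hab => by
    rw [D.val_el _ a b hab]
    exact (id_free hf hρ j true (ancL (load d s)) 0 _ (toB_smul _) _).symm
  rw [id_cell hf hρ j d s Z hh, (r0.mul (rep_anc (load d s) Z)) a b hab, An]
  congr 2
  exact indL_congr fun l _ => by simp only [E2, Ec]; tauto

variable (D)

/-- The idempotent of a label. -/
def eps (l : Lab) : D.R := ∏ I, D.el (I, fun v => v = l I)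

/-- The idempotent of a label read through a cell. -/
def WW (d : Cell) (u : Slot → Dig) : D.R :=
  ∏ s, D.el (none, mask d) * D.el (load d s, fun v => v = u s)

variable {D}

lemma rep_WW (hf : HypH f) (hρ : ∀ j a, ρ (rr j a) = f (topE j a)) (d : Cell) {h : GP}
    (hh : h • pt j d = x0) (u : Slot → Dig) :
    Rep D (cj f ρ j h) (WW D d u) fun l => l none = some d ∧ ∀ s, l (some s) = u s := by
  intro a b hab
  rw [WW, Fin.prod_univ_four, ((((rep_cell hf hρ d hh 0 _).mul (rep_cell hf hρ d hh 1 _)).mul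
    (rep_cell hf hρ d hh 2 _)).mul (rep_cell hf hρ d hh 3 _)) a b hab]
  congr 2
  refine indL_congr fun l _ => ?_
  simp only [Ec, Fin.forall_fin_succ, IsEmpty.forall_iff, and_true]
  exact ⟨fun e => ⟨e.2.1, e.1.1.1.2, e.1.1.2.2, e.1.2.2, e.2.2⟩,
    fun e => ⟨⟨⟨⟨e.1, e.2.1⟩, e.1, e.2.2.1⟩, e.1, e.2.2.2.1⟩, e.1, e.2.2.2.2⟩⟩

lemma el_eps_pos {I : Item} {Z : Dig → Prop} {l : Lab} (h : Z (l I)) :
    D.el (I, Z) * eps D l = eps D l := by
  rw [eps, ← Finset.mul_prod_erase _ _ (Finset.mem_univ I), ← mul_assoc, el_mul]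
  congr 1
  exact el_congr I fun v => ⟨fun e => e.2, fun e => ⟨e ▸ h, e⟩⟩

lemma el_eps_neg {I : Item} {Z : Dig → Prop} {l : Lab} (h : ¬ Z (l I)) :
    D.el (I, Z) * eps D l = 0 := by
  rw [eps, ← Finset.mul_prod_erase _ _ (Finset.mem_univ I), ← mul_assoc, el_mul,
    el_false I (Z := fun v => Z v ∧ v = l I) (fun v e => h (e.2 ▸ e.1)), zero_mul]

lemma prod_mul_fix {R ι : Type} [CommRing R] (T : Finset ι) (g : ι → R) (x : R)
    (h : ∀ i ∈ T, g i * x = x) : (∏ i ∈ T, g i) * x = x := by
  classical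
  induction T using Finset.induction_on with
  | empty => simp
  | insert i T hi ih =>
    rw [Finset.prod_insert hi, mul_assoc, ih fun i hi => h i (Finset.mem_insert_of_mem hi),
      h i (Finset.mem_insert_self _ _)]

lemma prod_mul_kill {R ι : Type} [CommRing R] [Fintype ι] (g : ι → R) (x : R) (i : ι)
    (h : g i * x = 0) : (∏ i, g i) * x = 0 := by
  classical
  rw [← Finset.prod_erase_mul _ _ (Finset.mem_univ i), mul_assoc, h, mul_zero]

lemma eps_idem (l : Lab) : eps D l * eps D l = eps D l :=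
  prod_mul_fix _ _ _ fun _ _ => el_eps_pos rfl

lemma eps_orth {l l' : Lab} (h : l ≠ l') : eps D l * eps D l' = 0 := by
  obtain ⟨I, hI⟩ := Function.ne_iff.1 h
  exact prod_mul_kill _ _ I (el_eps_neg hI.symm)

lemma WW_eps_pos {d : Cell} {u : Slot → Dig} {l : Lab} (h : mask d (l none))
    (h' : ∀ s, l (load d s) = u s) : WW D d u * eps D l = eps D l :=
  prod_mul_fix _ _ _ fun s _ => by rw [mul_assoc, el_eps_pos (h' s), el_eps_pos h]

lemma WW_eps_neg {d : Cell} {u : Slot → Dig} {l : Lab}
    (h : ¬ (mask d (l none) ∧ ∀ s, l (load d s) = u s)) : WW D d u * eps D l = 0 := by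
  by_cases hm : mask d (l none)
  · obtain ⟨s, hs⟩ : ∃ s, ¬ l (load d s) = u s := not_forall.1 fun e => h ⟨hm, e⟩
    exact prod_mul_kill _ _ s (by rw [mul_assoc, el_eps_neg hs, mul_zero])
  · exact prod_mul_kill _ _ 0 (by rw [mul_right_comm, el_eps_neg hm, zero_mul])

lemma eps_sum (hf : HypH f) (hρ : ∀ j a, ρ (rr j a) = f (topE j a)) [Fintype Dig] :
    ∑ l, eps D l = 1 := by
  classical
  have key : ∀ (I : Item) (T : Finset Dig),
      ∑ w ∈ T, D.el (I, fun v => v = w) = D.el (I, fun v => v ∈ T) := by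
    intro I T
    induction T using Finset.induction_on with
    | empty => rw [Finset.sum_empty, el_false I (by simp)]
    | insert w T hw ih =>
      rw [Finset.sum_insert hw, ih, el_add I (by rintro _ rfl; exact hw)]
      exact el_congr I (by simp)
  have := Finset.prod_univ_sum (fun _ : Item => (Finset.univ : Finset Dig))
    fun I w => D.el (I, fun v => v = w)
  rw [Fintype.piFinset_univ] at this
  unfold eps
  rw [← this]
  refine Finset.prod_eq_one fun I _ => ?_
  rw [key, ← el_true hf hρ I]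
  exact el_congr I (by simp)

lemma van (hf : HypH f) (hρ : ∀ j a, ρ (rr j a) = f (topE j a)) (d : Cell) {l : Lab}
    (hm : mask d (l none)) (h : ¬ Occ (push d l)) : eps D l = 0 := by
  rw [← WW_eps_pos (d := d) hm fun _ => rfl, (rep_WW hf hρ d (toB_smul _) _).zero, zero_mul]
  intro l' hl' e
  refine h ?_
  convert hl' using 1
  funext I
  cases I with
  | none => exact e.1.symm
  | some s => exact (e.2 s).symm

lemma van_free (hf : HypH f) (hρ : ∀ j a, ρ (rr j a) = f (topE j a)) (t : Slot → Item) {l : Lab}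
    (h : ∀ l', Occ l' → ¬ ∀ s, l' (t s) = l (t s)) : eps D l = 0 := by
  refine van hf hρ (.edge true (⟨true, t⟩, false)) (Or.inl rfl) fun e => ?_
  obtain ⟨l', h1, -, h3⟩ := occ_some e rfl
  exact h l' h1 fun s => (congrFun h3 (some s)).symm

lemma occ_pers {σ : Bool} {L : Ldr} {m : Lab} (h : Occ m) (hm : m none = some (.edge σ (L, true)))
    {l : Lab} (hl : l none = some (.edge σ (L, false))) (e : ∀ s, l (some s) = m (some s)) :
    Occ l := by
  induction h with
  | top => cases hm
  | step d m' h1 h2 ih =>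
    have : d = .edge σ (L, true) := Option.some.inj hm
    subst this
    obtain ⟨_ | _, hδ⟩ := h2
    · convert h1 using 1
      funext I
      cases I with
      | none => rw [hl, hδ]
      | some s => exact e s
    · exact ih hδ e

lemma eps_van (hf : HypH f) (hρ : ∀ j a, ρ (rr j a) = f (topE j a)) {l : Lab} (h : ¬ Occ l) :
    eps D l = 0 := by
  rcases hd : l none with _ | (⟨σ, L, δ⟩ | ⟨ν, I⟩)
  · have : ∃ s, l (some s) ≠ none := by
      by_contra h2
      push Not at h2
      refine h ?_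
      convert Occ.top using 1
      funext I
      cases I with
      | none => exact hd
      | some s => exact h2 s
    obtain ⟨s, hs⟩ := this
    refine van_free hf hρ (ancL (some s)) fun l' h1 h2 => hs ?_
    have e0 : l' none = l none := h2 0
    have e1 : l' (some s) = l (some s) := h2 1
    rw [← e1, occ_none h1 (e0.trans hd)]
  · refine van hf hρ (.edge σ (L, true)) ⟨δ, hd⟩ fun e => h ?_
    cases δ
    · exact occ_pers e rfl hd fun _ => rfl
    · convert e using 1
      funext I
      cases I with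
      | none => exact hd
      | some s => rfl
  · by_cases h23 : l (some 2) = l (some 3)
    · refine van_free hf hρ ![none, some 0, some 1, some 2] fun l' h1 h2 => h ?_
      have e0 : l' none = l none := h2 0
      obtain ⟨l'', -, -, rfl⟩ := occ_some h1 (e0.trans hd)
      convert h1 using 1
      funext I
      cases I with
      | none => exact hd
      | some s =>
        fin_cases s
        · exact (h2 1).symm
        · exact (h2 2).symm
        · exact (h2 3).symm
        · exact h23.symm.trans (h2 3).symm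
    · refine van_free hf hρ ![none, some 2, some 3, none] fun l' h1 h2 => h23 ?_
      have e0 : l' none = l none := h2 0
      obtain ⟨l'', -, -, rfl⟩ := occ_some h1 (e0.trans hd)
      exact (h2 1).symm.trans (h2 2)

end rep

theorem exists_tau0 (hf : HypH f) (hρ : ∀ j a, ρ (rr j a) = f (topE j a)) (j : Fin 3) :
    ∃ τ : KK →* Γ,
      (∀ (d : Cell) (h : GP), h • pt j d = x0 → ∀ l : OL, l.1 none = some d → ∀ a b, ShA.Rt a b →
        cj f ρ j h (ind (fun l' => l' = l) (eg ShA a b)) =
          τ (sec d (ind (fun l' => l' = l) (eg ShA a b)))) ∧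
      ∀ γ : Γ, (∀ I Z a, Commute γ (Bs f ρ j I Z a)) → ∀ k, Commute γ (τ k) := by
  classical
  obtain ⟨D⟩ := exists_ring hf hρ j
  let _ : Fintype Dig := Fintype.ofFinite _
  let _ : Fintype OL := Fintype.ofFinite _
  obtain ⟨τ, hτ⟩ := D.exists_tau (fun l : OL => eps D l.1) (fun l => eps_idem _)
    fun l l' h => eps_orth fun e => h (Subtype.ext e)
  refine ⟨τ, fun d h hh l hl a b hab => ?_, fun γ hγ k => ?_⟩
  · have e1 : (ind (fun l' : OL => l' = l) : GA →* KK) =
        indL fun m => m none = some d ∧ ∀ s, m (some s) = l.1 (some s) := by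
      refine ind_congr fun m => ⟨fun e => ⟨e ▸ hl, fun s => e ▸ rfl⟩, fun e => Subtype.ext ?_⟩
      funext I
      cases I with
      | none => rw [e.1, hl]
      | some s => exact e.2 s
    rw [e1, ← rep_WW (D := D) hf hρ d hh _ a b hab, sec_indL, indL, hτ _ a b hab]
    congr 1
    have e2 : ∑ m : OL, eps D m.1 = 1 := by
      rw [← eps_sum (D := D) hf hρ, ← Finset.sum_subtype (Finset.univ.filter Occ) (by simp),
        Finset.sum_filter_of_ne fun m _ hm => by_contra fun e => hm (eps_van hf hρ e)]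
    rw [← mul_one (WW D d _), ← e2, Finset.mul_sum, Finset.sum_filter]
    refine Finset.sum_congr rfl fun m _ => ?_
    split_ifs with hm
    · exact WW_eps_pos hm.1 hm.2.2
    · exact WW_eps_neg fun e => hm ⟨e.1, rfl, e.2⟩
  · have : k ∈ (centralizer {γ}).comap τ := K_mem (fun l a b hab => by
      rw [mem_comap, mem_centralizer_singleton_iff, hτ _ a b hab]
      exact (D.cent γ (fun i a b _ => hγ _ _ _) _ a b hab).symm.eq) k
    rw [mem_comap, mem_centralizer_singleton_iff] at this
    exact this.symm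

lemma lf_commute {κ κ' : Fin 3 → KK →* Γ} (h : ∀ j j' k k', Commute (κ j k) (κ' j' k'))
    (w w' : FF) : Commute (lf κ w) (lf κ' w') := by
  induction w using Monoid.CoprodI.induction_on with
  | one => simp
  | of j k =>
    induction w' using Monoid.CoprodI.induction_on with
    | one => simp
    | of j' k' => exact (lf_of κ j k).symm ▸ (lf_of κ' j' k').symm ▸ h j j' k k'
    | mul u v h1 h2 => rw [map_mul]; exact h1.mul_right h2
  | mul u v h1 h2 => rw [map_mul]; exact h1.mul_left h2

theorem main_factor (hf : HypH f) : ∃ Φ : Wr GP XX FF →* Γ, ∀ w, Φ (psi w) = f w := by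
  obtain ⟨ρ, hρ⟩ := exists_rho hf
  choose τ₀ h1 h2 using exists_tau0 hf hρ
  have st : ∀ j (g : GP), g • x0 = x0 → ∀ k, Commute (ρ g) (τ₀ j k) := fun j g hg =>
    h2 j _ fun I Z a => Bs_stab hf hρ j I Z a hg
  have cr : ∀ j j' (g : GP), g • x0 ≠ x0 → ∀ k k', Commute (τ₀ j k) (ρ g * τ₀ j' k' * (ρ g)⁻¹) := by
    intro j j' g hg k k'
    have e1 : ∀ J Z' b, Commute ((ρ g)⁻¹ * τ₀ j k * ρ g) (Bs f ρ j' J Z' b) := by
      intro J Z' b
      have := (h2 j _ (fun I Z a => (Bs_cross hf hρ j j' I J Z Z' a b hg).symm) k).map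
        (MulAut.conj (ρ g)⁻¹)
      simp only [MulAut.conj_apply, inv_inv] at this
      convert this.symm using 1
      group
    have := (h2 j' _ e1 k').map (MulAut.conj (ρ g))
    simp only [MulAut.conj_apply] at this
    convert this using 1
    group
  let τ : XX → Fin 3 → KK →* Γ := fun y j => (MulAut.conj (ρ (toB y))⁻¹).toMonoidHom.comp (τ₀ j)
  have hτ : ∀ y j k, τ y j k = (ρ (toB y))⁻¹ * τ₀ j k * ρ (toB y) := fun y j k => by simp [τ]
  have eqv : ∀ (p : GP) y j k, ρ p * τ y j k * (ρ p)⁻¹ = τ (p • y) j k := by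
    intro p y j k
    have := st j (toB (p • y) * p * (toB y)⁻¹)
      (by rw [mul_smul, mul_smul, ← toB_smul y, inv_smul_smul, toB_smul, toB_smul]) k
    have e := conj_of_comm this
    simp only [map_mul, map_inv] at e
    rw [hτ, hτ]
    conv_rhs => rw [← e]
    group
  obtain ⟨Φ, hΦ1, hΦ2⟩ := Wr.exists_lift ρ (fun y => lf (τ y))
    (fun y y' hy => lf_commute fun j j' k k' => by
      have := (cr j j' (toB y * (toB y')⁻¹) (fun e => hy (by
        rw [mul_smul, ← toB_smul y', inv_smul_smul, toB_smul, ← toB_smul y] at e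
        exact (MulAction.injective _ e).symm)) k k').conj (ρ (toB y))⁻¹
      simp only [map_mul, map_inv, inv_inv] at this
      rw [hτ, hτ]
      convert this using 1
      group)
    (fun p y w => DFunLike.congr_fun (FF_ext (f := (MulAut.conj (ρ p)).toMonoidHom.comp (lf (τ y)))
      (g := lf (τ (p • y))) fun j k => by simpa using eqv p y j k) w)
  refine ⟨Φ, fun w => DFunLike.congr_fun (FF_ext (f := Φ.comp psi) fun j k => ?_) w⟩
  refine DFunLike.congr_fun (K_hom_ext (f := (Φ.comp psi).comp (ofK j)) (g := f.comp (ofK j))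
    fun l a b hab => ?_) k
  simp only [MonoidHom.comp_apply]
  rcases hd : l.1 none with _ | d
  · have e : (ind (fun l' : OL => l' = l) : GA →* KK) = indL fun m => m none = none :=
      ind_congr fun m => ⟨fun e => e ▸ hd, fun e => Subtype.ext
        ((occ_none m.2 e).trans (occ_none l.2 hd).symm)⟩
    rw [e]
    change Φ (psi (topE j _)) = f (topE j _)
    rw [psi_top, hΦ1, hρ]
  · rw [psi_cell j d (ind (fun l' => l' = l) (eg ShA a b)) fun m hm =>
      ind_neg (E := fun l' => l' = l) (fun e : m = l => hm (e ▸ hd)) _, hΦ2, lf_of, hτ,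
      ← h1 j d _ (toB_smul _) l hd a b hab, cj_apply]
    group

end

end Pool.Agent.Lib.MP_b611b5_al
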