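import Pool.Agent.Lib.MP_b611b5_al.EADef
import Pool.Agent.Lib.MP_b611b5_al.Contr

/-! The finitely presented branch group is residually finite and not elementary amenable. -/

set_option autoImplicit false

namespace Pool.Agent.Lib.MP_b611b5_al

open Subgroup

theorem not_elemAmenable {G : Type} [Group G] [Infinite G] [Group.FG G] (hp : commutator G = ⊤)
    (hK : ∀ K : Subgroup G, K.Normal → K ≠ ⊥ →
      ∃ ι : G →* G, Function.Injective ι ∧ ∀ g, ι g ∈ K) : ¬ ElemAmenable G := by
  have key : ∀ (H : Type) [Group H], ElemAmenable H → ∀ (A : Type) [Group A] (i : A →* H)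
      (π : A →* G), Function.Injective i → ¬ Function.Surjective π := by
    intro H _ h
    induction h with
    | finite H h =>
      intro A _ i π hi hπ
      have := Finite.of_injective i hi
      have := Finite.of_surjective π hπ
      exact not_finite G
    | abelian H h =>
      intro A _ i π hi hπ
      have h1 : Group.IsSolvable G := Group.isSolvable_of_comm fun a b => by
        obtain ⟨a, rfl⟩ := hπ a
        obtain ⟨b, rfl⟩ := hπ b
        rw [← map_mul, ← map_mul, hi (show i (a * b) = i (b * a) by rw [map_mul, map_mul, h])]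
      exact (Group.IsSolvable.commutator_lt_top_of_nontrivial G).ne hp
    | sub H K f hf _ ih => exact fun A _ i π hi => ih A (f.comp i) π (hf.comp hi)
    | quot H K f hf _ ih =>
      intro A _ i π hi hπ
      let p : i.range.comap f →* i.range :=
        (f.comp (i.range.comap f).subtype).codRestrict _ fun a => a.2
      refine ih _ (i.range.comap f).subtype
        (π.comp ((MonoidHom.ofInjective hi).symm.toMonoidHom.comp p)) Subtype.val_injective
        (hπ.comp ((MonoidHom.ofInjective hi).symm.surjective.comp ?_))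
      rintro ⟨k, hk⟩
      obtain ⟨h, rfl⟩ := hf k
      exact ⟨⟨h, hk⟩, rfl⟩
    | ext H N _ _ ih1 ih2 =>
      intro A _ i π hi hπ
      by_cases h0 : (N.comap i).map π = ⊥
      · refine ih2 (A ⧸ N.comap i) (QuotientGroup.map _ N i le_rfl)
          (QuotientGroup.lift _ π ((Subgroup.map_eq_bot_iff _).1 h0)) ?_ ?_
        · rw [injective_iff_map_eq_one]
          rintro ⟨a⟩ ha
          exact (QuotientGroup.eq_one_iff a).2 ((QuotientGroup.eq_one_iff (i a)).1 ha)
        · intro g
          obtain ⟨a, rfl⟩ := hπ g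
          exact ⟨QuotientGroup.mk a, rfl⟩
      · obtain ⟨ι, h1, h2⟩ := hK _ (Normal.map inferInstance π hπ) h0
        let B : Subgroup A := N.comap i ⊓ ι.range.comap π
        let p : B →* ι.range := (π.comp B.subtype).codRestrict _ fun a => a.2.2
        refine ih1 B ((i.comp B.subtype).codRestrict N fun a => a.2.1)
          ((MonoidHom.ofInjective h1).symm.toMonoidHom.comp p)
          (fun a b e => Subtype.ext (hi (congrArg Subtype.val e)))
          ((MonoidHom.ofInjective h1).symm.surjective.comp ?_)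
        rintro ⟨_, g, rfl⟩
        obtain ⟨a, ha, e⟩ := h2 g
        exact ⟨⟨a, ha, g, e.symm⟩, Subtype.ext e⟩
    | union H S hS hU _ ih =>
      intro A _ i π hi hπ
      classical
      obtain ⟨T, hT⟩ := (Group.fg_def.1 ‹Group.FG G›)
      choose l hl using hπ
      obtain ⟨K₀, hK₀, -⟩ := hU 1
      obtain ⟨K, hKS, hKT⟩ := DirectedOn.exists_mem_subset_of_finset_subset_biUnion
        (f := fun K : Subgroup H => (K : Set H)) ⟨K₀, hK₀⟩ hS (s := T.image fun t => i (l t))
        (fun h _ => by simpa using hU h)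
      refine ih K hKS (K.comap i) ((i.comp (K.comap i).subtype).codRestrict K fun a => a.2)
        (π.comp (K.comap i).subtype) (fun a b e => Subtype.ext (hi (congrArg Subtype.val e))) ?_
      rw [← MonoidHom.range_eq_top, eq_top_iff, ← hT, closure_le]
      intro t ht
      exact ⟨⟨l t, hKT (by simpa using ⟨t, ht, rfl⟩)⟩, hl t⟩
  exact fun h => key G h G (MonoidHom.id G) (MonoidHom.id G) Function.injective_id
    Function.surjective_id

theorem SSB.residuallyFinite {X : Type} [Finite X] {G : Subgroup (Equiv.Perm (List X))}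
    (hG : SSB G) : Group.ResiduallyFinite G := by
  rw [Group.residuallyFinite_iff_forall_finiteIndex]
  intro g hg
  refine Subtype.ext (Equiv.ext fun v => ?_)
  have : (MulAction.stabilizer G v).FiniteIndex :=
    hG.finiteIndex (MonoidHom.id _) v.length _ fun g h => h v rfl
  exact hg (MulAction.stabilizer G v)

theorem exists_contracting_branch : ∃ (X : Type) (_ : Finite X) (_ : Nontrivial X)
    (G : Subgroup (Equiv.Perm (List X))), Group.IsFinitelyPresented G ∧
      (∀ g ∈ G, ∀ v, (g v).length = v.length) ∧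
      (∀ g ∈ G, ∀ v, ∃ h ∈ G, ∀ w, g (v ++ w) = g v ++ h w) ∧
      (∀ v w : List X, v.length = w.length → ∃ g ∈ G, g v = w) ∧
      (∀ k : ℕ, (closure {g : G | ∃ v : List X, v.length = k ∧
        ∀ w, ¬ v <+: w → g.1 w = w}).index ≠ 0) ∧
      (∃ N : Set (Equiv.Perm (List X)), N.Finite ∧ N ⊆ G ∧ ∀ g ∈ G, ∃ n : ℕ, ∀ v : List X,
        n ≤ v.length → ∃ h ∈ N, ∀ w, g (v ++ w) = g v ++ h w) ∧
      (∀ v : List X, ∀ h ∈ G, ∃ g ∈ G, (∀ w, g (v ++ w) = v ++ h w) ∧ ∀ w, ¬ v <+: w → g w = w) ∧
      commutator G = ⊤ ∧ Infinite G ∧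
      (∀ K : Subgroup G, K.Normal → K ≠ ⊥ → K.FiniteIndex ∧
        ∃ k : ℕ, ∀ g : G, (∀ v : List X, v.length = k → g.1 v = v) → g ∈ K) ∧
      Group.ResiduallyFinite G ∧ (∀ H : Subgroup G, H.FiniteIndex → ¬ Group.IsSolvable H) ∧
      ¬ ElemAmenable G ∧
      ∀ f : FreeGroup (Fin 2) →* G, ¬ Function.Injective f := by
  obtain ⟨X, h1, h2, G, a1, a2, a3, a4, a5, a6, a7, a8, a9, a10, a11, a12⟩ := exists_contracting
  have hG : SSB G := ⟨a2, a3, a4, fun v h hh => by
    obtain ⟨g, hg, e1, e2⟩ := a7 v h hh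
    have : atP v h = g := Equiv.ext fun w => by
      by_cases e : v <+: w
      · obtain ⟨t, rfl⟩ := e
        rw [atP_append, e1]
      · rw [atP_off e, e2 w e]
    rwa [this]⟩
  obtain ⟨n, φ, hφ, -⟩ := a1.out
  have : Group.FG G := Group.fg_of_surjective hφ
  refine ⟨X, h1, h2, G, a1, a2, a3, a4, a5, a6, a7, a8, a9, a10,
    hG.residuallyFinite, a11, not_elemAmenable a8 fun K hK h0 => ?_, a12⟩
  obtain ⟨k, hk⟩ := hG.normal_at a8 hK h0
  obtain ⟨x, -⟩ := exists_pair_ne X
  exact ⟨hG.atG (List.replicate k x), hG.atG_inj _, hk _ (by simp)⟩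

end Pool.Agent.Lib.MP_b611b5_al
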