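import Pool.Agent.Lib.MP_b611b5_al.St

/-! The ring of families compatible with a Steinberg system, and extension of a Steinberg system
from the roots meeting a distinguished set of indices. -/

set_option autoImplicit false
set_option linter.unusedSectionVars false

namespace Pool.Agent.Lib.MP_b611b5_al

open Subgroup
open scoped commutatorElement

section grp

variable {Γ : Type} [Group Γ]

lemma cm_assoc {u v w : Γ} (h1 : Commute u w) (h2 : Commute ⁅u, v⁆ ⁅v, w⁆)
    (h3 : Commute ⁅v, w⁆ w) : ⁅u, ⁅v, w⁆⁆ = ⁅⁅u, v⁆, w⁆ := by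
  set p := ⁅u, v⁆ with hp
  set q := ⁅v, w⁆ with hq
  have e1 : u * q * u⁻¹ = ⁅p * v, w⁆ := by
    rw [hq, conj_cm, conj_of_comm h1, conj_of_cm hp.symm]
  have e2 : ⁅p * v, w⁆ = p * q * p⁻¹ * ⁅p, w⁆ := by
    rw [hq]; simp only [commutatorElement_def]; group
  have e3 : Commute q ⁅p, w⁆ := by
    rw [commutatorElement_def]
    exact ((h2.symm.mul_right h3).mul_right h2.symm.inv_right).mul_right h3.inv_right
  rw [commutatorElement_def u q, e1, e2, conj_of_comm h2, e3.eq, mul_inv_cancel_right]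

lemma comm_cm {g u v : Γ} (h1 : Commute g u) (h2 : Commute g v) : Commute g ⁅u, v⁆ := by
  rw [commutatorElement_def]
  exact ((h1.mul_right h2).mul_right h1.inv_right).mul_right h2.inv_right

lemma cm_mul_left (u u' w : Γ) : ⁅u * u', w⁆ = u * ⁅u', w⁆ * u⁻¹ * ⁅u, w⁆ := by
  simp only [commutatorElement_def]; group

lemma cm_mul_right (w u u' : Γ) : ⁅w, u * u'⁆ = ⁅w, u⁆ * (u * ⁅w, u'⁆ * u⁻¹) := by
  simp only [commutatorElement_def]; group

lemma sq_cm {u w : Γ} (hu : u * u = 1) (h : Commute u ⁅u, w⁆) : ⁅u, w⁆ * ⁅u, w⁆ = 1 := by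
  have := cm_mul_left u u w
  rw [hu, conj_of_comm h] at this
  rw [← this]; simp

end grp

section ring

variable {n : Type} (S : Sh n) {Γ : Type} [Group Γ] (x : n → n → Γ)

/-- Commutation of two families. -/
def C1 (y y' : n → n → Γ) : Prop :=
  ∀ a b c d, S.Rt a b → S.Rt c d → b ≠ c → a ≠ d → Commute (y a b) (y' c d)

/-- Compatibility with the unit family. -/
def C2 (y : n → n → Γ) : Prop :=
  ∀ a b c, S.Rt a b → S.Rt b c → a ≠ c → ⁅x a b, y b c⁆ = y a c ∧ ⁅y a b, x b c⁆ = y a c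

/-- Normalisation off the roots. -/
def Nrm (y : n → n → Γ) : Prop := ∀ a b, ¬ S.Rt a b → y a b = 1

variable {S} in
lemma C1.symm {y y' : n → n → Γ} (h : C1 S y y') : C1 S y' y :=
  fun a b c d h1 h2 h3 h4 => (h c d a b h2 h1 h4.symm h3.symm).symm

variable (M : Set (n → n → Γ))

/-- First commutant. -/
def Cm1 (z : n → n → Γ) : Prop := Nrm S z ∧ C2 S x z ∧ ∀ y ∈ M, C1 S z y

/-- Second commutant. -/
def Cm2 (z : n → n → Γ) : Prop := Cm1 S x M z ∧ ∀ w, Cm1 S x M w → C1 S z w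

open Classical in
/-- Product of families. -/
noncomputable def fmul (y y' : n → n → Γ) (a c : n) : Γ :=
  if S.Rt a c then ⁅y a (S.fresh a c a c).choose, y' (S.fresh a c a c).choose c⁆ else 1

variable {S x M}

lemma fmul_spec {y y' : n → n → Γ} (hy : C2 S x y) (hy' : C2 S x y') (h1 : C1 S y y')
    (h2 : C1 S y' y') {a b c : n} (hab : S.Rt a b) (hbc : S.Rt b c) (hac : a ≠ c) :
    fmul S y y' a c = ⁅y a b, y' b c⁆ := by
  have rac : S.Rt a c := ⟨hab.1, hbc.2.1, hac⟩
  rw [fmul, if_pos rac]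
  obtain ⟨hr, hc, hoa, hoc, -, -⟩ := (S.fresh a c a c).choose_spec
  generalize (S.fresh a c a c).choose = o at *
  by_cases hob : o = b
  · rw [hob]
  have rao : S.Rt a o := ⟨hab.1, hc, hoa.symm⟩
  have rob : S.Rt o b := ⟨hr, hab.2.1, hob⟩
  have roc : S.Rt o c := ⟨hr, hbc.2.1, hoc⟩
  have ep := (hy a o b rao rob hab.2.2).2
  have eq := (hy' o b c rob hbc hoc).1
  have := cm_assoc (u := y a o) (v := x o b) (w := y' b c) (h1 a o b c rao hbc hob hac)
    (by rw [ep, eq]; exact h1 a b o c hab roc (Ne.symm hob) hac)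
    (by rw [eq]; exact h2 o c b c roc hbc hbc.2.2.symm hoc)
  rw [ep, eq] at this
  exact this

lemma fmul_C1 {y y' w : n → n → Γ} (hy : C2 S x y) (hy' : C2 S x y') (h1 : C1 S y y')
    (h2 : C1 S y' y') (h3 : C1 S y w) (h4 : C1 S y' w) : C1 S (fmul S y y') w := by
  intro a c d e hac hde hcd hae
  obtain ⟨o, hr, hc, hoa, hoc, hod, hoe⟩ := S.fresh a c d e
  have rao : S.Rt a o := ⟨hac.1, hc, hoa.symm⟩
  have roc : S.Rt o c := ⟨hr, hac.2.1, hoc⟩
  rw [fmul_spec hy hy' h1 h2 rao roc hac.2.2]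
  exact (comm_cm (h3 a o d e rao hde hod hae).symm (h4 o c d e roc hde hcd hoe).symm).symm

lemma fmul_nrm (y y' : n → n → Γ) : Nrm S (fmul S y y') := fun a b h => by
  rw [fmul, if_neg h]

lemma Cm2.c1 {y y' : n → n → Γ} (h : Cm2 S x M y) (h' : Cm2 S x M y') : C1 S y y' := h.2 _ h'.1

lemma Cm2.c2 {y : n → n → Γ} (h : Cm2 S x M y) : C2 S x y := h.1.2.1

lemma Cm2.spec {y y' : n → n → Γ} (h : Cm2 S x M y) (h' : Cm2 S x M y') {a b c : n}
    (hab : S.Rt a b) (hbc : S.Rt b c) (hac : a ≠ c) : fmul S y y' a c = ⁅y a b, y' b c⁆ :=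
  fmul_spec h.c2 h'.c2 (h.c1 h') (h'.c1 h') hab hbc hac

lemma Cm2.fmul_c1 {y y' w : n → n → Γ} (h : Cm2 S x M y) (h' : Cm2 S x M y') (hw : Cm1 S x M w) :
    C1 S (fmul S y y') w :=
  fmul_C1 h.c2 h'.c2 (h.c1 h') (h'.c1 h') (h.2 w hw) (h'.2 w hw)

lemma assoc_aux {y y' y'' : n → n → Γ} (h : Cm2 S x M y) (h' : Cm2 S x M y') (h'' : Cm2 S x M y'')
    {a b c : n} (hab : S.Rt a b) (hbc : S.Rt b c) (hac : a ≠ c) {o : n} (hr : S.Row o)
    (hc : S.Col o) (hoa : o ≠ a) (hob : o ≠ b) (hoc : o ≠ c)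
    (hh : C1 S (fmul S y y') (fmul S y' y'')) :
    ⁅y a b, fmul S y' y'' b c⁆ = ⁅fmul S y y' a o, y'' o c⁆ := by
  have rao : S.Rt a o := ⟨hab.1, hc, hoa.symm⟩
  have rbo : S.Rt b o := ⟨hbc.1, hc, hob.symm⟩
  have roc : S.Rt o c := ⟨hr, hbc.2.1, hoc⟩
  have ep := h.spec h' hab rbo hoa.symm
  have eq := h'.spec h'' rbo roc hbc.2.2
  have := cm_assoc (u := y a b) (v := y' b o) (w := y'' o c) (h.c1 h'' a b o c hab roc hob.symm hac)
    (by rw [← ep, ← eq]; exact hh a o b c rao hbc hob hac)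
    (by rw [← eq]; exact h'.fmul_c1 h'' h''.1 b c o c hbc roc hoc.symm hbc.2.2)
  rw [ep, eq]; exact this

lemma fam_ext {y y' : n → n → Γ} (h : Nrm S y) (h' : Nrm S y')
    (e : ∀ a b, S.Rt a b → y a b = y' a b) : y = y' := by
  funext a b
  by_cases hab : S.Rt a b
  · exact e a b hab
  · rw [h a b hab, h' a b hab]

lemma fam_ext' {y y' : n → n → Γ} (h : Nrm S y) (h' : Nrm S y')
    (e : ∀ a b c, S.Rt a b → S.Rt b c → a ≠ c → y a c = y' a c) : y = y' := by
  refine fam_ext h h' fun a c hac => ?_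
  obtain ⟨o, hr, hc, hoa, hoc, -, -⟩ := S.fresh a c a c
  exact e a o c ⟨hac.1, hc, hoa.symm⟩ ⟨hr, hac.2.1, hoc⟩ hac.2.2

lemma fmul_one (hx : Cm2 S x M x) {y : n → n → Γ} (h : Cm2 S x M y) : fmul S y x = y :=
  fam_ext' (fmul_nrm _ _) h.1.1 fun a b c h1 h2 h3 => by
    rw [h.spec hx h1 h2 h3, (h.c2 a b c h1 h2 h3).2]

lemma one_fmul (hx : Cm2 S x M x) {y : n → n → Γ} (h : Cm2 S x M y) : fmul S x y = y :=
  fam_ext' (fmul_nrm _ _) h.1.1 fun a b c h1 h2 h3 => by
    rw [hx.spec h h1 h2 h3, (h.c2 a b c h1 h2 h3).1]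

lemma Cm2.fmul (hM : ∀ y ∈ M, Cm1 S x M y) (hx : Cm2 S x M x) {y y' : n → n → Γ}
    (h : Cm2 S x M y) (h' : Cm2 S x M y') : Cm2 S x M (fmul S y y') := by
  refine ⟨⟨fmul_nrm _ _, ?_, fun w hw => h.fmul_c1 h' (hM w hw)⟩, fun w hw => h.fmul_c1 h' hw⟩
  intro a b c hab hbc hac
  constructor
  · obtain ⟨o, hr, hc, hoa, hob, hoc, -⟩ := S.fresh a b c c
    rw [assoc_aux hx h h' hab hbc hac hr hc hoa hob hoc
      (by rw [one_fmul hx h]; exact (h.fmul_c1 h' h.1).symm), one_fmul hx h]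
    exact (h.spec h' ⟨hab.1, hc, hoa.symm⟩ ⟨hr, hbc.2.1, hoc⟩ hac).symm
  · obtain ⟨o, hr, hc, hoa, hob, hoc, -⟩ := S.fresh a b c c
    rw [← assoc_aux h h' hx (b := o) ⟨hab.1, hc, hoa.symm⟩ ⟨hr, hbc.2.1, hoc⟩ hac hbc.1 hab.2.1
      hab.2.2.symm hob.symm hbc.2.2 (by rw [fmul_one hx h']; exact h.fmul_c1 h' h'.1),
      fmul_one hx h']
    exact (h.spec h' ⟨hab.1, hc, hoa.symm⟩ ⟨hr, hbc.2.1, hoc⟩ hac).symm

lemma fmul_assoc (hM : ∀ y ∈ M, Cm1 S x M y) (hx : Cm2 S x M x) {y y' y'' : n → n → Γ}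
    (h : Cm2 S x M y) (h' : Cm2 S x M y') (h'' : Cm2 S x M y'') :
    fmul S (fmul S y y') y'' = fmul S y (fmul S y' y'') := by
  refine fam_ext' (fmul_nrm _ _) (fmul_nrm _ _) fun a b c hab hbc hac => ?_
  obtain ⟨o, hr, hc, hoa, hob, hoc, -⟩ := S.fresh a b c c
  rw [h.spec (Cm2.fmul hM hx h' h'') hab hbc hac,
    assoc_aux h h' h'' hab hbc hac hr hc hoa hob hoc
      ((Cm2.fmul hM hx h h').c1 (Cm2.fmul hM hx h' h'')),
    (Cm2.fmul hM hx h h').spec h'' ⟨hab.1, hc, hoa.symm⟩ ⟨hr, hbc.2.1, hoc⟩ hac]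

lemma Cm2.add {y y' : n → n → Γ} (h : Cm2 S x M y) (h' : Cm2 S x M y') : Cm2 S x M (y * y') := by
  refine ⟨⟨fun a b hab => ?_, fun a b c hab hbc hac => ⟨?_, ?_⟩, fun w hw a b c d h1 h2 h3 h4 =>
    (h.1.2.2 w hw a b c d h1 h2 h3 h4).mul_left (h'.1.2.2 w hw a b c d h1 h2 h3 h4)⟩,
    fun w hw a b c d h1 h2 h3 h4 =>
    (h.2 w hw a b c d h1 h2 h3 h4).mul_left (h'.2 w hw a b c d h1 h2 h3 h4)⟩
  · simp [h.1.1 a b hab, h'.1.1 a b hab]
  · have rac : S.Rt a c := ⟨hab.1, hbc.2.1, hac⟩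
    simp only [Pi.mul_apply]
    rw [cm_mul_right, (h.c2 a b c hab hbc hac).1, (h'.c2 a b c hab hbc hac).1,
      conj_of_comm (h.c1 h' b c a c hbc rac hac.symm hbc.2.2)]
  · have rac : S.Rt a c := ⟨hab.1, hbc.2.1, hac⟩
    simp only [Pi.mul_apply]
    rw [cm_mul_left, (h.c2 a b c hab hbc hac).2, (h'.c2 a b c hab hbc hac).2,
      conj_of_comm (h.c1 h' a b a c hab rac hab.2.2.symm hac),
      (h.c1 h' a c a c rac rac hac.symm hac).eq]

lemma Cm2.zero : Cm2 S x M 1 := by
  refine ⟨⟨fun _ _ _ => rfl, fun a b c _ _ _ => by simp, fun w _ a b c d _ _ _ _ => ?_⟩,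
    fun w _ a b c d _ _ _ _ => ?_⟩ <;> exact Commute.one_left _

lemma Cm2.sq (hsq : ∀ a b, S.Rt a b → x a b * x a b = 1) (hx : Cm2 S x M x) {y : n → n → Γ}
    (h : Cm2 S x M y) : y * y = 1 := by
  refine fam_ext' (h.add h).1.1 (fun _ _ _ => rfl) fun a b c hab hbc hac => ?_
  have e := (h.c2 a b c hab hbc hac).1
  simp only [Pi.mul_apply, Pi.one_apply]
  rw [← e]
  refine sq_cm (hsq a b hab) ?_
  rw [e]
  exact hx.c1 h a b a c hab ⟨hab.1, hbc.2.1, hac⟩ hab.2.2.symm hac

lemma Cm2.add_comm {y y' : n → n → Γ} (h : Cm2 S x M y) (h' : Cm2 S x M y') : y * y' = y' * y :=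
  fam_ext (h.add h').1.1 (h'.add h).1.1 fun a b hab =>
    (h.c1 h' a b a b hab hab hab.2.2.symm hab.2.2).eq

lemma fmul_add (hM : ∀ y ∈ M, Cm1 S x M y) (hx : Cm2 S x M x) {y y' w : n → n → Γ}
    (h : Cm2 S x M y) (h' : Cm2 S x M y') (hw : Cm2 S x M w) :
    fmul S w (y * y') = fmul S w y * fmul S w y' := by
  refine fam_ext' (fmul_nrm _ _) ((Cm2.fmul hM hx hw h).add (Cm2.fmul hM hx hw h')).1.1
    fun a b c hab hbc hac => ?_
  rw [hw.spec (h.add h') hab hbc hac]
  simp only [Pi.mul_apply]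
  rw [cm_mul_right, ← hw.spec h hab hbc hac, ← hw.spec h' hab hbc hac,
    conj_of_comm (h.c1 (Cm2.fmul hM hx hw h') b c a c hbc ⟨hab.1, hbc.2.1, hac⟩ hac.symm hbc.2.2)]

lemma add_fmul (hM : ∀ y ∈ M, Cm1 S x M y) (hx : Cm2 S x M x) {y y' w : n → n → Γ}
    (h : Cm2 S x M y) (h' : Cm2 S x M y') (hw : Cm2 S x M w) :
    fmul S (y * y') w = fmul S y w * fmul S y' w := by
  refine fam_ext' (fmul_nrm _ _) ((Cm2.fmul hM hx h hw).add (Cm2.fmul hM hx h' hw)).1.1
    fun a b c hab hbc hac => ?_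
  have rac : S.Rt a c := ⟨hab.1, hbc.2.1, hac⟩
  rw [(h.add h').spec hw hab hbc hac]
  simp only [Pi.mul_apply]
  rw [cm_mul_left, ← h.spec hw hab hbc hac, ← h'.spec hw hab hbc hac,
    conj_of_comm (h.c1 (Cm2.fmul hM hx h' hw) a b a c hab rac hab.2.2.symm hac),
    ((Cm2.fmul hM hx h hw).c1 (Cm2.fmul hM hx h' hw) a c a c rac rac hac.symm hac).eq]

/-- The underlying type of the ring of families. -/
def FamR (S : Sh n) (x : n → n → Γ) (M : Set (n → n → Γ)) : Type := {y // Cm2 S x M y}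

/-- The ring structure on families. -/
@[reducible] noncomputable def famRing (hM : ∀ y ∈ M, Cm1 S x M y) (hx : Cm2 S x M x)
    (hsq : ∀ a b, S.Rt a b → x a b * x a b = 1) : Ring (FamR S x M) :=
  letI : Add (FamR S x M) := ⟨fun y y' => ⟨y.1 * y'.1, y.2.add y'.2⟩⟩
  letI : Zero (FamR S x M) := ⟨⟨1, Cm2.zero⟩⟩
  letI : Neg (FamR S x M) := ⟨fun y => y⟩
  letI : Mul (FamR S x M) := ⟨fun y y' => ⟨fmul S y.1 y'.1, Cm2.fmul hM hx y.2 y'.2⟩⟩
  letI : One (FamR S x M) := ⟨⟨x, hx⟩⟩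
  Ring.ofMinimalAxioms
    (fun a b c => Subtype.ext (mul_assoc a.1 b.1 c.1))
    (fun a => Subtype.ext (one_mul a.1))
    (fun a => Subtype.ext (Cm2.sq hsq hx a.2))
    (fun a b c => Subtype.ext (fmul_assoc hM hx a.2 b.2 c.2))
    (fun a => Subtype.ext (one_fmul hx a.2))
    (fun a => Subtype.ext (fmul_one hx a.2))
    (fun a b c => Subtype.ext (fmul_add hM hx b.2 c.2 a.2))
    (fun a b c => Subtype.ext (add_fmul hM hx a.2 b.2 c.2))

end ring

section data

variable {n : Type} {S : Sh n} {Γ : Type} [Group Γ]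

/-- A commutative ring of families containing given families. -/
structure RingData (S : Sh n) {ι : Type} (e : ι → n → n → Γ) (i₀ : ι) : Type 1 where
  R : Type
  inst : CommRing R
  val : R → n → n → Γ
  el : ι → R
  inj : ∀ α β, (∀ a b, S.Rt a b → val α a b = val β a b) → α = β
  val_el : ∀ i a b, S.Rt a b → val (el i) a b = e i a b
  el_one : el i₀ = 1
  val_zero : ∀ a b, val 0 a b = 1
  val_add : ∀ α β a b, val (α + β) a b = val α a b * val β a b
  val_mul : ∀ α β a b c, S.Rt a b → S.Rt b c → a ≠ c → val (α * β) a c = ⁅val α a b, val β b c⁆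
  two : ∀ α : R, α + α = 0
  c1 : ∀ α β, C1 S (val α) (val β)
  cent : ∀ γ : Γ, (∀ i a b, S.Rt a b → Commute γ (e i a b)) →
    ∀ α a b, S.Rt a b → Commute γ (val α a b)

attribute [instance] RingData.inst

open scoped IsMulCommutative in
theorem exists_ringData {ι : Type} (e : ι → n → n → Γ) (i₀ : ι)
    (hsq : ∀ a b, S.Rt a b → e i₀ a b * e i₀ a b = 1)
    (h1 : ∀ i j, C1 S (e i) (e j)) (h2 : ∀ i, C2 S (e i₀) (e i))
    (h3 : ∀ i j a b c, S.Rt a b → S.Rt b c → a ≠ c → ⁅e i a b, e j b c⁆ = ⁅e j a b, e i b c⁆) :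
    Nonempty (RingData S e i₀) := by
  classical
  let e' : ι → n → n → Γ := fun i a b => if S.Rt a b then e i a b else 1
  have he : ∀ i a b, S.Rt a b → e' i a b = e i a b := fun i a b h => if_pos h
  let M : Set (n → n → Γ) := Set.range e'
  have hM : ∀ y ∈ M, Cm1 S (e' i₀) M y := by
    rintro _ ⟨i, rfl⟩
    refine ⟨fun a b h => if_neg h, fun a b c hab hbc hac => ?_, ?_⟩
    · have rac : S.Rt a c := ⟨hab.1, hbc.2.1, hac⟩
      rw [he _ _ _ hab, he _ _ _ hbc, he _ _ _ hab, he _ _ _ hbc, he _ _ _ rac]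
      exact h2 i a b c hab hbc hac
    · rintro _ ⟨j, rfl⟩ a b c d hab hcd h3 h4
      rw [he _ _ _ hab, he _ _ _ hcd]
      exact h1 i j a b c d hab hcd h3 h4
  have hM2 : ∀ i, Cm2 S (e' i₀) M (e' i) := fun i =>
    ⟨hM _ ⟨i, rfl⟩, fun w hw => (hw.2.2 _ ⟨i, rfl⟩).symm⟩
  have hsq' : ∀ a b, S.Rt a b → e' i₀ a b * e' i₀ a b = 1 := fun a b h => by
    rw [he _ _ _ h]; exact hsq a b h
  let _ : Ring (FamR S (e' i₀) M) := famRing hM (hM2 i₀) hsq'
  let el : ι → FamR S (e' i₀) M := fun i => ⟨e' i, hM2 i⟩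
  have hcomm : ∀ y ∈ Set.range el, ∀ y' ∈ Set.range el, y * y' = y' * y := by
    rintro _ ⟨i, rfl⟩ _ ⟨j, rfl⟩
    refine Subtype.ext (fam_ext' (fmul_nrm _ _) (fmul_nrm _ _) fun a b c hab hbc hac => ?_)
    change fmul S (e' i) (e' j) a c = fmul S (e' j) (e' i) a c
    rw [(hM2 i).spec (hM2 j) hab hbc hac, (hM2 j).spec (hM2 i) hab hbc hac,
      he _ _ _ hab, he _ _ _ hbc, he _ _ _ hab, he _ _ _ hbc]
    exact h3 i j a b c hab hbc hac
  have := Subring.isMulCommutative_closure hcomm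
  refine ⟨{ R := Subring.closure (Set.range el)
            inst := inferInstance
            val := fun α => α.1.1
            el := fun i => ⟨el i, Subring.subset_closure ⟨i, rfl⟩⟩
            inj := fun α β h => Subtype.ext (Subtype.ext (fam_ext α.1.2.1.1 β.1.2.1.1 h))
            val_el := he
            el_one := rfl
            val_zero := fun _ _ => rfl
            val_add := fun _ _ _ _ => rfl
            val_mul := fun α β a b c hab hbc hac => α.1.2.spec β.1.2 hab hbc hac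
            two := fun α => Subtype.ext (Subtype.ext (Cm2.sq hsq' (hM2 i₀) α.1.2))
            c1 := fun α β => α.1.2.c1 β.1.2
            cent := ?_ }⟩
  rintro γ hγ ⟨α, hα⟩
  change ∀ a b, S.Rt a b → Commute γ (α.1 a b)
  induction hα using Subring.closure_induction with
  | mem y hy =>
    obtain ⟨i, rfl⟩ := hy
    intro a b h
    change Commute γ (e' i a b)
    rw [he _ _ _ h]; exact hγ i a b h
  | zero => exact fun a b _ => Commute.one_right _
  | one =>
    intro a b h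
    change Commute γ (e' i₀ a b)
    rw [he _ _ _ h]; exact hγ i₀ a b h
  | add y y' _ _ i1 i2 => exact fun a b h => (i1 a b h).mul_right (i2 a b h)
  | neg y _ i1 => exact i1
  | mul y y' _ _ i1 i2 =>
    intro a c hac
    obtain ⟨o, hr, hc, hoa, hoc, -, -⟩ := S.fresh a c a c
    have rao : S.Rt a o := ⟨hac.1, hc, hoa.symm⟩
    have roc : S.Rt o c := ⟨hr, hac.2.1, hoc⟩
    change Commute γ (fmul S y.1 y'.1 a c)
    rw [y.2.spec y'.2 rao roc hac.2.2]
    exact comm_cm (i1 a o rao) (i2 o c roc)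

variable {ι : Type} {e : ι → n → n → Γ} {i₀ : ι} (D : RingData S e i₀)

lemma RingData.isSt {α : D.R} (h : α * α = α) : IsSt S (D.val α) where
  sq a b _ := by rw [← D.val_add, D.two, D.val_zero]
  comm := D.c1 α α
  cm a b c h1 h2 h3 := by rw [← D.val_mul α α a b c h1 h2 h3, h]

lemma RingData.orth {α β : D.R} (h : α * β = 0) (hβ : β * β = β) {a b c d : n} (hab : S.Rt a b)
    (hcd : S.Rt c d) :
    Commute (D.val α a b) (D.val β c d) := by
  have k1 : ∀ a b c, S.Rt a b → S.Rt b c → a ≠ c → Commute (D.val α a b) (D.val β b c) :=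
    fun a b c h1 h2 h3 => by
      rw [← commutatorElement_eq_one_iff_commute, ← D.val_mul α β a b c h1 h2 h3, h, D.val_zero]
  have k2 : ∀ a b c, S.Rt a b → S.Rt b c → a ≠ c → Commute (D.val β a b) (D.val α b c) :=
    fun a b c h1 h2 h3 => by
      rw [← commutatorElement_eq_one_iff_commute, ← D.val_mul β α a b c h1 h2 h3, mul_comm, h,
        D.val_zero]
  by_cases hbc : b = c
  · subst hbc
    by_cases had : a = d
    · subst had
      obtain ⟨o, hr, hc, hoa, hob, -, -⟩ := S.fresh a b a b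
      have rbo : S.Rt b o := ⟨hcd.1, hc, hob.symm⟩
      have roa : S.Rt o a := ⟨hr, hcd.2.1, hoa⟩
      have : D.val β b a = ⁅D.val β b o, D.val β o a⁆ := by
        rw [← D.val_mul β β b o a rbo roa hcd.2.2, hβ]
      rw [this]
      exact comm_cm (k1 a b o hab rbo hoa.symm) (k2 o a b roa hab hob).symm
    · exact k1 a b d hab hcd had
  · by_cases had : a = d
    · subst had
      exact (k2 c a b hcd hab (Ne.symm hbc)).symm
    · exact D.c1 α β a b c d hab hcd hbc had

lemma commute_of_gens [DecidableEq n] {f g : EG S →* Γ}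
    (h : ∀ a b c d, S.Rt a b → S.Rt c d → Commute (f (eg S a b)) (g (eg S c d))) (u v : EG S) :
    Commute (f u) (g v) := by
  induction u using EG_induction with
  | mem a b hab =>
    induction v using EG_induction with
    | mem c d hcd => exact h a b c d hab hcd
    | one => simp
    | mul v v' h1 h2 => rw [map_mul]; exact h1.mul_right h2
  | one => simp
  | mul u u' h1 h2 => rw [map_mul]; exact h1.mul_left h2

open Classical in
/-- Indicator elements of a power of a group. -/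
noncomputable def ind {L A : Type} [Group A] (E : L → Prop) : A →* (L → A) where
  toFun a := fun l => if E l then a else 1
  map_one' := by funext l; simp
  map_mul' a b := by funext l; simp only [Pi.mul_apply]; split_ifs <;> simp

lemma ind_pos {L A : Type} [Group A] {E : L → Prop} {l : L} (h : E l) (a : A) : ind E a l = a :=
  if_pos h

lemma ind_neg {L A : Type} [Group A] {E : L → Prop} {l : L} (h : ¬ E l) (a : A) : ind E a l = 1 :=
  if_neg h

lemma ind_congr {L A : Type} [Group A] {E E' : L → Prop} (h : ∀ l, E l ↔ E' l) :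
    (ind E : A →* (L → A)) = ind E' := by
  rw [show E = E' from funext fun l => propext (h l)]

lemma ind_cm {L A : Type} [Group A] (E E' : L → Prop) (a b : A) :
    ⁅ind E a, ind E' b⁆ = ind (fun l => E l ∧ E' l) ⁅a, b⁆ := by
  funext l
  simp only [commutatorElement_def, Pi.mul_apply, Pi.inv_apply]
  by_cases h : E l <;> by_cases h' : E' l <;> simp [ind_pos, ind_neg, h, h']

lemma ind_commute {L A : Type} [Group A] (E E' : L → Prop) {a b : A} (h : Commute a b) :
    Commute (ind E a) (ind E' b) := by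
  rw [← commutatorElement_eq_one_iff_commute, ind_cm, h.commutator_eq, map_one]

lemma ind_false {L A : Type} [Group A] {E : L → Prop} (h : ∀ l, ¬ E l) (a : A) : ind E a = 1 :=
  funext fun l => ind_neg (h l) a

lemma ind_commute' {L A : Type} [Group A] {E E' : L → Prop} (h : ∀ l, E l → ¬ E' l) (a b : A) :
    Commute (ind E a) (ind E' b) := by
  rw [← commutatorElement_eq_one_iff_commute, ind_cm, ind_false (fun l hl => h l hl.1 hl.2)]

lemma ind_or {L A : Type} [Group A] {E E' : L → Prop} (h : ∀ l, E l → ¬ E' l) (a : A) :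
    ind (fun l => E l ∨ E' l) a = ind E a * ind E' a := by
  funext l
  simp only [Pi.mul_apply]
  by_cases h1 : E l
  · simp [ind_pos, ind_neg, h1, h l h1]
  · by_cases h2 : E' l <;> simp [ind_pos, ind_neg, h1, h2]

lemma ind_single {L A : Type} [Group A] [DecidableEq L] (l : L) (a : A) :
    (Pi.mulSingle l a : L → A) = ind (fun l' => l' = l) a := by
  funext l'
  by_cases h : l' = l
  · subst h; simp [ind_pos]
  · simp [ind_neg, h]

lemma K_hom_ext [DecidableEq n] {L : Type} [Finite L] {f g : (L → EG S) →* Γ}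
    (h : ∀ l a b, S.Rt a b → f (ind (fun l' => l' = l) (eg S a b)) =
      g (ind (fun l' => l' = l) (eg S a b))) : f = g := by
  classical
  refine MonoidHom.pi_ext fun l u => ?_
  rw [ind_single]
  exact DFunLike.congr_fun (EG_hom_ext (f := f.comp (ind _)) (g := g.comp (ind _)) (h l)) u

lemma K_mem [DecidableEq n] {L : Type} [Finite L] {H : Subgroup (L → EG S)}
    (h : ∀ l a b, S.Rt a b → ind (fun l' => l' = l) (eg S a b) ∈ H) (k : L → EG S) : k ∈ H := by
  classical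
  refine Subgroup.pi_mem_of_mulSingle_mem k fun l => ?_
  rw [ind_single]
  exact EG_mem_of_gens (H := H.comap (ind _)) (h l) (k l)

/-- A homomorphism from a power of the group with commuting values is trivial. -/
lemma K_perfect [DecidableEq n] {L : Type} [Finite L] (f : (L → EG S) →* Γ)
    (h : ∀ k k', Commute (f k) (f k')) (k : L → EG S) : f k = 1 := by
  have : f = 1 := K_hom_ext fun l a b hab => by
    obtain ⟨o, -, -, -, -, e⟩ := eg_cm hab a a
    rw [e, map_commutatorElement, map_commutatorElement, (h _ _).commutator_eq]; rfl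
  rw [this]; rfl

open Classical in
theorem RingData.exists_tau [DecidableEq n] [Finite n] {L : Type} [Fintype L] (ε : L → D.R)
    (h1 : ∀ l, ε l * ε l = ε l) (h2 : ∀ l l', l ≠ l' → ε l * ε l' = 0) :
    ∃ τ : (L → EG S) →* Γ, ∀ (E : L → Prop) a b, S.Rt a b →
      τ (ind E (eg S a b)) = D.val (∑ l ∈ Finset.univ.filter E, ε l) a b := by
  choose θ hθ using fun l => exists_hom (D.isSt (h1 l))
  have hc : Pairwise fun l l' => ∀ u v, Commute (θ l u) (θ l' v) := fun l l' h =>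
    commute_of_gens fun a b c d hab hcd => by
      rw [hθ l a b hab, hθ l' c d hcd]; exact D.orth (h2 l l' h) (h1 l') hab hcd
  refine ⟨MonoidHom.noncommPiCoprod θ hc, fun E a b hab => ?_⟩
  have key : ∀ T : Finset L, MonoidHom.noncommPiCoprod θ hc (ind (· ∈ T) (eg S a b)) =
      D.val (∑ l ∈ T, ε l) a b := by
    intro T
    induction T using Finset.induction_on with
    | empty => rw [ind_false (by simp), map_one, Finset.sum_empty, D.val_zero]
    | insert l T hl ih =>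
      rw [Finset.sum_insert hl, D.val_add, ← ih, ← hθ l a b hab,
        ← MonoidHom.noncommPiCoprod_mulSingle θ (hcomm := hc), ← map_mul, ind_single,
        ← ind_or (by rintro _ rfl; exact hl)]
      congr 2
      exact ind_congr (by simp)
  rw [← key]
  congr 2
  exact ind_congr (by simp)

end data

section ext

variable {n : Type} {Γ : Type} [Group Γ]

/-- The full shape on a type with a large distinguished subset. -/
def fullSh (O : n → Prop)
    (h : ∀ a b c d : n, ∃ o, O o ∧ o ≠ a ∧ o ≠ b ∧ o ≠ c ∧ o ≠ d) : Sh n where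
  Row _ := True
  Col _ := True
  fresh a b c d := by
    obtain ⟨o, -, h⟩ := h a b c d
    exact ⟨o, trivial, trivial, h⟩

/-- Extension of a Steinberg system from the roots meeting `O` to all roots. -/
theorem extend_st (O : n → Prop) (hO : ∀ a b c d : n, ∃ o, O o ∧ o ≠ a ∧ o ≠ b ∧ o ≠ c ∧ o ≠ d)
    (y : n → n → Γ) (hsq : ∀ a b, a ≠ b → (O a ∨ O b) → y a b * y a b = 1)
    (hcomm : ∀ a b c d, a ≠ b → (O a ∨ O b) → c ≠ d → (O c ∨ O d) → b ≠ c → a ≠ d →
      Commute (y a b) (y c d))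
    (hcm : ∀ a b c, a ≠ b → (O a ∨ O b) → b ≠ c → (O b ∨ O c) → a ≠ c → (O a ∨ O c) →
      ⁅y a b, y b c⁆ = y a c) :
    ∃ z : n → n → Γ, IsSt (fullSh O hO) z ∧ ∀ a b, (O a ∨ O b) → z a b = y a b := by
  classical
  let z : n → n → Γ := fun a c => if O a ∨ O c then y a c else
    ⁅y a (hO a c a c).choose, y (hO a c a c).choose c⁆
  have hz : ∀ a b, (O a ∨ O b) → z a b = y a b := fun a b h => if_pos h
  have spec : ∀ a b c, a ≠ b → b ≠ c → a ≠ c → O b → z a c = ⁅y a b, y b c⁆ := by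
    intro a b c hab hbc hac hb
    by_cases h : O a ∨ O c
    · rw [hz a c h, hcm a b c hab (Or.inr hb) hbc (Or.inl hb) hac h]
    have : z a c = ⁅y a (hO a c a c).choose, y (hO a c a c).choose c⁆ := if_neg h
    rw [this]
    obtain ⟨ho, hoa, hoc, -, -⟩ := (hO a c a c).choose_spec
    generalize (hO a c a c).choose = o at *
    by_cases hob : o = b
    · rw [hob]
    have ep := hcm a o b hoa.symm (Or.inr ho) hob (Or.inl ho) hab (Or.inr hb)
    have eq := hcm o b c hob (Or.inl ho) hbc (Or.inl hb) hoc (Or.inl ho)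
    have := cm_assoc (u := y a o) (v := y o b) (w := y b c)
      (hcomm a o b c hoa.symm (Or.inr ho) hbc (Or.inl hb) hob hac)
      (by rw [ep, eq]; exact hcomm a b o c hab (Or.inr hb) hoc (Or.inl ho) (Ne.symm hob) hac)
      (by rw [eq]; exact hcomm o c b c hoc (Or.inl ho) hbc (Or.inl hb) hbc.symm hoc)
    rw [ep, eq] at this
    exact this
  have c1 : ∀ a b c d, a ≠ b → (O a ∨ O b) → c ≠ d → b ≠ c → a ≠ d →
      Commute (y a b) (z c d) := by
    intro a b c d hab h hcd hbc had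
    obtain ⟨o, ho, hoa, hob, hoc, hod⟩ := hO a b c d
    rw [spec c o d hoc.symm hod hcd ho]
    exact comm_cm (hcomm a b c o hab h hoc.symm (Or.inr ho) hbc hoa.symm)
      (hcomm a b o d hab h hod (Or.inl ho) hob.symm had)
  have c2 : ∀ a b c d, a ≠ b → c ≠ d → b ≠ c → a ≠ d → Commute (z a b) (z c d) := by
    intro a b c d hab hcd hbc had
    obtain ⟨o, ho, hoa, hob, hoc, hod⟩ := hO a b c d
    rw [spec a o b hoa.symm hob hab ho]
    exact (comm_cm (c1 a o c d hoa.symm (Or.inr ho) hcd hoc had).symm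
      (c1 o b c d hob (Or.inl ho) hcd hbc hod).symm).symm
  have spec' : ∀ a b c, a ≠ b → b ≠ c → a ≠ c → O b → ⁅z a b, z b c⁆ = z a c := by
    intro a b c hab hbc hac hb
    rw [hz a b (Or.inr hb), hz b c (Or.inl hb), spec a b c hab hbc hac hb]
  have left : ∀ a b c, a ≠ b → b ≠ c → a ≠ c → O a → ⁅z a b, z b c⁆ = z a c := by
    intro a b c hab hbc hac ha
    obtain ⟨o, ho, hoa, hob, hoc, -⟩ := hO a b c c
    have eq := spec' b o c hob.symm hoc hbc ho
    have ep : ⁅z a b, z b o⁆ = z a o := by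
      rw [hz a b (Or.inl ha), hz b o (Or.inr ho), hz a o (Or.inl ha)]
      exact hcm a b o hab (Or.inl ha) hob.symm (Or.inr ho) hoa.symm (Or.inl ha)
    have := cm_assoc (u := z a b) (v := z b o) (w := z o c) (c2 a b o c hab hoc hob.symm hac)
      (by rw [ep, eq]; exact c2 a o b c hoa.symm hbc hob hac)
      (by rw [eq]; exact c2 b c o c hbc hoc hoc.symm hbc)
    rw [ep, eq] at this
    rw [this, spec' a o c hoa.symm hoc hac ho]
  refine ⟨z, ⟨fun a b h => ?_, fun a b c d h h' => c2 a b c d h.2.2 h'.2.2,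
    fun a b c h h' hac => ?_⟩, hz⟩
  · obtain ⟨o, ho, hoa, hob, -, -⟩ := hO a b a b
    have e := spec a o b hoa.symm hob h.2.2 ho
    rw [e]
    refine sq_cm (hsq a o hoa.symm (Or.inr ho)) ?_
    rw [← e]
    exact c1 a o a b hoa.symm (Or.inr ho) h.2.2 hoa h.2.2
  · have hab := h.2.2
    have hbc := h'.2.2
    obtain ⟨o, ho, hoa, hob, hoc, -⟩ := hO a b c c
    have ep := spec' a o b hoa.symm hob hab ho
    have eq := left o b c hob hbc hoc ho
    have := cm_assoc (u := z a o) (v := z o b) (w := z b c) (c2 a o b c hoa.symm hbc hob hac)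
      (by rw [ep, eq]; exact c2 a b o c hab hoc hob.symm hac)
      (by rw [eq]; exact c2 o c b c hoc hbc hbc.symm hoc)
    rw [ep, eq] at this
    rw [← this, spec' a o c hoa.symm hoc hac ho]

end ext

end Pool.Agent.Lib.MP_b611b5_al
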