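import Pool.Agent.Lib.MP_b611b5_al.Design

/-! Robust relators, and the lift of the root group. -/

set_option autoImplicit false
set_option linter.unusedSectionVars false

namespace Pool.Agent.Lib.MP_b611b5_al

open Subgroup
open scoped commutatorElement

noncomputable section

/-- The type living on a side of an edge. -/
def ty (i : Fin 3) : Bool → Fin 3
  | true => i
  | false => i + 1

/-- The group of sections at an edge letter. -/
def FE (i : Fin 3) (ν : Nm) : Subgroup FF :=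
  closure {w | ∃ σ k, w = ofK (ty i σ) (sec (.edge σ ν) k)}

variable {Γ : Type} [Group Γ]

/-- True relations inside the groups `FE` hold up to the centre. -/
def HypH (f : FF →* Γ) : Prop :=
  ∀ i ν, ∀ r ∈ FE i ν, r ∈ NN → ∀ g ∈ FE i ν, Commute (f r) (f g)

/-- Relations of the recursion hold in `U` up to the centre. -/
def Good (f : FF →* Γ) (U : Subgroup FF) : Prop :=
  ∀ r ∈ U, psi r = 1 → ∀ g ∈ U, Commute (f r) (f g)

lemma cm_central {a b u v : Γ} (h1 : Commute a u) (h2 : Commute a v) (h3 : Commute a b)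
    (h4 : Commute b u) (h5 : Commute b v) : ⁅a * u, b * v⁆ = ⁅u, v⁆ := by
  have e1 : ⁅a, b * v⁆ = 1 := (h3.mul_right h2).commutator_eq
  have e2 : ⁅u, b⁆ = 1 := h4.symm.commutator_eq
  rw [cm_mul_left, e1, mul_one, cm_mul_right, e2, one_mul, conj_of_comm (comm_cm h4 h5),
    conj_of_comm (comm_cm h1 h2)]

variable {f : FF →* Γ}

lemma RL {U : Subgroup FF} (hU : Good f U) {g k₁ k₂ k₁' k₂' : FF} (hg : g ∈ U) (h1 : k₁ ∈ U)
    (h2 : k₂ ∈ U) (h1' : k₁' ∈ U) (h2' : k₂' ∈ U) (e1 : psi g * psi k₁ * (psi g)⁻¹ = psi k₁')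
    (e2 : psi g * psi k₂ * (psi g)⁻¹ = psi k₂') :
    f g * ⁅f k₁, f k₂⁆ * (f g)⁻¹ = ⁅f k₁', f k₂'⁆ := by
  have m1 : g * k₁ * g⁻¹ * k₁'⁻¹ ∈ U := mul_mem (mul_mem (mul_mem hg h1) (inv_mem hg)) (inv_mem h1')
  have m2 : g * k₂ * g⁻¹ * k₂'⁻¹ ∈ U := mul_mem (mul_mem (mul_mem hg h2) (inv_mem hg)) (inv_mem h2')
  have c1 := hU _ m1 (by simp [e1])
  have c2 := hU _ m2 (by simp [e2])
  have := cm_central (c1 _ h1') (c1 _ h2') (c1 _ m2) (c2 _ h1') (c2 _ h2')
  rw [← this, conj_cm]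
  simp

lemma RLhom {U : Subgroup FF} (hU : Good f U) {g : FF} (hg : g ∈ U) (f₁ f₂ : GA →* FF)
    (h1 : ∀ a, f₁ a ∈ U) (h2 : ∀ a, f₂ a ∈ U)
    (e : ∀ a, psi g * psi (f₁ a) * (psi g)⁻¹ = psi (f₂ a)) (a : GA) :
    f g * f (f₁ a) * (f g)⁻¹ = f (f₂ a) := by
  have : ((MulAut.conj (f g)).toMonoidHom.comp f).comp f₁ = f.comp f₂ := by
    refine EG_hom_ext fun a b hab => ?_
    obtain ⟨o, -, -, -, -, e'⟩ := eg_cm hab a a
    rw [e']
    simp only [MonoidHom.comp_apply, MulEquiv.coe_toMonoidHom, MulAut.conj_apply]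
    rw [map_commutatorElement f₁, map_commutatorElement f₂, map_commutatorElement f,
      map_commutatorElement f]
    exact RL hU hg (h1 _) (h1 _) (h2 _) (h2 _) (e _) (e _)
  exact DFunLike.congr_fun this a

/-- A predicate on labels that depends only on the items of a load. -/
def Fac (t : Slot → Item) (E : Lab → Prop) : Prop :=
  ∀ l l' : Lab, (∀ s, l (t s) = l' (t s)) → E l → E l'

lemma mem_FE (i : Fin 3) (σ : Bool) (L : Ldr) {E : Lab → Prop} (hE : Fac L.t E)
    (hm : ∀ l, E l → mask (.edge σ (L, false)) (l none)) (a : GA) :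
    ofK (ty i σ) (indL E a) ∈ FE i (L, false) := by
  refine subset_closure ⟨σ, indL (fun m => ∃ l, (∀ s, l (L.t s) = m (some s)) ∧ E l) a, ?_⟩
  rw [sec_indL]
  congr 2
  exact indL_congr fun l _ => ⟨fun h => ⟨hm l h, l, fun _ => rfl, h⟩,
    fun ⟨_, l', h1, h2⟩ => hE l' l h1 h2⟩

lemma fac_top {t : Slot → Item} (ht : ∃ s, t s = none) : Fac t fun l => l none = none := by
  obtain ⟨s, hs⟩ := ht
  intro l l' h e
  have := h s
  rw [hs] at this
  rw [← this, e]

lemma exists_good (hf : HypH f) {j j' : Fin 3} (hj : j ≠ j') (t : Slot → Item)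
    (ht : ∃ s, t s = none) : ∃ U, Good f U ∧ (∀ E, Fac t E → ∀ a, ofK j (indL E a) ∈ U) ∧
      (∀ a, topE j' a ∈ U) ∧ (j' = j + 1 → ∀ E, Fac t E →
        (∀ l, E l → ∀ ν, l none ≠ some (.edge false ν)) → ∀ a, ofK j' (indL E a) ∈ U) := by
  have hG : ∀ i ν, Good f (FE i ν) := fun i ν r hr e g hg => hf i ν r hr (ker_of_psi e) g hg
  rcases fin3_cases j j' with e | rfl | rfl
  · exact absurd e.symm hj
  · refine ⟨FE j (⟨true, t⟩, false), hG _ _, fun E hE a => ?_, fun a => ?_, fun _ E hE h a => ?_⟩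
    · exact mem_FE j true ⟨true, t⟩ hE (fun _ _ => Or.inl rfl) a
    · exact mem_FE j false ⟨true, t⟩ (fac_top ht) (fun l h => Or.inr fun ν => by simp [h]) a
    · exact mem_FE j false ⟨true, t⟩ hE (fun l e => Or.inr (h l e)) a
  · refine ⟨FE (j + 2) (⟨false, t⟩, false), hG _ _, fun E hE a => ?_, fun a => ?_,
      fun e => absurd e.symm (fin3_ne12 j)⟩
    · have := mem_FE (j + 2) false ⟨false, t⟩ hE (fun _ _ => Or.inl rfl) a
      rwa [ty, fin3_21] at this
    · exact mem_FE (j + 2) true ⟨false, t⟩ (fac_top ht) (fun l h => Or.inr fun ν => by simp [h]) a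

lemma TT (hf : HypH f) (j j' : Fin 3) {g k₁ k₂ k₁' k₂' : GA}
    (e1 : rr j g * rr j' k₁ * (rr j g)⁻¹ = rr j' k₁')
    (e2 : rr j g * rr j' k₂ * (rr j g)⁻¹ = rr j' k₂') :
    f (topE j g) * f (topE j' ⁅k₁, k₂⁆) * (f (topE j g))⁻¹ = f (topE j' ⁅k₁', k₂'⁆) := by
  by_cases hj : j = j'
  · subst hj
    have inj : Function.Injective (rr j) := (injective_iff_map_eq_one _).2 fun _ => rr_inj j
    have h1 : g * k₁ * g⁻¹ = k₁' := inj (by simpa using e1)
    have h2 : g * k₂ * g⁻¹ = k₂' := inj (by simpa using e2)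
    rw [← h1, ← h2, ← conj_cm]
    simp
  obtain ⟨U, hU, m1, m2, -⟩ := exists_good hf hj (fun _ => none) ⟨0, rfl⟩
  simp only [map_commutatorElement]
  refine RL hU (m1 _ (fac_top ⟨0, rfl⟩) g) (m2 _) (m2 _) (m2 _) (m2 _) ?_ ?_
  · change psi (topE j g) * _ * (psi (topE j g))⁻¹ = _
    simp only [psi_top]
    rw [← e1]; simp
  · change psi (topE j g) * _ * (psi (topE j g))⁻¹ = _
    simp only [psi_top]
    rw [← e2]; simp

lemma rtA_oo {o o' : Fin 5} (h : o ≠ o') : ShA.Rt (.inl o) (.inl o') :=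
  ⟨fun _ => Sum.inl_ne_inr, fun _ => Sum.inl_ne_inr, fun e => h (Sum.inl.inj e)⟩

lemma TO (hf : HypH f) (j j' : Fin 3) {o o' : Fin 5} (h : o ≠ o') :
    f (topE j (eg ShA (.inl o) (.inl o'))) = f (topE j' (eg ShA (.inl o) (.inl o'))) := by
  by_cases hj : j = j'
  · rw [hj]
  obtain ⟨U, hU, m1, m2, -⟩ := exists_good hf hj (fun _ => none) ⟨0, rfl⟩
  obtain ⟨q, h1, h2, -, -⟩ := fresh5 (β := Unit) (.inl o) (.inl o') (.inl o) (.inl o')
  have h1' : o ≠ q := fun e => h1 (by rw [e])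
  have h2' : q ≠ o' := fun e => h2 (by rw [e])
  rw [← eg_isSt.cm _ _ _ (rtA_oo h1') (rtA_oo h2') (rtA_oo h).2.2]
  simp only [map_commutatorElement]
  have := RL hU (g := 1) (k₁ := topE j (eg ShA (.inl o) (.inl q)))
    (k₂ := topE j (eg ShA (.inl q) (.inl o'))) (one_mem _) (m1 _ (fac_top ⟨0, rfl⟩) _)
    (m1 _ (fac_top ⟨0, rfl⟩) _) (m2 (eg ShA (.inl o) (.inl q))) (m2 (eg ShA (.inl q) (.inl o')))
    (by simp only [psi_top, rr_eg _ (rtA_oo h1')]; simp [emb])
    (by simp only [psi_top, rr_eg _ (rtA_oo h2')]; simp [emb])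
  simpa using this

/-- Index of a row in the small group. -/
def rix : NP → IA
  | .inl o => .inl o
  | .inr (_, ν) => .inr (true, ν)

/-- Index of a column in the small group. -/
def cix : NP → IA
  | .inl o => .inl o
  | .inr (_, ν) => .inr (false, ν)

/-- Type of a root meeting the distinguished indices. -/
def tyy : NP → NP → Fin 3
  | .inl _, .inl _ => 0
  | .inl _, .inr (i, _) => i + 2
  | .inr (i, _), _ => i

lemma row_rix (a : NP) : ShA.Row (rix a) := by
  rcases a with a | ⟨i, ν⟩ <;> simp [rix, ShA]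

lemma col_cix (a : NP) : ShA.Col (cix a) := by
  rcases a with a | ⟨i, ν⟩ <;> simp [cix, ShA]

lemma rix_emb (j : Fin 3) {a : IA} (h : ShA.Row a) : rix (emb j a) = a := by
  rcases a with a | ⟨_ | _, ν⟩
  · rfl
  · exact absurd rfl (h ν)
  · rfl

lemma cix_emb (j : Fin 3) {a : IA} (h : ShA.Col a) : cix (emb j a) = a := by
  rcases a with a | ⟨_ | _, ν⟩
  · rfl
  · rfl
  · exact absurd rfl (h ν)

lemma emb_tyy {a b : NP} (h : IsO a ∨ IsO b) :
    emb (tyy a b) (rix a) = a ∧ emb (tyy a b) (cix b) = b := by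
  rcases a with a | ⟨i, ν⟩ <;> rcases b with b | ⟨i', ν'⟩
  · exact ⟨rfl, rfl⟩
  · exact ⟨rfl, by simp [tyy, cix, emb, fin3_21]⟩
  · exact ⟨rfl, rfl⟩
  · simp [IsO] at h

lemma rt_of_emb {j : Fin 3} {a b : NP} (h1 : emb j (rix a) = a) (h2 : emb j (cix b) = b)
    (h : a ≠ b) : ShA.Rt (rix a) (cix b) :=
  ⟨row_rix a, col_cix b, fun e => h (by rw [← h1, ← h2, e])⟩

lemma rr_of_emb {j : Fin 3} {a b : NP} (h1 : emb j (rix a) = a) (h2 : emb j (cix b) = b)
    (h : a ≠ b) : rr j (eg ShA (rix a) (cix b)) = eg ShP a b := by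
  rw [rr_eg j (rt_of_emb h1 h2 h), h1, h2]

/-- The system on the roots meeting the distinguished indices. -/
def yy (f : FF →* Γ) (a b : NP) : Γ := f (topE (tyy a b) (eg ShA (rix a) (cix b)))

lemma yy_eq (hf : HypH f) {j : Fin 3} {a b : NP} (h1 : emb j (rix a) = a) (h2 : emb j (cix b) = b)
    (h : a ≠ b) (hO : IsO a ∨ IsO b) : yy f a b = f (topE j (eg ShA (rix a) (cix b))) := by
  rcases a with a | ⟨i, ν⟩ <;> rcases b with b | ⟨i', ν'⟩
  · exact TO hf _ _ fun e => h (by rw [e])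
  · have : j + 1 = i' := by simpa [cix, emb] using h2
    rw [yy, ← this, tyy, fin3_12]
  · have : j = i := by simpa [rix, emb] using h1
    rw [yy, this, tyy]
  · simp [IsO] at hO

theorem exists_rho (hf : HypH f) : ∃ ρ : GP →* Γ, ∀ j a, ρ (rr j a) = f (topE j a) := by
  have hP := eg_isSt (S := ShP)
  have hA := eg_isSt (S := ShA)
  obtain ⟨z, hz, hzy⟩ := extend_st IsO isO_fresh (yy f)
    (fun a b h hO => by
      rw [yy, ← map_mul, ← map_mul, hA.sq _ _ (rt_of_emb (emb_tyy hO).1 (emb_tyy hO).2 h), map_one,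
        map_one])
    (fun a b c d hab h1 hcd h2 hbc had => by
      obtain ⟨o, hoa, hob, hoc, hod⟩ := fresh5 a b c d
      obtain ⟨ea, eb⟩ := emb_tyy h1
      obtain ⟨ec, ed⟩ := emb_tyy h2
      have rco := rt_of_emb (b := .inl o) ec rfl hoc.symm
      have rod := rt_of_emb (a := .inl o) rfl ed hod
      have e := hA.cm _ _ _ rco rod (rt_of_emb ec ed hcd).2.2
      have := TT hf (tyy a b) (tyy c d) (g := eg ShA (rix a) (cix b))
        (k₁ := eg ShA (rix c) (cix (.inl o))) (k₂ := eg ShA (rix (.inl o)) (cix d))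
        (k₁' := eg ShA (rix c) (cix (.inl o))) (k₂' := eg ShA (rix (.inl o)) (cix d))
        (by
          rw [rr_of_emb ea eb hab, rr_of_emb ec rfl hoc.symm]
          exact conj_of_comm (hP.comm _ _ _ _ (rtP hab) (rtP hoc.symm) hbc hoa.symm))
        (by
          rw [rr_of_emb ea eb hab, rr_of_emb rfl ed hod]
          exact conj_of_comm (hP.comm _ _ _ _ (rtP hab) (rtP hod) hob.symm had))
      change ⁅eg ShA (rix c) (cix (.inl o)), eg ShA (rix (.inl o)) (cix d)⁆ = _ at e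
      rw [e] at this
      exact mul_inv_eq_iff_eq_mul.1 this)
    (fun a b c hab h1 hbc h2 hac h3 => by
      by_cases hb : IsO b
      · obtain ⟨o, rfl⟩ := hb
        obtain ⟨ea, ec⟩ := emb_tyy h3
        rw [yy_eq hf ea rfl hab h1, yy_eq hf rfl ec hbc h2, yy, ← map_commutatorElement,
          ← map_commutatorElement]
        congr 2
        exact hA.cm _ _ _ (rt_of_emb ea rfl hab) (rt_of_emb rfl ec hbc) (rt_of_emb ea ec hac).2.2
      · obtain ⟨oa, rfl⟩ := h1.resolve_right hb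
        obtain ⟨oc, rfl⟩ := h2.resolve_left hb
        obtain ⟨o, hoa, hob, hoc, -⟩ := fresh5 (.inl oa) b (.inl oc) b
        obtain ⟨ea, eb⟩ := emb_tyy h1
        obtain ⟨eb', ec⟩ := emb_tyy h2
        set j' := tyy b (.inl oc)
        have rao := rt_of_emb (j := j') (a := .inl oa) (b := .inl o) rfl rfl hoa.symm
        have rbo := rt_of_emb (b := .inl o) eb' rfl hob.symm
        have roc := rt_of_emb (j := j') (a := .inl o) (b := .inl oc) rfl rfl hoc
        have rbc := rt_of_emb eb' ec hbc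
        have rac := rt_of_emb (j := j') (a := .inl oa) (b := .inl oc) rfl rfl hac
        have := TT hf (tyy (.inl oa) b) j' (g := eg ShA (rix (.inl oa)) (cix b))
          (k₁ := eg ShA (rix b) (cix (.inl o))) (k₂ := eg ShA (rix (.inl o)) (cix (.inl oc)))
          (k₁' := eg ShA (rix (.inl oa)) (cix (.inl o)) * eg ShA (rix b) (cix (.inl o)))
          (k₂' := eg ShA (rix (.inl o)) (cix (.inl oc)))
          (by
            rw [map_mul, rr_of_emb ea eb hab, rr_of_emb eb' rfl hob.symm,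
              rr_of_emb rfl rfl hoa.symm]
            exact conj_of_cm (hP.cm _ _ _ (rtP hab) (rtP hob.symm) hoa.symm))
          (by
            rw [rr_of_emb ea eb hab, rr_of_emb rfl rfl hoc]
            exact conj_of_comm (hP.comm _ _ _ _ (rtP hab) (rtP hoc) hob.symm hac))
        have e1 : ⁅eg ShA (rix b) (cix (.inl o)), eg ShA (rix (.inl o)) (cix (.inl oc))⁆ =
            eg ShA (rix b) (cix (.inl oc)) := hA.cm _ _ _ rbo roc rbc.2.2
        have e2 : ⁅eg ShA (rix (.inl oa)) (cix (.inl o)), eg ShA (rix (.inl o)) (cix (.inl oc))⁆ =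
            eg ShA (rix (.inl oa)) (cix (.inl oc)) := hA.cm _ _ _ rao roc rac.2.2
        have e3 : Commute (eg ShA (rix (.inl oa)) (cix (.inl o))) (eg ShA (rix b) (cix (.inl oc))) :=
          hA.comm _ _ _ _ rao rbc rbo.2.2.symm rac.2.2
        have e4 : Commute (eg ShA (rix b) (cix (.inl oc))) (eg ShA (rix (.inl oa)) (cix (.inl oc))) :=
          hA.comm _ _ _ _ rbc rac rac.2.2.symm rbc.2.2
        rw [cm_mul_left, e1, e2, conj_of_comm e3, e4.eq, map_mul, map_mul] at this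
        rw [yy_eq hf (j := j') rfl rfl hac h3, commutatorElement_def, yy, yy, this,
          mul_inv_cancel_right])
  obtain ⟨ρ, hρ⟩ := exists_hom (S := ShP) hz
  refine ⟨ρ, fun j a => ?_⟩
  have key : ∀ a b, ShA.Rt a b → (IsO (emb j a) ∨ IsO (emb j b)) →
      ρ (rr j (eg ShA a b)) = f (topE j (eg ShA a b)) := by
    intro a b h hO
    have hne := (emb_inj j).ne h.2.2
    rw [rr_eg j h, hρ _ _ (rtP hne), hzy _ _ hO,
      yy_eq hf (j := j) (by rw [rix_emb j h.1]) (by rw [cix_emb j h.2.1]) hne hO, rix_emb j h.1,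
      cix_emb j h.2.1]
  have : ρ.comp (rr j) = f.comp (topE j) := by
    refine EG_hom_ext fun a b h => ?_
    obtain ⟨o, hoa, hob, -, -⟩ := fresh5 a b a b
    have rao : ShA.Rt a (.inl o) := ⟨h.1, fun _ => Sum.inl_ne_inr, hoa.symm⟩
    have rob : ShA.Rt (.inl o) b := ⟨fun _ => Sum.inl_ne_inr, h.2.1, hob⟩
    rw [← hA.cm _ _ _ rao rob h.2.2, map_commutatorElement, map_commutatorElement]
    congr 1
    · exact key _ _ rao (Or.inr ⟨o, rfl⟩)
    · exact key _ _ rob (Or.inl ⟨o, rfl⟩)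
  exact DFunLike.congr_fun this a

end

end Pool.Agent.Lib.MP_b611b5_al
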