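import Mathlib

/-! Steinberg systems over the field with two elements: a system of elements satisfying the
Steinberg relations defines a homomorphism from the group generated by elementary transvections. -/

set_option autoImplicit false
set_option linter.unusedSectionVars false

namespace Pool.Agent.Lib.MP_b611b5_al

open Subgroup
open scoped commutatorElement

/-- A shape: admissible rows and columns, with enough indices that are both. -/
structure Sh (n : Type) where
  Row : n → Prop
  Col : n → Prop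
  fresh : ∀ a b c d : n, ∃ o, Row o ∧ Col o ∧ o ≠ a ∧ o ≠ b ∧ o ≠ c ∧ o ≠ d

/-- Roots of a shape. -/
def Sh.Rt {n : Type} (S : Sh n) (a b : n) : Prop := S.Row a ∧ S.Col b ∧ a ≠ b

/-- Steinberg relations in characteristic two. -/
structure IsSt {n : Type} (S : Sh n) {Γ : Type} [Group Γ] (x : n → n → Γ) : Prop where
  sq : ∀ a b, S.Rt a b → x a b * x a b = 1
  comm : ∀ a b c d, S.Rt a b → S.Rt c d → b ≠ c → a ≠ d → Commute (x a b) (x c d)
  cm : ∀ a b c, S.Rt a b → S.Rt b c → a ≠ c → ⁅x a b, x b c⁆ = x a c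

section tv

variable {n : Type} [DecidableEq n]

/-- Elementary transvection as a function. -/
def tvf (a b : n) (v : n → ZMod 2) : n → ZMod 2 := v + Pi.single a (v b)

lemma z2_add_self (x : ZMod 2) : x + x = 0 := CharTwo.add_self_eq_zero x

lemma tvf_apply (a b : n) (v : n → ZMod 2) (c : n) :
    tvf a b v c = v c + if c = a then v b else 0 := by
  simp [tvf, Pi.single_apply]

lemma tvf_tvf {a b : n} (h : a ≠ b) (v : n → ZMod 2) : tvf a b (tvf a b v) = v := by
  funext c
  simp only [tvf_apply, if_neg h.symm, add_zero]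
  split_ifs
  · rw [add_assoc, z2_add_self, add_zero]
  · simp

/-- Elementary transvection as a permutation (the identity on the diagonal). -/
def tv (a b : n) : Equiv.Perm (n → ZMod 2) :=
  if h : a = b then 1 else ⟨tvf a b, tvf a b, tvf_tvf h, tvf_tvf h⟩

lemma tv_apply {a b : n} (h : a ≠ b) (v : n → ZMod 2) (c : n) :
    tv a b v c = v c + if c = a then v b else 0 := by
  rw [tv, dif_neg h]; exact tvf_apply a b v c

lemma tv_apply_ne {a b c : n} (h : c ≠ a) (v : n → ZMod 2) : tv a b v c = v c := by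
  by_cases hab : a = b
  · simp [tv, hab]
  · rw [tv_apply hab, if_neg h, add_zero]

lemma tv_apply_self {a b : n} (h : a ≠ b) (v : n → ZMod 2) : tv a b v a = v a + v b := by
  rw [tv_apply h, if_pos rfl]

lemma tv_fix {a b : n} (v : n → ZMod 2) (h : v b = 0) : tv a b v = v := by
  by_cases hab : a = b
  · simp [tv, hab]
  · funext c; rw [tv_apply hab, h]; simp

lemma tv_isSt (S : Sh n) : IsSt S (tv : n → n → Equiv.Perm (n → ZMod 2)) where
  sq a b h := by
    ext v c
    simp only [Equiv.Perm.mul_apply, Equiv.Perm.one_apply, tv_apply h.2.2, if_neg h.2.2.symm,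
      add_zero]
    split_ifs
    · rw [add_assoc, z2_add_self, add_zero]
    · simp
  comm a b c d h h' hbc had := by
    ext v e
    simp only [Equiv.Perm.mul_apply, tv_apply h.2.2, tv_apply h'.2.2, if_neg hbc,
      if_neg had.symm, add_zero]
    ring
  cm a b c h h' hac := by
    have e1 : (tv a b : Equiv.Perm (n → ZMod 2))⁻¹ = tv a b := by
      rw [tv, dif_neg h.2.2]; rfl
    have e2 : (tv b c : Equiv.Perm (n → ZMod 2))⁻¹ = tv b c := by
      rw [tv, dif_neg h'.2.2]; rfl
    rw [commutatorElement_def, e1, e2]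
    ext v e
    have hab := h.2.2
    have hbc := h'.2.2
    simp only [Equiv.Perm.mul_apply, tv_apply hab, tv_apply hbc, tv_apply hac, if_neg hab.symm,
      if_neg hbc.symm, if_neg hac.symm, add_zero, if_true]
    by_cases h1 : e = a
    · subst h1
      simp only [if_true, if_neg hab, add_zero]
      generalize v e = x; generalize v b = y; generalize v c = z
      revert x y z; decide
    · by_cases h2 : e = b
      · subst h2
        simp only [if_true, if_neg h1, add_zero]
        generalize v e = x; generalize v c = z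
        revert x z; decide
      · simp [h1, h2]

end tv

section grp

variable {Γ : Type} [Group Γ]

lemma inv_of_sq {g : Γ} (h : g * g = 1) : g⁻¹ = g := inv_eq_of_mul_eq_one_right h

lemma conj_mem_of_gens {B : Set Γ} {z : Γ} {H : Subgroup Γ} (h : ∀ g ∈ B, z * g * z⁻¹ ∈ H)
    {u : Γ} (hu : u ∈ closure B) : z * u * z⁻¹ ∈ H := by
  induction hu using closure_induction with
  | mem g hg => exact h g hg
  | one => simpa using H.one_mem
  | mul g g' _ _ h1 h2 =>
    have : z * (g * g') * z⁻¹ = z * g * z⁻¹ * (z * g' * z⁻¹) := by group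
    rw [this]; exact H.mul_mem h1 h2
  | inv g _ h1 =>
    have : z * g⁻¹ * z⁻¹ = (z * g * z⁻¹)⁻¹ := by group
    rw [this]; exact H.inv_mem h1

/-- Semidirect decomposition for involution generators. -/
lemma dec_semi {B C : Set Γ} (hB : ∀ b ∈ B, b * b = 1)
    (hn : ∀ b ∈ B, ∀ c ∈ C, b * c * b⁻¹ ∈ closure C) {g : Γ} (hg : g ∈ closure (B ∪ C)) :
    ∃ u ∈ closure C, ∃ h ∈ closure B, g = u * h := by
  induction hg using closure_induction_left with
  | one => exact ⟨1, one_mem _, 1, one_mem _, by simp⟩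
  | mul_left b hb g _ ih =>
    obtain ⟨u, hu, h, hh, rfl⟩ := ih
    rcases hb with hb | hb
    · exact ⟨b * u * b⁻¹, conj_mem_of_gens (hn b hb) hu, b * h,
        mul_mem (subset_closure hb) hh, by group⟩
    · exact ⟨b * u, mul_mem (subset_closure hb) hu, h, hh, by group⟩
  | inv_mul_cancel b hb g _ ih =>
    obtain ⟨u, hu, h, hh, rfl⟩ := ih
    rcases hb with hb | hb
    · rw [inv_of_sq (hB b hb)]
      exact ⟨b * u * b⁻¹, conj_mem_of_gens (hn b hb) hu, b * h,
        mul_mem (subset_closure hb) hh, by group⟩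
    · exact ⟨b⁻¹ * u, mul_mem (inv_mem (subset_closure hb)) hu, h, hh, by group⟩

lemma conj_closure_of_closure {B C : Set Γ} (hB : ∀ b ∈ B, b * b = 1)
    (hn : ∀ b ∈ B, ∀ c ∈ C, b * c * b⁻¹ ∈ closure C) {h u : Γ} (hh : h ∈ closure B)
    (hu : u ∈ closure C) : h * u * h⁻¹ ∈ closure C := by
  induction hh using closure_induction_left with
  | one => simpa using hu
  | mul_left b hb g _ ih =>
    have : b * g * u * (b * g)⁻¹ = b * (g * u * g⁻¹) * b⁻¹ := by group
    rw [this]; exact conj_mem_of_gens (hn b hb) ih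
  | inv_mul_cancel b hb g _ ih =>
    rw [inv_of_sq (hB b hb)]
    have : b * g * u * (b * g)⁻¹ = b * (g * u * g⁻¹) * b⁻¹ := by group
    rw [this]; exact conj_mem_of_gens (hn b hb) ih

/-- Adjoining a commuting involution. -/
lemma dec_one {C : Set Γ} {z : Γ} (hz : z * z = 1) (hc : ∀ c ∈ C, Commute z c) {g : Γ}
    (hg : g ∈ closure (insert z C)) : ∃ u ∈ closure C, g = u ∨ g = u * z := by
  have hg' : g ∈ closure ({z} ∪ C) := by simpa using hg
  obtain ⟨u, hu, h, hh, rfl⟩ := dec_semi (B := {z}) (by simpa using hz)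
    (by
      intro b hb c hcc
      rw [Set.mem_singleton_iff.1 hb, (hc c hcc).eq, mul_inv_cancel_right]
      exact subset_closure hcc) hg'
  have : h = 1 ∨ h = z := by
    clear hg hg'
    induction hh using closure_induction_left with
    | one => exact Or.inl rfl
    | mul_left b hb g _ ih =>
      rw [Set.mem_singleton_iff.1 hb]
      rcases ih with rfl | rfl
      · exact Or.inr (mul_one _)
      · exact Or.inl hz
    | inv_mul_cancel b hb g _ ih =>
      rw [Set.mem_singleton_iff.1 hb, inv_of_sq hz]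
      rcases ih with rfl | rfl
      · exact Or.inr (mul_one _)
      · exact Or.inl hz
  rcases this with rfl | rfl
  · exact ⟨u, hu, Or.inl (mul_one _)⟩
  · exact ⟨u, hu, Or.inr rfl⟩

lemma conj_of_cm {u v z : Γ} (h : ⁅u, v⁆ = z) : u * v * u⁻¹ = z * v := by
  rw [← h, commutatorElement_def]; group

lemma conj_of_cm' {u v z : Γ} (h : ⁅u, v⁆ = z) : v * u * v⁻¹ = z⁻¹ * u := by
  rw [← h, commutatorElement_def]; group

lemma conj_of_comm {u v : Γ} (h : Commute u v) : u * v * u⁻¹ = v := by
  rw [h.eq, mul_inv_cancel_right]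

lemma conj_cm (g u v : Γ) : g * ⁅u, v⁆ * g⁻¹ = ⁅g * u * g⁻¹, g * v * g⁻¹⁆ := by
  simp only [commutatorElement_def]; group

end grp

section T0

variable {n : Type} {S : Sh n} {Γ : Type} [Group Γ] {x : n → n → Γ}

lemma IsSt.inv (hx : IsSt S x) {a b : n} (h : S.Rt a b) : (x a b)⁻¹ = x a b :=
  inv_of_sq (hx.sq a b h)

lemma IsSt.braid (hx : IsSt S x) {a b : n} (h : S.Rt a b) (h' : S.Rt b a) :
    x a b * x b a * x a b = x b a * x a b * x b a := by
  obtain ⟨o, hr, hc, hoa, hob, -, -⟩ := S.fresh a b a b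
  have hab := h.2.2
  have rao : S.Rt a o := ⟨h.1, hc, hoa.symm⟩
  have rbo : S.Rt b o := ⟨h'.1, hc, hob.symm⟩
  have roa : S.Rt o a := ⟨hr, h'.2.1, hoa⟩
  have rob : S.Rt o b := ⟨hr, h.2.1, hob⟩
  set w := x a b * x b a * x a b with hw
  have c1 : w * x a o * w⁻¹ = x b o := by
    have e1 := conj_of_comm (hx.comm a b a o h rao hab.symm hoa.symm)
    have e2 := conj_of_cm (hx.cm b a o h' rao hob.symm)
    have e3 := conj_of_cm (hx.cm a b o h rbo hoa.symm)
    have e4 := (hx.comm a o b o rao rbo hob hoa.symm).eq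
    calc w * x a o * w⁻¹ = x a b * (x b a * (x a b * x a o * (x a b)⁻¹) * (x b a)⁻¹) * (x a b)⁻¹ := by
          rw [hw]; group
      _ = x a b * (x b o * x a o) * (x a b)⁻¹ := by rw [e1, e2]
      _ = (x a b * x b o * (x a b)⁻¹) * (x a b * x a o * (x a b)⁻¹) := by group
      _ = x b o := by
          rw [e3, e1, e4, mul_assoc, hx.sq a o rao, mul_one]
  have c2 : w * x o b * w⁻¹ = x o a := by
    have e1 := conj_of_comm (hx.comm a b o b h rob hob.symm hab)
    have e2 := conj_of_cm' (hx.cm o b a rob h' hoa)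
    have e3 := conj_of_cm' (hx.cm o a b roa h hob)
    have e4 := (hx.comm o b o a rob roa hob.symm hoa).eq
    rw [hx.inv roa] at e2
    rw [hx.inv rob] at e3
    calc w * x o b * w⁻¹ = x a b * (x b a * (x a b * x o b * (x a b)⁻¹) * (x b a)⁻¹) * (x a b)⁻¹ := by
          rw [hw]; group
      _ = x a b * (x o a * x o b) * (x a b)⁻¹ := by rw [e1, e2]
      _ = (x a b * x o a * (x a b)⁻¹) * (x a b * x o b * (x a b)⁻¹) := by group
      _ = x o a := by
          rw [e3, e1, e4, mul_assoc, hx.sq o b rob, mul_one]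
  have c3 : w * x a b * w⁻¹ = x b a := by
    rw [← hx.cm a o b rao rob hab, conj_cm, c1, c2, hx.cm b o a rbo roa hab.symm]
  have c4 : w * x a b = x b a * w := by rw [← c3]; group
  have s1 := hx.sq a b h
  have s2 := hx.sq b a h'
  have c5 : x a b * x b a = x b a * (x a b * x b a * x a b) := by
    rw [← hw, ← c4, hw, mul_assoc _ (x a b), s1, mul_one]
  calc w = x a b * x b a * x a b := hw
    _ = x b a * (x a b * x b a * x a b) * x a b := by rw [← c5]
    _ = x b a * x a b * x b a * (x a b * x a b) := by group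
    _ = _ := by rw [s1, mul_one]

/-- Generators with rows in `s` and columns in `t`. -/
def gens (x : n → n → Γ) (s t : Set n) : Set Γ := {g | ∃ a ∈ s, ∃ b ∈ t, a ≠ b ∧ g = x a b}

lemma gens_mem {s t : Set n} {a b : n} (ha : a ∈ s) (hb : b ∈ t) (h : a ≠ b) :
    x a b ∈ closure (gens x s t) := subset_closure ⟨a, ha, b, hb, h, rfl⟩

lemma gens_mono {s t s' t' : Set n} (hs : s ⊆ s') (ht : t ⊆ t') :
    closure (gens x s t) ≤ closure (gens x s' t') :=
  closure_mono fun _ ⟨a, ha, b, hb, h, e⟩ => ⟨a, hs ha, b, ht hb, h, e⟩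

variable [DecidableEq n] {π : Γ →* Equiv.Perm (n → ZMod 2)}

lemma coord_inv (hπ : ∀ a b, S.Rt a b → π (x a b) = tv a b) {s t : Set n}
    (hs : ∀ a ∈ s, S.Row a) (ht : ∀ b ∈ t, S.Col b) {h : Γ} (hh : h ∈ closure (gens x s t))
    {p : n} (hp : p ∉ s) (v : n → ZMod 2) : π h v p = v p := by
  induction hh using closure_induction generalizing v with
  | mem g hg =>
    obtain ⟨a, ha, b, hb, hab, rfl⟩ := hg
    rw [hπ a b ⟨hs a ha, ht b hb, hab⟩, tv_apply_ne (fun e : p = a => hp (e ▸ ha))]
  | one => simp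
  | mul g g' _ _ h1 h2 => rw [map_mul, Equiv.Perm.mul_apply, h1, h2]
  | inv g _ h1 =>
    rw [← h1 (π g⁻¹ v), ← Equiv.Perm.mul_apply, ← map_mul]; simp

lemma fix_inv (hπ : ∀ a b, S.Rt a b → π (x a b) = tv a b) {s t : Set n}
    (hs : ∀ a ∈ s, S.Row a) (ht : ∀ b ∈ t, S.Col b) {h : Γ} (hh : h ∈ closure (gens x s t))
    {v : n → ZMod 2} (hv : ∀ b ∈ t, v b = 0) : π h v = v := by
  induction hh using closure_induction with
  | mem g hg =>
    obtain ⟨a, ha, b, hb, hab, rfl⟩ := hg
    rw [hπ a b ⟨hs a ha, ht b hb, hab⟩, tv_fix _ (hv b hb)]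
  | one => simp
  | mul g g' _ _ h1 h2 => rw [map_mul, Equiv.Perm.mul_apply, h2, h1]
  | inv g _ h1 =>
    rw [map_inv, Equiv.Perm.inv_eq_iff_eq, h1]

lemma gens_row_insert {p b : n} {t : Set n} (h : p ≠ b) :
    gens x {p} (insert b t) = insert (x p b) (gens x {p} t) := by
  ext g
  constructor
  · rintro ⟨a, ha, c, hc, hac, rfl⟩
    rw [Set.mem_singleton_iff.1 ha] at *
    rcases hc with rfl | hc
    · exact Or.inl rfl
    · exact Or.inr ⟨p, rfl, c, hc, hac, rfl⟩
  · rintro (rfl | ⟨a, ha, c, hc, hac, rfl⟩)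
    · exact ⟨p, rfl, b, Or.inl rfl, h, rfl⟩
    · exact ⟨a, ha, c, Or.inr hc, hac, rfl⟩

lemma gens_col_insert {q a : n} {s : Set n} (h : a ≠ q) :
    gens x (insert a s) {q} = insert (x a q) (gens x s {q}) := by
  ext g
  constructor
  · rintro ⟨c, hc, b, hb, hac, rfl⟩
    rw [Set.mem_singleton_iff.1 hb] at *
    rcases hc with rfl | hc
    · exact Or.inl rfl
    · exact Or.inr ⟨c, hc, q, rfl, hac, rfl⟩
  · rintro (rfl | ⟨c, hc, b, hb, hac, rfl⟩)
    · exact ⟨a, Or.inl rfl, q, rfl, h, rfl⟩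
    · exact ⟨c, Or.inr hc, b, hb, hac, rfl⟩

lemma gens_empty_right (s : Set n) : gens x s ∅ = ∅ := by
  ext g; simp [gens]

lemma gens_empty_left (t : Set n) : gens x ∅ t = ∅ := by
  ext g; simp [gens]

lemma dec_row (hx : IsSt S x) {p b : n} {t : Set n} (hp : S.Row p) (hb : S.Col b)
    (ht : ∀ c ∈ t, S.Col c) (hpb : p ≠ b) {u : Γ} (hu : u ∈ closure (gens x {p} (insert b t))) :
    ∃ u' ∈ closure (gens x {p} t), u = u' ∨ u = u' * x p b := by
  rw [gens_row_insert hpb] at hu
  refine dec_one (hx.sq p b ⟨hp, hb, hpb⟩) ?_ hu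
  rintro _ ⟨a, ha, c, hc, hac, rfl⟩
  rw [Set.mem_singleton_iff.1 ha] at *
  exact hx.comm p b p c ⟨hp, hb, hpb⟩ ⟨hp, ht c hc, hac⟩ hpb.symm hac

lemma dec_col (hx : IsSt S x) {q a : n} {s : Set n} (hq : S.Col q) (ha : S.Row a)
    (hs : ∀ c ∈ s, S.Row c) (haq : a ≠ q) {u : Γ} (hu : u ∈ closure (gens x (insert a s) {q})) :
    ∃ u' ∈ closure (gens x s {q}), u = u' ∨ u = u' * x a q := by
  rw [gens_col_insert haq] at hu
  refine dec_one (hx.sq a q ⟨ha, hq, haq⟩) ?_ hu
  rintro _ ⟨c, hc, b, hb, hac, rfl⟩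
  rw [Set.mem_singleton_iff.1 hb] at *
  exact hx.comm a q c q ⟨ha, hq, haq⟩ ⟨hs c hc, hq, hac⟩ hac.symm haq

lemma inj_row (hx : IsSt S x) (hπ : ∀ a b, S.Rt a b → π (x a b) = tv a b) {p : n} (hp : S.Row p)
    (t : Finset n) (ht : ∀ c ∈ t, S.Col c) (hpt : p ∉ t) {u : Γ}
    (hu : u ∈ closure (gens x {p} t)) (h : ∀ b ∈ t, π u (Pi.single b 1) p = 0) : u = 1 := by
  induction t using Finset.induction_on generalizing u with
  | empty => simpa [gens_empty_right] using hu
  | insert b t hb ih =>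
    have hpb : p ≠ b := fun e => hpt (e ▸ Finset.mem_insert_self _ _)
    have ht' : ∀ c ∈ t, S.Col c := fun c hc => ht c (Finset.mem_insert_of_mem hc)
    have hpt' : p ∉ t := fun e => hpt (Finset.mem_insert_of_mem e)
    have hcb := ht b (Finset.mem_insert_self _ _)
    rw [Finset.coe_insert] at hu
    obtain ⟨u', hu', rfl | rfl⟩ := dec_row hx hp hcb ht' hpb hu
    · exact ih ht' hpt' hu' fun c hc => h c (Finset.mem_insert_of_mem hc)
    · exfalso
      have h1 := h b (Finset.mem_insert_self _ _)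
      rw [map_mul, Equiv.Perm.mul_apply, hπ p b ⟨hp, hcb, hpb⟩,
        fix_inv hπ (by simpa using hp) ht' hu', tv_apply_self hpb] at h1
      · simp [hpb] at h1
      · intro c hc
        have h2 : c ≠ p := fun e => hpt' (e ▸ hc)
        have h3 : c ≠ b := fun e => hb (e ▸ hc)
        rw [tv_apply_ne h2]; simp [h3]

lemma inj_col (hx : IsSt S x) (hπ : ∀ a b, S.Rt a b → π (x a b) = tv a b) {q : n} (hq : S.Col q)
    (s : Finset n) (hs : ∀ c ∈ s, S.Row c) (hqs : q ∉ s) {u : Γ}
    (hu : u ∈ closure (gens x s {q})) (h : ∀ a ∈ s, π u (Pi.single q 1) a = 0) : u = 1 := by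
  induction s using Finset.induction_on generalizing u with
  | empty => simpa [gens_empty_left] using hu
  | insert a s ha ih =>
    have haq : a ≠ q := fun e => hqs (e ▸ Finset.mem_insert_self _ _)
    have hs' : ∀ c ∈ s, S.Row c := fun c hc => hs c (Finset.mem_insert_of_mem hc)
    have hqs' : q ∉ s := fun e => hqs (Finset.mem_insert_of_mem e)
    have hra := hs a (Finset.mem_insert_self _ _)
    rw [Finset.coe_insert] at hu
    obtain ⟨u', hu', rfl | rfl⟩ := dec_col hx hq hra hs' haq hu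
    · exact ih hs' hqs' hu' fun c hc => h c (Finset.mem_insert_of_mem hc)
    · exfalso
      have h1 := h a (Finset.mem_insert_self _ _)
      rw [map_mul, Equiv.Perm.mul_apply, hπ a q ⟨hra, hq, haq⟩,
        coord_inv hπ hs' (by simpa using hq) hu' ha, tv_apply_self haq] at h1
      simp [haq] at h1

lemma gens_sq (hx : IsSt S x) {s t : Set n} (hs : ∀ a ∈ s, S.Row a) (ht : ∀ b ∈ t, S.Col b) :
    ∀ g ∈ gens x s t, g * g = 1 := by
  rintro _ ⟨a, ha, b, hb, hab, rfl⟩
  exact hx.sq a b ⟨hs a ha, ht b hb, hab⟩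

lemma norm_row (hx : IsSt S x) {s t : Set n} (hs : ∀ a ∈ s, S.Row a) (ht : ∀ b ∈ t, S.Col b)
    {p : n} (hp : S.Row p) (hpt : p ∉ t) :
    ∀ g ∈ gens x s t, ∀ c ∈ gens x {p} t, g * c * g⁻¹ ∈ closure (gens x {p} t) := by
  rintro _ ⟨a, ha, b, hb, hab, rfl⟩ _ ⟨p', hp', c, hc, hpc, rfl⟩
  rw [Set.mem_singleton_iff.1 hp'] at *
  have hbp : b ≠ p := fun e => hpt (e ▸ hb)
  by_cases hac : a = c
  · subst hac
    rw [conj_of_cm' (hx.cm p a b ⟨hp, ht a hc, hpc⟩ ⟨hs a ha, ht b hb, hab⟩ hbp.symm)]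
    exact mul_mem (inv_mem (gens_mem rfl hb hbp.symm)) (gens_mem rfl hc hpc)
  · rw [conj_of_comm (hx.comm a b p c ⟨hs a ha, ht b hb, hab⟩ ⟨hp, ht c hc, hpc⟩ hbp hac)]
    exact gens_mem rfl hc hpc

lemma norm_col (hx : IsSt S x) {s t : Set n} (hs : ∀ a ∈ s, S.Row a) (ht : ∀ b ∈ t, S.Col b)
    {q : n} (hq : S.Col q) (hqs : q ∉ s) :
    ∀ g ∈ gens x s t, ∀ c ∈ gens x s {q}, g * c * g⁻¹ ∈ closure (gens x s {q}) := by
  rintro _ ⟨a, ha, b, hb, hab, rfl⟩ _ ⟨c, hc, q', hq', hcq, rfl⟩
  rw [Set.mem_singleton_iff.1 hq'] at *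
  have haq : a ≠ q := fun e => hqs (e ▸ ha)
  by_cases hbc : b = c
  · subst hbc
    rw [conj_of_cm (hx.cm a b q ⟨hs a ha, ht b hb, hab⟩ ⟨hs b hc, hq, hcq⟩ haq)]
    exact mul_mem (gens_mem ha rfl haq) (gens_mem hc rfl hcq)
  · rw [conj_of_comm (hx.comm a b c q ⟨hs a ha, ht b hb, hab⟩ ⟨hs c hc, hq, hcq⟩ hbc haq)]
    exact gens_mem hc rfl hcq

lemma gens_insert_row (p : n) (s t : Set n) :
    gens x (insert p s) t = gens x s t ∪ gens x {p} t := by
  ext g
  constructor
  · rintro ⟨a, rfl | ha, b, hb, hab, rfl⟩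
    · exact Or.inr ⟨a, rfl, b, hb, hab, rfl⟩
    · exact Or.inl ⟨a, ha, b, hb, hab, rfl⟩
  · rintro (⟨a, ha, b, hb, hab, rfl⟩ | ⟨a, ha, b, hb, hab, rfl⟩)
    · exact ⟨a, Or.inr ha, b, hb, hab, rfl⟩
    · exact ⟨a, Or.inl ha, b, hb, hab, rfl⟩

lemma gens_insert_col (q : n) (s t : Set n) :
    gens x s (insert q t) = gens x s t ∪ gens x s {q} := by
  ext g
  constructor
  · rintro ⟨a, ha, b, rfl | hb, hab, rfl⟩
    · exact Or.inr ⟨a, ha, b, rfl, hab, rfl⟩
    · exact Or.inl ⟨a, ha, b, hb, hab, rfl⟩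
  · rintro (⟨a, ha, b, hb, hab, rfl⟩ | ⟨a, ha, b, hb, hab, rfl⟩)
    · exact ⟨a, ha, b, Or.inr hb, hab, rfl⟩
    · exact ⟨a, ha, b, Or.inl hb, hab, rfl⟩

/-- The key double coset decomposition. -/
lemma bruhat (hx : IsSt S x) {s : Set n} (hs : ∀ a ∈ s, S.Row a ∧ S.Col a) {c : n}
    (hc : S.Row c ∧ S.Col c) (hcs : c ∉ s) {g : Γ}
    (hg : g ∈ closure (gens x (insert c s) (insert c s))) :
    ∃ u' ∈ closure (gens x {c} s), ∃ u ∈ closure (gens x s {c}),
      ∃ h ∈ closure (gens x (insert c s) s), g = u' * u * h := by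
  have hsr : ∀ a ∈ s, S.Row a := fun a ha => (hs a ha).1
  have hsc : ∀ a ∈ s, S.Col a := fun a ha => (hs a ha).2
  have hsr' : ∀ a ∈ insert c s, S.Row a := by
    rintro a (rfl | ha); exacts [hc.1, hsr a ha]
  have hsc' : ∀ a ∈ insert c s, S.Col a := by
    rintro a (rfl | ha); exacts [hc.2, hsc a ha]
  have conv : ∀ h₁ ∈ closure (gens x (insert c s) s), ∀ u ∈ closure (gens x s {c}),
      ∀ h₂ ∈ closure (gens x (insert c s) s),
      ∃ u' ∈ closure (gens x {c} s), ∃ u₀ ∈ closure (gens x s {c}),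
      ∃ h ∈ closure (gens x (insert c s) s), h₁ * u * h₂ = u' * u₀ * h := by
    intro h₁ hh₁ u hu h₂ hh₂
    rw [gens_insert_row] at hh₁
    obtain ⟨u', hu', h, hh, rfl⟩ := dec_semi (gens_sq hx hsr hsc) (norm_row hx hsr hsc hc.1 hcs) hh₁
    refine ⟨u', hu', h * u * h⁻¹,
      conj_closure_of_closure (gens_sq hx hsr hsc) (norm_col hx hsr hsc hc.2 hcs) hh hu,
      h * h₂, mul_mem (gens_mono (Set.subset_insert _ _) le_rfl hh) hh₂, by group⟩
  have step : ∀ b ∈ gens x (insert c s) (insert c s), ∀ g : Γ,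
      (∃ u' ∈ closure (gens x {c} s), ∃ u ∈ closure (gens x s {c}),
      ∃ h ∈ closure (gens x (insert c s) s), g = u' * u * h) →
      ∃ u' ∈ closure (gens x {c} s), ∃ u ∈ closure (gens x s {c}),
      ∃ h ∈ closure (gens x (insert c s) s), b * g = u' * u * h := by
    rintro _ ⟨a, ha, b, hb, hab, rfl⟩ _ ⟨u', hu', u, hu, h, hh, rfl⟩
    have hU' : closure (gens x {c} s) ≤ closure (gens x (insert c s) s) :=
      gens_mono (by simp) le_rfl
    rcases hb with rfl | hb
    swap
    · have := conv (x a b * u') (mul_mem (gens_mem ha hb hab) (hU' hu')) u hu h hh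
      simpa only [mul_assoc] using this
    have has : a ∈ s := ha.resolve_left hab
    have es : s = insert a (s \ {a}) := by simp [has]
    have rab : S.Rt a b := ⟨hsr a has, hc.2, hab⟩
    have rba : S.Rt b a := ⟨hc.1, hsc a has, hab.symm⟩
    have hxab : x a b ∈ closure (gens x s {b}) := gens_mem has rfl hab
    have hxba : x b a ∈ closure (gens x (insert b s) s) := gens_mem (Or.inl rfl) has hab.symm
    obtain ⟨v, hv, hv'⟩ := dec_row hx hc.1 (hsc a has) (t := s \ {a})
      (fun d hd => hsc d hd.1) hab.symm (es ▸ hu')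
    have cv : x a b * v * (x a b)⁻¹ ∈ closure (gens x (insert b s) s) := by
      refine conj_mem_of_gens ?_ hv
      rintro _ ⟨b', hb', d, hd, hbd, rfl⟩
      rw [Set.mem_singleton_iff.1 hb'] at *
      have had : a ≠ d := fun e => hd.2 e.symm
      rw [conj_of_cm (hx.cm a b d rab ⟨hc.1, hsc d hd.1, hbd⟩ had)]
      exact mul_mem (gens_mem (Or.inr has) hd.1 had) (gens_mem (Or.inl rfl) hd.1 hbd)
    rcases hv' with rfl | rfl
    · have := conv _ cv (x a b * u) (mul_mem hxab hu) h hh
      convert this using 7; group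
    obtain ⟨w, hw, hw'⟩ := dec_col hx hc.2 (hsr a has) (s := s \ {a})
      (fun d hd => hsr d hd.1) hab (es ▸ hu)
    have cw : (x a b * x b a) * w * (x a b * x b a)⁻¹ ∈ closure (gens x (insert b s) s) := by
      refine conj_mem_of_gens ?_ hw
      rintro _ ⟨d, hd, b', hb', hdb, rfl⟩
      rw [Set.mem_singleton_iff.1 hb'] at *
      have hda : d ≠ a := fun e => hd.2 e
      have rdb : S.Rt d b := ⟨hsr d hd.1, hc.2, hdb⟩
      have rda : S.Rt d a := ⟨hsr d hd.1, hsc a has, hda⟩
      have e1 := conj_of_cm' (hx.cm d b a rdb rba hda)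
      have e2 := conj_of_cm' (hx.cm d a b rda rab hdb)
      have e3 := conj_of_comm (hx.comm a b d b rab rdb hdb.symm hab)
      rw [hx.inv rda] at e1
      rw [hx.inv rdb] at e2
      have : (x a b * x b a) * x d b * (x a b * x b a)⁻¹ =
          (x a b * x d a * (x a b)⁻¹) * (x a b * x d b * (x a b)⁻¹) := by
        calc _ = x a b * (x b a * x d b * (x b a)⁻¹) * (x a b)⁻¹ := by group
          _ = _ := by rw [e1]; group
      rw [this, e2, e3, (hx.comm d b d a rdb rda hdb.symm hda).eq, mul_assoc, hx.sq d b rdb,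
        mul_one]
      exact gens_mem (Or.inr hd.1) has hda
    rcases hw' with rfl | rfl
    · have := conv _ (mul_mem cv cw) (x a b) hxab (x b a * h) (mul_mem hxba hh)
      convert this using 7; group
    · have := conv _ (mul_mem (mul_mem cv cw) hxba) (x a b) hxab (x b a * h) (mul_mem hxba hh)
      have e : x a b * (v * x b a * (w * x a b) * h) =
          x a b * v * (x a b)⁻¹ * (x a b * x b a * w * (x a b * x b a)⁻¹) * x b a * x a b *
            (x b a * h) := by
        calc x a b * (v * x b a * (w * x a b) * h)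
          = x a b * v * (x a b)⁻¹ * ((x a b * x b a) * w * (x a b * x b a)⁻¹) *
            (x a b * x b a * x a b) * h := by group
        _ = _ := by rw [hx.braid rab rba]; group
      rw [e]; exact this
  induction hg using closure_induction_left with
  | one => exact ⟨1, one_mem _, 1, one_mem _, 1, one_mem _, by simp⟩
  | mul_left b hb g _ ih => exact step b hb g ih
  | inv_mul_cancel b hb g _ ih =>
    rw [inv_of_sq (gens_sq hx hsr' hsc' b hb)]; exact step b hb g ih

lemma stab_step (hx : IsSt S x) (hπ : ∀ a b, S.Rt a b → π (x a b) = tv a b) (s : Finset n)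
    (hs : ∀ a ∈ s, S.Row a ∧ S.Col a) {c : n} (hc : S.Row c ∧ S.Col c) (hcs : c ∉ s) {g : Γ}
    (hg : g ∈ closure (gens x (insert c (s : Set n)) (insert c (s : Set n))))
    (h : π g (Pi.single c 1) = Pi.single c 1) : g ∈ closure (gens x (insert c (s : Set n)) s) := by
  obtain ⟨u', hu', u, hu, h₀, hh₀, rfl⟩ := bruhat hx hs hc hcs hg
  have hsr : ∀ a ∈ s, S.Row a := fun a ha => (hs a ha).1
  have hsc : ∀ a ∈ s, S.Col a := fun a ha => (hs a ha).2
  have hsr' : ∀ a ∈ insert c (s : Set n), S.Row a := by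
    rintro a (rfl | ha); exacts [hc.1, hsr a ha]
  have hu1 : u = 1 := by
    refine inj_col hx hπ hc.2 s hsr hcs hu fun a ha => ?_
    have hac : a ≠ c := fun e => hcs (e ▸ ha)
    have h1 := congrFun h a
    rw [map_mul, map_mul, Equiv.Perm.mul_apply, Equiv.Perm.mul_apply,
      fix_inv hπ hsr' hsc hh₀, coord_inv hπ (by simpa using hc.1) hsc hu' (by simpa using hac)]
      at h1
    · rw [h1]; simp [hac]
    · intro b hb
      have hbc : b ≠ c := fun e => hcs (e ▸ hb)
      simp [hbc]
  rw [hu1, mul_one]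
  exact mul_mem (gens_mono (by simp) le_rfl hu') hh₀

theorem inj_all (hx : IsSt S x) (hπ : ∀ a b, S.Rt a b → π (x a b) = tv a b) (N : ℕ) :
    ∀ s t : Finset n, s.card + t.card ≤ N → (∀ a ∈ s, S.Row a) → (∀ b ∈ t, S.Col b) →
      ∀ g ∈ closure (gens x s t), π g = 1 → g = 1 := by
  induction N with
  | zero =>
    intro s t hN _ _ g hg _
    have : s = ∅ := Finset.card_eq_zero.1 (by omega)
    subst this
    simpa [gens_empty_left] using hg
  | succ N ih =>
    intro s t hN hs ht g hg h1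
    by_cases hp : ∃ p ∈ s, p ∉ t
    · obtain ⟨p, hps, hpt⟩ := hp
      have es : (s : Set n) = insert p ((s.erase p : Finset n) : Set n) := by simp [hps]
      have hs' : ∀ a ∈ s.erase p, S.Row a := fun a ha => hs a (Finset.mem_of_mem_erase ha)
      rw [es, gens_insert_row] at hg
      obtain ⟨u, hu, h, hh, rfl⟩ := dec_semi (gens_sq hx hs' ht)
        (norm_row hx hs' ht (hs p hps) hpt) hg
      have hu1 : u = 1 := by
        refine inj_row hx hπ (hs p hps) t ht hpt hu fun b hb => ?_
        have e : π u = π h⁻¹ := by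
          rw [map_mul] at h1; rw [map_inv]; exact eq_inv_of_mul_eq_one_left h1
        rw [e, coord_inv hπ hs' ht (inv_mem hh) (by simp)]
        have : p ≠ b := fun e => hpt (e ▸ hb)
        simp [this]
      rw [hu1, one_mul] at h1 ⊢
      refine ih _ _ ?_ hs' ht h hh h1
      have := Finset.card_erase_add_one hps
      omega
    by_cases hq : ∃ q ∈ t, q ∉ s
    · obtain ⟨q, hqt, hqs⟩ := hq
      have et : (t : Set n) = insert q ((t.erase q : Finset n) : Set n) := by simp [hqt]
      have ht' : ∀ a ∈ t.erase q, S.Col a := fun a ha => ht a (Finset.mem_of_mem_erase ha)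
      rw [et, gens_insert_col] at hg
      obtain ⟨u, hu, h, hh, rfl⟩ := dec_semi (gens_sq hx hs ht')
        (norm_col hx hs ht' (ht q hqt) hqs) hg
      have hu1 : u = 1 := by
        refine inj_col hx hπ (ht q hqt) s hs hqs hu fun a ha => ?_
        have e : π h (Pi.single q 1) = Pi.single q 1 := by
          refine fix_inv hπ hs ht' hh fun b hb => ?_
          have : b ≠ q := Finset.ne_of_mem_erase hb
          simp [this]
        have e' : π (u * h) (Pi.single q 1) = Pi.single q 1 := by rw [h1]; rfl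
        rw [map_mul, Equiv.Perm.mul_apply, e] at e'
        have : a ≠ q := fun e => hqs (e ▸ ha)
        rw [e']; simp [this]
      rw [hu1, one_mul] at h1 ⊢
      refine ih _ _ ?_ hs ht' h hh h1
      have := Finset.card_erase_add_one hqt
      omega
    push Not at hp hq
    have hst : s = t := Finset.Subset.antisymm hp hq
    subst hst
    rcases s.eq_empty_or_nonempty with rfl | ⟨c, hc⟩
    · simpa [gens_empty_left] using hg
    have es : (s : Set n) = insert c ((s.erase c : Finset n) : Set n) := by simp [hc]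
    have hg' := hg
    rw [es] at hg'
    have := stab_step hx hπ (s.erase c)
      (fun a ha => ⟨hs a (Finset.mem_of_mem_erase ha), ht a (Finset.mem_of_mem_erase ha)⟩)
      ⟨hs c hc, ht c hc⟩ (by simp) hg' (by rw [h1]; rfl)
    rw [← es] at this
    refine ih s (s.erase c) ?_ hs (fun a ha => ht a (Finset.mem_of_mem_erase ha)) g this h1
    have := Finset.card_erase_add_one hc
    omega

end T0

section E

variable {n : Type} [DecidableEq n] (S : Sh n)

/-- The group generated by the transvections of a shape. -/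
def EG : Subgroup (Equiv.Perm (n → ZMod 2)) := closure (gens tv {a | S.Row a} {b | S.Col b})

open Classical in
/-- The generators, as elements of the subgroup. -/
noncomputable def eg (a b : n) : EG S :=
  if h : S.Rt a b then ⟨tv a b, gens_mem h.1 h.2.1 h.2.2⟩ else 1

variable {S}

lemma eg_val {a b : n} (h : S.Rt a b) : (eg S a b : Equiv.Perm (n → ZMod 2)) = tv a b := by
  rw [eg, dif_pos h]

lemma eg_isSt : IsSt S (eg S) where
  sq a b h := Subtype.ext (by
    rw [Subgroup.coe_mul, eg_val h]; exact (tv_isSt S).sq a b h)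
  comm a b c d h h' h1 h2 := Subtype.ext (by
    rw [Subgroup.coe_mul, Subgroup.coe_mul, eg_val h, eg_val h']
    exact (tv_isSt S).comm a b c d h h' h1 h2)
  cm a b c h h' h1 := Subtype.ext (by
    rw [eg_val ⟨h.1, h'.2.1, h1⟩, ← (tv_isSt S).cm a b c h h' h1, ← eg_val h, ← eg_val h']
    rfl)

lemma EG_induction {p : EG S → Prop} (mem : ∀ a b, S.Rt a b → p (eg S a b)) (one : p 1)
    (mul : ∀ g h, p g → p h → p (g * h)) (g : EG S) : p g := by
  obtain ⟨g, hg⟩ := g
  induction hg using closure_induction_left with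
  | one => exact one
  | mul_left b hb g hg ih =>
    obtain ⟨a, ha, c, hc, hac, rfl⟩ := hb
    have := mul _ _ (mem a c ⟨ha, hc, hac⟩) ih
    convert this using 1
    exact Subtype.ext (by simp [eg_val (S := S) ⟨ha, hc, hac⟩])
  | inv_mul_cancel b hb g hg ih =>
    obtain ⟨a, ha, c, hc, hac, rfl⟩ := hb
    have := mul _ _ (mem a c ⟨ha, hc, hac⟩) ih
    convert this using 1
    exact Subtype.ext (by simp [eg_val (S := S) ⟨ha, hc, hac⟩, (tv_isSt S).inv ⟨ha, hc, hac⟩])

lemma EG_hom_ext {Γ : Type} [Group Γ] {f g : EG S →* Γ}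
    (h : ∀ a b, S.Rt a b → f (eg S a b) = g (eg S a b)) : f = g := by
  ext u
  induction u using EG_induction with
  | mem a b hab => exact h a b hab
  | one => simp
  | mul u v h1 h2 => simp [h1, h2]

lemma EG_mem_of_gens {H : Subgroup (EG S)} (h : ∀ a b, S.Rt a b → eg S a b ∈ H) (g : EG S) :
    g ∈ H :=
  EG_induction h H.one_mem (fun _ _ => H.mul_mem) g

/-- Every generator is a commutator of generators, through a fresh index. -/
lemma eg_cm {a b : n} (h : S.Rt a b) (c d : n) : ∃ o, S.Rt a o ∧ S.Rt o b ∧ o ≠ c ∧ o ≠ d ∧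
    eg S a b = ⁅eg S a o, eg S o b⁆ := by
  obtain ⟨o, h1, h2, h3, h4, h5, h6⟩ := S.fresh a b c d
  exact ⟨o, ⟨h.1, h2, h3.symm⟩, ⟨h1, h.2.1, h4⟩, h5, h6,
    (eg_isSt.cm a o b ⟨h.1, h2, h3.symm⟩ ⟨h1, h.2.1, h4⟩ h.2.2).symm⟩

/-- The Steinberg relations present the group generated by the transvections. -/
theorem exists_hom [Finite n] {Γ : Type} [Group Γ] {x : n → n → Γ} (hx : IsSt S x) :
    ∃ ρ : EG S →* Γ, ∀ a b, S.Rt a b → ρ (eg S a b) = x a b := by
  classical
  have := Fintype.ofFinite n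
  let x' : n → n → Γ × EG S := fun a b => (x a b, eg S a b)
  have hx' : IsSt S x' :=
    { sq := fun a b h => Prod.ext (hx.sq a b h) (eg_isSt.sq a b h)
      comm := fun a b c d h h' h1 h2 =>
        Prod.ext (hx.comm a b c d h h' h1 h2) (eg_isSt.comm a b c d h h' h1 h2)
      cm := fun a b c h h' h1 => Prod.ext (hx.cm a b c h h' h1) (eg_isSt.cm a b c h h' h1) }
  let π : Γ × EG S →* Equiv.Perm (n → ZMod 2) := (EG S).subtype.comp (MonoidHom.snd _ _)
  have hπ : ∀ a b, S.Rt a b → π (x' a b) = tv a b := fun a b h => eg_val h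
  let s : Finset n := Finset.univ.filter S.Row
  let t : Finset n := Finset.univ.filter S.Col
  let H : Subgroup (Γ × EG S) := closure (gens x' s t)
  let f : H →* EG S := (MonoidHom.snd _ _).comp H.subtype
  have hmem : ∀ a b, S.Rt a b → x' a b ∈ H := fun a b h =>
    gens_mem (by simpa [s] using h.1) (by simpa [t] using h.2.1) h.2.2
  have hinj : Function.Injective f := by
    rw [injective_iff_map_eq_one]
    intro g hg
    refine Subtype.ext (inj_all hx' hπ _ s t le_rfl (by simp [s]) (by simp [t]) g g.2 ?_)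
    exact congrArg Subtype.val hg
  have hsurj : Function.Surjective f := by
    intro g
    refine EG_mem_of_gens (H := f.range) (fun a b h => ⟨⟨x' a b, hmem a b h⟩, rfl⟩) g
  let e := MulEquiv.ofBijective f ⟨hinj, hsurj⟩
  refine ⟨((MonoidHom.fst _ _).comp H.subtype).comp e.symm.toMonoidHom, fun a b h => ?_⟩
  have : e.symm (eg S a b) = ⟨x' a b, hmem a b h⟩ := by
    rw [MulEquiv.symm_apply_eq]; rfl
  simp [this, x']

/-- Stabiliser of a basis vector in the full group. -/
theorem stab_gen [Finite n] (hS : ∀ a, S.Row a ∧ S.Col a) (c : n) {H : Subgroup (EG S)}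
    (hH : ∀ a b, a ≠ b → b ≠ c → eg S a b ∈ H) (g : EG S)
    (hg : (g : Equiv.Perm (n → ZMod 2)) (Pi.single c 1) = Pi.single c 1) : g ∈ H := by
  have := Fintype.ofFinite n
  have es : insert c ((Finset.univ.erase c : Finset n) : Set n) = Set.univ := by
    ext a; by_cases h : a = c <;> simp [h]
  have h1 : g ∈ closure (gens (eg S) Set.univ Set.univ) :=
    EG_mem_of_gens (fun a b h => gens_mem trivial trivial h.2.2) g
  rw [← es] at h1
  have h2 := stab_step (π := (EG S).subtype) eg_isSt (fun a b h => eg_val h) (Finset.univ.erase c)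
    (fun a _ => hS a) (hS c) (by simp) h1 hg
  refine (closure_le H).2 ?_ h2
  rintro _ ⟨a, -, b, hb, hab, rfl⟩
  exact hH a b hab (by simpa using hb)

/-- Adding a vector through a column. -/
lemma add_vec [Finite n] {H : Subgroup (EG S)} (o : n) (ho : S.Col o) (w : n → ZMod 2)
    (hw : ∀ c, w c ≠ 0 → S.Row c ∧ c ≠ o ∧ eg S c o ∈ H) :
    ∃ g ∈ H, ∀ v : n → ZMod 2, (g : Equiv.Perm (n → ZMod 2)) v = v + v o • w := by
  have := Fintype.ofFinite n
  have key : ∀ T : Finset n, ∀ w : n → ZMod 2, (∀ c, w c ≠ 0 → c ∈ T) →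
      (∀ c, w c ≠ 0 → S.Row c ∧ c ≠ o ∧ eg S c o ∈ H) →
      ∃ g ∈ H, ∀ v : n → ZMod 2, (g : Equiv.Perm (n → ZMod 2)) v = v + v o • w := by
    intro T
    induction T using Finset.induction_on with
    | empty =>
      intro w h _
      have : w = 0 := funext fun c => by_contra fun hc => by simpa using h c hc
      exact ⟨1, H.one_mem, by simp [this]⟩
    | insert c T hc ih =>
      intro w h hw
      by_cases h0 : w c = 0
      · refine ih w (fun d hd => ?_) hw
        rcases Finset.mem_insert.1 (h d hd) with rfl | h'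
        · exact absurd h0 hd
        · exact h'
      obtain ⟨h1, h2, h3⟩ := hw c h0
      have hw1 : w c = 1 := by
        revert h0; generalize w c = z; revert z; decide
      obtain ⟨g, hg, hg'⟩ := ih (Function.update w c 0) (fun d hd => by
          by_cases e : d = c
          · subst e; simp at hd
          · rw [Function.update_of_ne e] at hd
            exact (Finset.mem_insert.1 (h d hd)).resolve_left e)
        (fun d hd => by
          by_cases e : d = c
          · subst e; simp at hd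
          · rw [Function.update_of_ne e] at hd; exact hw d hd)
      refine ⟨eg S c o * g, H.mul_mem h3 hg, fun v => ?_⟩
      have hwo : w o = 0 := by_contra fun e => (hw o e).2.1 rfl
      rw [Subgroup.coe_mul, Equiv.Perm.mul_apply, hg', eg_val ⟨h1, ho, h2⟩]
      funext d
      rw [tv_apply h2]
      by_cases e : d = c
      · subst e; simp [hw1, Function.update_of_ne h2.symm, hwo]
      · simp [e]
  exact key Finset.univ w (fun c _ => Finset.mem_univ c) hw

end E

end Pool.Agent.Lib.MP_b611b5_al
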